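import Pool.Agent.H142.FS.Defs

set_option autoImplicit false

open Set Filter Topology

namespace Pool.Agent.H142.FS

theorem convex_half_A1 (α β γ : ℝ) : Convex ℝ {p : Pt | α * p.1 + β * p.2 ≤ γ} := by
  intro x hx y hy s t hs ht hst
  simp only [Set.mem_setOf_eq] at hx hy ⊢
  simp only [Prod.fst_add, Prod.snd_add, Prod.smul_fst, Prod.smul_snd, smul_eq_mul]
  have h1 := mul_le_mul_of_nonneg_left hx hs
  have h2 := mul_le_mul_of_nonneg_left hy ht
  have h3 : s * γ + t * γ = γ := by rw [← add_mul, hst, one_mul]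
  nlinarith

theorem mem_hull3 (a b c p : Pt) : p ∈ hull {a, b, c} ↔
    ∃ α β γ : ℝ, 0 ≤ α ∧ 0 ≤ β ∧ 0 ≤ γ ∧ α + β + γ = 1 ∧ p = α • a + β • b + γ • c := by
  have hcoe : (({a, b, c} : Finset Pt) : Set Pt) = {a, b, c} := by
    simp
  constructor
  · intro hp
    have hconv : Convex ℝ {p : Pt | ∃ α β γ : ℝ, 0 ≤ α ∧ 0 ≤ β ∧ 0 ≤ γ ∧ α + β + γ = 1 ∧
        p = α • a + β • b + γ • c} := by
      rintro x ⟨α, β, γ, h1, h2, h3, h4, rfl⟩ y ⟨α', β', γ', h1', h2', h3', h4', rfl⟩ s t hs ht hst
      refine ⟨s * α + t * α', s * β + t * β', s * γ + t * γ', by positivity, by positivity,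
        by positivity, ?_, ?_⟩
      · have : s * α + t * α' + (s * β + t * β') + (s * γ + t * γ')
            = s * (α + β + γ) + t * (α' + β' + γ') := by ring
        rw [this, h4, h4', mul_one, mul_one, hst]
      · module
    have hsub : (({a, b, c} : Finset Pt) : Set Pt) ⊆ {p : Pt | ∃ α β γ : ℝ, 0 ≤ α ∧ 0 ≤ β ∧ 0 ≤ γ ∧
        α + β + γ = 1 ∧ p = α • a + β • b + γ • c} := by
      rw [hcoe]
      intro x hx
      rcases hx with rfl | rfl | hx
      · exact ⟨1, 0, 0, by norm_num, by norm_num, by norm_num, by norm_num, by module⟩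
      · exact ⟨0, 1, 0, by norm_num, by norm_num, by norm_num, by norm_num, by module⟩
      · rw [Set.mem_singleton_iff] at hx
        subst hx
        exact ⟨0, 0, 1, by norm_num, by norm_num, by norm_num, by norm_num, by module⟩
    exact convexHull_min hsub hconv hp
  · rintro ⟨α, β, γ, h1, h2, h3, h4, rfl⟩
    have hC : Convex ℝ (hull {a, b, c}) := convex_convexHull ℝ _
    have ha : a ∈ hull {a, b, c} := subset_convexHull ℝ _ (by simp)
    have hb : b ∈ hull {a, b, c} := subset_convexHull ℝ _ (by simp)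
    have hc : c ∈ hull {a, b, c} := subset_convexHull ℝ _ (by simp)
    rcases eq_or_lt_of_le h3 with h3' | h3'
    · rw [← h3']
      rw [← h3', add_zero] at h4
      have := hC ha hb h1 h2 h4
      rw [zero_smul, add_zero]
      exact this
    · by_cases hab : α + β = 0
      · have hα : α = 0 := by linarith
        have hβ : β = 0 := by linarith
        have hγ : γ = 1 := by linarith
        rw [hα, hβ, hγ, zero_smul, zero_smul, one_smul, zero_add, zero_add]
        exact hc
      · have hpos : 0 < α + β := lt_of_le_of_ne (by positivity) (Ne.symm hab)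
        have hd : (α / (α + β)) • a + (β / (α + β)) • b ∈ hull {a, b, c} :=
          hC ha hb (by positivity) (by positivity) (by field_simp)
        have he := hC hd hc (le_of_lt hpos) h3 h4
        have hE : (α + β) • ((α / (α + β)) • a + (β / (α + β)) • b) + γ • c
            = α • a + β • b + γ • c := by
          rw [smul_add, smul_smul, smul_smul, mul_div_cancel₀ _ hab, mul_div_cancel₀ _ hab]
        rw [← hE]
        exact he

theorem hull_le (α β γ : ℝ) (t : Finset Pt) (h : ∀ v ∈ t, α * v.1 + β * v.2 ≤ γ)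
    {p : Pt} (hp : p ∈ hull t) : α * p.1 + β * p.2 ≤ γ := by
  have hsub : ((t : Finset Pt) : Set Pt) ⊆ {p : Pt | α * p.1 + β * p.2 ≤ γ} := by
    intro x hx
    exact h x (by simpa using hx)
  exact convexHull_min hsub (convex_half_A1 α β γ) hp

theorem interior_lt_A1 (α β γ : ℝ) (h0 : α ≠ 0 ∨ β ≠ 0) (t : Finset Pt)
    (h : ∀ v ∈ t, α * v.1 + β * v.2 ≤ γ) {p : Pt} (hp : p ∈ interior (hull t)) :
    α * p.1 + β * p.2 < γ := by
  have hcont : Continuous (fun e : ℝ => (p.1 + e * α, p.2 + e * β) : ℝ → Pt) := by fun_prop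
  have hopen : IsOpen ((fun e : ℝ => (p.1 + e * α, p.2 + e * β) : ℝ → Pt) ⁻¹'
      interior (hull t)) := isOpen_interior.preimage hcont
  have h0mem : (0 : ℝ) ∈ ((fun e : ℝ => (p.1 + e * α, p.2 + e * β) : ℝ → Pt) ⁻¹'
      interior (hull t)) := by
    simp only [Set.mem_preimage, zero_mul, add_zero]
    exact hp
  obtain ⟨ε, hε, hball⟩ := Metric.isOpen_iff.1 hopen 0 h0mem
  have hmem : (ε / 2) ∈ Metric.ball (0 : ℝ) ε := by
    rw [Metric.mem_ball, Real.dist_eq, sub_zero, abs_of_pos (by positivity)]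
    linarith
  have h1 := interior_subset (hball hmem)
  have h2 := hull_le α β γ t h h1
  simp only at h2
  have h3 : 0 < α ^ 2 + β ^ 2 := by
    rcases h0 with h0 | h0
    · have := sq_pos_of_pos (abs_pos.2 h0)
      rw [sq_abs] at this
      positivity
    · have := sq_pos_of_pos (abs_pos.2 h0)
      rw [sq_abs] at this
      positivity
  have h4 : 0 < (ε / 2) * (α ^ 2 + β ^ 2) := by positivity
  nlinarith

theorem disj_of_sep (α β γ : ℝ) (h0 : α ≠ 0 ∨ β ≠ 0) (t t' : Finset Pt)
    (h : ∀ v ∈ t, α * v.1 + β * v.2 ≤ γ) (h' : ∀ v ∈ t', γ ≤ α * v.1 + β * v.2) :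
    Disjoint (interior (hull t)) (interior (hull t')) := by
  rw [Set.disjoint_left]
  intro p hp hp'
  have h1 := interior_lt_A1 α β γ h0 t h hp
  have h0' : -α ≠ 0 ∨ -β ≠ 0 := by
    rcases h0 with h0 | h0
    · exact Or.inl (neg_ne_zero.2 h0)
    · exact Or.inr (neg_ne_zero.2 h0)
  have h2 := interior_lt_A1 (-α) (-β) (-γ) h0' t' (fun v hv => by linarith [h' v hv]) hp'
  linarith

end Pool.Agent.H142.FS
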