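import Pool.Agent.H142.FS.Defs
import Pool.Agent.H142.FS.A1

set_option autoImplicit false

open Set Filter Topology

namespace Pool.Agent.H142.FS

theorem wedge (o a b z : Pt) (h : 0 < orient o a b) (h1 : 0 ≤ orient o a z)
    (h2 : 0 ≤ orient o z b) :
    ∃ α β : ℝ, 0 ≤ α ∧ 0 ≤ β ∧ z = o + α • (a - o) + β • (b - o) ∧
      (0 ≤ orient a b z → z ∈ hull {o, a, b}) ∧ (orient a b z < 0 → 1 < α + β) := by
  obtain ⟨o1, o2⟩ := o
  obtain ⟨a1, a2⟩ := a
  obtain ⟨b1, b2⟩ := b
  obtain ⟨z1, z2⟩ := z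
  simp only [orient] at h h1 h2 ⊢
  set D := (a1 - o1) * (b2 - o2) - (a2 - o2) * (b1 - o1) with hD
  set E := (z1 - o1) * (b2 - o2) - (z2 - o2) * (b1 - o1) with hE
  set G := (a1 - o1) * (z2 - o2) - (a2 - o2) * (z1 - o1) with hG
  have hD0 : D ≠ 0 := ne_of_gt h
  have e1 : z1 = o1 + E / D * (a1 - o1) + G / D * (b1 - o1) := by
    field_simp
    rw [hD, hE, hG]
    ring
  have e2 : z2 = o2 + E / D * (a2 - o2) + G / D * (b2 - o2) := by
    field_simp
    rw [hD, hE, hG]
    ring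
  have e3 : (b1 - a1) * (z2 - a2) - (b2 - a2) * (z1 - a1) = D * (1 - E / D - G / D) := by
    have h3 : D * (1 - E / D - G / D) = D - E - G := by
      field_simp
    rw [h3, hD, hE, hG]
    ring
  refine ⟨E / D, G / D, div_nonneg h2 h.le, div_nonneg h1 h.le, ?_, ?_, ?_⟩
  · exact Prod.ext e1 e2
  · intro h4
    rw [e3] at h4
    have h5 : 0 ≤ 1 - E / D - G / D := nonneg_of_mul_nonneg_right h4 h
    rw [mem_hull3]
    refine ⟨1 - E / D - G / D, E / D, G / D, h5, div_nonneg h2 h.le, div_nonneg h1 h.le,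
      by ring, ?_⟩
    refine Prod.ext ?_ ?_
    · change z1 = (1 - E / D - G / D) * o1 + E / D * a1 + G / D * b1
      refine e1.trans ?_
      ring
    · change z2 = (1 - E / D - G / D) * o2 + E / D * a2 + G / D * b2
      refine e2.trans ?_
      ring
  · intro h4
    rw [e3] at h4
    by_contra h5
    push Not at h5
    have h6 : 0 ≤ D * (1 - E / D - G / D) := mul_nonneg h.le (by linarith)
    linarith

end Pool.Agent.H142.FS
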