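import Pool.Agent.H142.FS.Defs
import Pool.Agent.H142.FS.A1

set_option autoImplicit false

open Set Filter Topology

namespace Pool.Agent.H142.FS

theorem cross_data_A3 (a b c d : Pt) (h : (openSegment ℝ a b ∩ openSegment ℝ c d).Nonempty) :
    ∃ s₁ s₂ t₁ t₂ : ℝ, 0 < s₁ ∧ 0 < s₂ ∧ s₁ + s₂ = 1 ∧ 0 < t₁ ∧ 0 < t₂ ∧ t₁ + t₂ = 1 ∧
      s₁ * a.1 + s₂ * b.1 = t₁ * c.1 + t₂ * d.1 ∧ s₁ * a.2 + s₂ * b.2 = t₁ * c.2 + t₂ * d.2 := by
  obtain ⟨x, ⟨s₁, s₂, hs₁, hs₂, hs, hx⟩, ⟨t₁, t₂, ht₁, ht₂, ht, hx'⟩⟩ := h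
  refine ⟨s₁, s₂, t₁, t₂, hs₁, hs₂, hs, ht₁, ht₂, ht, ?_, ?_⟩
  · have h1 := congrArg Prod.fst (hx.trans hx'.symm)
    simpa using h1
  · have h1 := congrArg Prod.snd (hx.trans hx'.symm)
    simpa using h1

theorem cross_orient (a b c d : Pt) (h : (openSegment ℝ a b ∩ openSegment ℝ c d).Nonempty) :
    orient a b c < 0 → ¬ orient a b d < 0 := by
  obtain ⟨s₁, s₂, t₁, t₂, hs₁, hs₂, hs, ht₁, ht₂, ht, e1, e2⟩ := cross_data_A3 a b c d h
  intro hc hd
  have key : t₁ * orient a b c + t₂ * orient a b d = 0 := by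
    have hs' : s₁ = 1 - s₂ := by linarith
    have ht' : t₁ = 1 - t₂ := by linarith
    subst hs' ht'
    unfold orient
    linear_combination (-(b.1 - a.1)) * e2 + (b.2 - a.2) * e1
  have h1 := mul_neg_of_pos_of_neg ht₁ hc
  have h2 := mul_neg_of_pos_of_neg ht₂ hd
  linarith

theorem flip_hull (a b c d : Pt) (h : (openSegment ℝ a b ∩ openSegment ℝ c d).Nonempty) :
    hull {a, c, d} ⊆ hull {a, b, c} ∪ hull {a, b, d} := by
  obtain ⟨s₁, s₂, t₁, t₂, hs₁, hs₂, hs, ht₁, ht₂, ht, e1, e2⟩ := cross_data_A3 a b c d h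
  intro p hp
  rw [mem_hull3] at hp
  obtain ⟨α, β, γ, hα, hβ, hγ, hsum, hp⟩ := hp
  have hp1 : p.1 = α * a.1 + β * c.1 + γ * d.1 := by rw [hp]; simp
  have hp2 : p.2 = α * a.2 + β * c.2 + γ * d.2 := by rw [hp]; simp
  have hs' : s₁ = 1 - s₂ := by linarith
  rcases le_total (γ * t₁) (β * t₂) with hle | hle
  · left
    rw [mem_hull3]
    refine ⟨α + γ / t₂ * s₁, γ / t₂ * s₂, β - γ * t₁ / t₂, by positivity, by positivity, ?_, ?_, ?_⟩
    · rw [sub_nonneg, div_le_iff₀ ht₂]; exact hle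
    · have ht' : t₁ = 1 - t₂ := by linarith
      subst hs' ht'
      field_simp
      linear_combination t₂ * hsum
    · apply Prod.ext
      · simp only [Prod.fst_add, Prod.smul_fst, smul_eq_mul]
        rw [hp1]
        field_simp
        linear_combination (-γ) * e1
      · simp only [Prod.snd_add, Prod.smul_snd, smul_eq_mul]
        rw [hp2]
        field_simp
        linear_combination (-γ) * e2
  · right
    rw [mem_hull3]
    refine ⟨α + β / t₁ * s₁, β / t₁ * s₂, γ - β * t₂ / t₁, by positivity, by positivity, ?_, ?_, ?_⟩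
    · rw [sub_nonneg, div_le_iff₀ ht₁]; exact hle
    · have ht' : t₂ = 1 - t₁ := by linarith
      subst hs' ht'
      field_simp
      linear_combination t₁ * hsum
    · apply Prod.ext
      · simp only [Prod.fst_add, Prod.smul_fst, smul_eq_mul]
        rw [hp1]
        field_simp
        linear_combination (-β) * e1
      · simp only [Prod.snd_add, Prod.smul_snd, smul_eq_mul]
        rw [hp2]
        field_simp
        linear_combination (-β) * e2

theorem orient_ne_of_isTri_A3 (a b c : Pt) (h : IsTri {a, b, c}) : orient a b c ≠ 0 := by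
  intro h0
  obtain ⟨a', b', c', hne, heq⟩ := h
  have ha : a' ∈ ({a, b, c} : Finset Pt) := by rw [heq]; simp
  have hb : b' ∈ ({a, b, c} : Finset Pt) := by rw [heq]; simp
  have hc : c' ∈ ({a, b, c} : Finset Pt) := by rw [heq]; simp
  simp only [Finset.mem_insert, Finset.mem_singleton] at ha hb hc
  apply hne
  unfold orient at h0 ⊢
  rcases ha with ha | ha | ha <;> rcases hb with hb | hb | hb <;> rcases hc with hc | hc | hc <;>
    subst ha hb hc <;> first | ring1 | linear_combination h0 | linear_combination (-1) * h0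

theorem flip_tri (a b c d : Pt) (h : (openSegment ℝ a b ∩ openSegment ℝ c d).Nonempty)
    (h1 : IsTri {a, b, c}) : IsTri {a, c, d} := by
  obtain ⟨s₁, s₂, t₁, t₂, hs₁, hs₂, hs, ht₁, ht₂, ht, e1, e2⟩ := cross_data_A3 a b c d h
  have h0 := orient_ne_of_isTri_A3 a b c h1
  refine ⟨a, c, d, ?_, rfl⟩
  intro hz
  have key : t₂ * orient a c d = - (s₂ * orient a b c) := by
    have hs' : s₁ = 1 - s₂ := by linarith
    have ht' : t₁ = 1 - t₂ := by linarith
    subst hs' ht'
    unfold orient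
    linear_combination (-(c.1 - a.1)) * e2 + (c.2 - a.2) * e1
  rw [hz, mul_zero] at key
  have : s₂ * orient a b c = 0 := by linarith
  rcases mul_eq_zero.mp this with h2 | h2
  · exact absurd h2 hs₂.ne'
  · exact h0 h2

end Pool.Agent.H142.FS
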