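import Pool.Agent.H142.FS.Defs
import Pool.Agent.H142.FS.A1

set_option autoImplicit false

open Set Filter Topology

namespace Pool.Agent.H142.FS

theorem split_hull (t : Finset Pt) (p x : Pt) (hp : p ∈ hull t) :
    hull (insert p (t.erase x)) ⊆ hull t := by
  unfold hull at *
  apply convexHull_min _ (convex_convexHull ℝ _)
  intro y hy
  rw [Finset.coe_insert, Set.mem_insert_iff] at hy
  rcases hy with rfl | hy
  · exact hp
  · apply subset_convexHull ℝ _
    rw [Finset.mem_coe] at hy ⊢
    exact Finset.mem_of_mem_erase hy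

theorem orient_ne_A4 (a b c p : Pt) (h : orient a b c ≠ 0)
    (hp : p ∈ interior (hull {a, b, c})) : orient p b c ≠ 0 := by
  have hcont : Continuous (fun δ : ℝ => p - δ • (a - b)) := by fun_prop
  have hopen : IsOpen ((fun δ : ℝ => p - δ • (a - b)) ⁻¹' (interior (hull {a, b, c}))) :=
    isOpen_interior.preimage hcont
  have h0 : (0 : ℝ) ∈ (fun δ : ℝ => p - δ • (a - b)) ⁻¹' (interior (hull {a, b, c})) := by
    simpa using hp
  obtain ⟨ε, hε, hball⟩ := Metric.isOpen_iff.mp hopen 0 h0
  have hδ : (ε / 2) ∈ Metric.ball (0 : ℝ) ε := by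
    rw [Metric.mem_ball, Real.dist_eq, sub_zero, abs_of_pos (by linarith)]
    linarith
  have hy := interior_subset (hball hδ)
  obtain ⟨α, β, γ, hα, hβ, hγ, hs, he⟩ := (mem_hull3 a b c _).mp hy
  have he1 := congrArg Prod.fst he
  have he2 := congrArg Prod.snd he
  simp only [Prod.fst_sub, Prod.snd_sub, Prod.fst_add, Prod.snd_add, Prod.smul_fst, Prod.smul_snd,
    smul_eq_mul] at he1 he2
  have hp1 : p.1 = α * a.1 + β * b.1 + γ * c.1 + ε / 2 * (a.1 - b.1) := by linarith
  have hp2 : p.2 = α * a.2 + β * b.2 + γ * c.2 + ε / 2 * (a.2 - b.2) := by linarith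
  have hg : γ = 1 - α - β := by linarith
  have key : orient p b c = (α + ε / 2) * orient a b c := by
    unfold orient
    rw [hp1, hp2, hg]
    ring
  rw [key]
  exact mul_ne_zero (by linarith) h

theorem split_aux_A4 (a b c p : Pt) (h : orient a b c ≠ 0)
    (hp : p ∈ interior (hull {a, b, c})) :
    IsTri (insert p (({a, b, c} : Finset Pt).erase a)) := by
  have hab : a ≠ b := by
    rintro rfl
    apply h
    unfold orient
    ring
  have hac : a ≠ c := by
    rintro rfl
    apply h
    unfold orient
    ring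
  have he : (({a, b, c} : Finset Pt).erase a) = {b, c} := by
    rw [Finset.erase_insert]
    simp [hab, hac]
  rw [he]
  exact ⟨p, b, c, orient_ne_A4 a b c p h hp, rfl⟩

theorem split_tri (t : Finset Pt) (p x : Pt) (ht : IsTri t) (hp : p ∈ interior (hull t))
    (hx : x ∈ t) : IsTri (insert p (t.erase x)) := by
  obtain ⟨a, b, c, h, rfl⟩ := ht
  rw [Finset.mem_insert, Finset.mem_insert, Finset.mem_singleton] at hx
  have e1 : ({a, b, c} : Finset Pt) = {b, c, a} := by
    ext y; simp only [Finset.mem_insert, Finset.mem_singleton]; tauto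
  have e2 : ({a, b, c} : Finset Pt) = {c, a, b} := by
    ext y; simp only [Finset.mem_insert, Finset.mem_singleton]; tauto
  rcases hx with rfl | rfl | rfl
  · exact split_aux_A4 _ _ _ _ h hp
  · rw [e1] at hp ⊢
    refine split_aux_A4 _ _ _ _ ?_ hp
    have : orient x c a = orient a x c := by unfold orient; ring
    rw [this]; exact h
  · rw [e2] at hp ⊢
    refine split_aux_A4 _ _ _ _ ?_ hp
    have : orient x a b = orient a b x := by unfold orient; ring
    rw [this]; exact h

end Pool.Agent.H142.FS
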