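import Pool.Agent.H142.FS.Defs
import Pool.Agent.H142.FS.A4
import Pool.Agent.H142.FS.A3

set_option autoImplicit false

open Set Filter Topology

namespace Pool.Agent.H142.FS

/- TARGETS (B1). -/

theorem Inv_split (P : Set Pt) (S : Finset Pt) (T : Finset (Finset Pt)) (t : Finset Pt) (p : Pt)
    (h : Inv P S T) (ht : t ∈ T) (hp : p ∈ interior (hull t)) :
    Inv P (insert p S) (split T t p) := by
  intro u hu
  rw [split, Finset.mem_union, Finset.mem_erase, Finset.mem_image] at hu
  rcases hu with ⟨-, hu⟩ | ⟨x, hx, rfl⟩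
  · obtain ⟨h1, h2, h3⟩ := h u hu
    exact ⟨h1, h2, h3.trans (Finset.subset_insert _ _)⟩
  · obtain ⟨h1, h2, h3⟩ := h t ht
    exact ⟨split_tri t p x h1 hp hx, (split_hull t p x (interior_subset hp)).trans h2,
      Finset.insert_subset_insert _ ((Finset.erase_subset _ _).trans h3)⟩

theorem Inv_flip (P : Set Pt) (S : Finset Pt) (T T' : Finset (Finset Pt))
    (h : Inv P S T) (hf : Flip T T') : Inv P S T' := by
  obtain ⟨a, b, c, d, hc, hd, hne, rfl⟩ := hf
  obtain ⟨c1, c2, c3⟩ := h _ hc
  obtain ⟨d1, d2, d3⟩ := h _ hd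
  have haS : a ∈ S := c3 (by simp)
  have hbS : b ∈ S := c3 (by simp)
  have hcS : c ∈ S := c3 (by simp)
  have hdS : d ∈ S := d3 (by simp)
  intro u hu
  rcases Finset.mem_union.1 hu with hu | hu
  · exact h u (Finset.mem_sdiff.1 hu).1
  rw [Finset.mem_insert, Finset.mem_singleton] at hu
  rcases hu with rfl | rfl
  · refine ⟨flip_tri a b c d hne c1, (flip_hull a b c d hne).trans (Set.union_subset c2 d2), ?_⟩
    intro x hx
    simp only [Finset.mem_insert, Finset.mem_singleton] at hx
    rcases hx with rfl | rfl | rfl <;> assumption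
  · rw [openSegment_symm] at hne
    rw [Finset.insert_comm] at c1 c2 d2
    refine ⟨flip_tri b a c d hne c1, (flip_hull b a c d hne).trans (Set.union_subset c2 d2), ?_⟩
    intro x hx
    simp only [Finset.mem_insert, Finset.mem_singleton] at hx
    rcases hx with rfl | rfl | rfl <;> assumption

end Pool.Agent.H142.FS
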