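import Pool.Agent.H142.FS.Defs
import Pool.Agent.H142.FS.B1

set_option autoImplicit false

open Set Filter Topology

namespace Pool.Agent.H142.FS

theorem inserted (P : Set Pt) (S : Finset Pt) (j : ℕ)
    (A B : Finset (Finset Pt) × Finset (Finset Pt)) (h : Steps InsertStep j A B)
    (h1 : Inv P S A.1) (h2 : Inv P S A.2) :
    ∃ X : Finset Pt, X.card ≤ j ∧ Inv P (S ∪ X) B.1 ∧ Inv P (S ∪ X) B.2 ∧
      (∀ t ∈ A.1, (∀ p ∈ X, p ∉ hull t) → t ∈ B.1) ∧
      (∀ t ∈ B.2, t ∈ A.2 ∨ ∃ p ∈ X, p ∈ t) := by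
  induction h with
  | zero a =>
    refine ⟨∅, by simp, ?_, ?_, fun t ht _ => ht, fun t ht => Or.inl ht⟩
    · rw [Finset.union_empty]
      exact h1
    · rw [Finset.union_empty]
      exact h2
  | succ hs hr ih =>
    obtain ⟨X, hX, i1, i2, h3, h4⟩ := ih h1 h2
    obtain ⟨p, t₁, t₂, ht₁, ht₂, hp₁, hp₂, rfl⟩ := hr
    refine ⟨insert p X, (Finset.card_insert_le _ _).trans (Nat.succ_le_succ hX), ?_, ?_, ?_, ?_⟩
    · rw [Finset.union_insert]
      exact Inv_split P _ _ t₁ p i1 ht₁ hp₁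
    · rw [Finset.union_insert]
      exact Inv_split P _ _ t₂ p i2 ht₂ hp₂
    · intro t ht hXt
      have ht' := h3 t ht fun x hx => hXt x (Finset.mem_insert_of_mem hx)
      have hne : t ≠ t₁ := by
        rintro rfl
        exact hXt p (Finset.mem_insert_self _ _) (interior_subset hp₁)
      exact Finset.mem_union_left _ (Finset.mem_erase.2 ⟨hne, ht'⟩)
    · intro t ht
      rcases Finset.mem_union.1 ht with h | h
      · rcases h4 t (Finset.mem_erase.1 h).2 with h5 | ⟨x, hx, hxt⟩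
        · exact Or.inl h5
        · exact Or.inr ⟨x, Finset.mem_insert_of_mem hx, hxt⟩
      · obtain ⟨x, hx, rfl⟩ := Finset.mem_image.1 h
        exact Or.inr ⟨p, Finset.mem_insert_self _ _, Finset.mem_insert_self _ _⟩

end Pool.Agent.H142.FS

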