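import Pool.Agent.H142.FS.Defs

-- job 7915 done by helper586; statement unchanged

set_option autoImplicit false

open Set Filter Topology

namespace Pool.Agent.H142.FS

theorem fl_low_C1 (L j : ℕ) (hj : j < L) (x y : ℝ) (hf : fl L j x y ≤ 0)
    (hx : x ≤ -(2 * (L : ℝ) ^ 2)) : y ≤ 0 := by
  by_contra hy
  push Not at hy
  have hj1 : (j : ℝ) + 1 ≤ (L : ℝ) := by exact_mod_cast hj
  have hj0 : (0 : ℝ) ≤ (j : ℝ) := Nat.cast_nonneg _
  unfold fl q at hf
  obtain ⟨A, hA⟩ : ∃ A : ℝ, (L : ℝ) = A + j := ⟨(L : ℝ) - j, by ring⟩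
  rw [hA] at hf hx hj1
  have hA1 : 1 ≤ A := by linarith
  have h1 : 0 < (2 * A - 1) * y := mul_pos (by linarith) hy
  have h2 : 0 ≤ (j : ℝ) ^ 2 := by positivity
  nlinarith

theorem tooth_low_C1 (L : ℕ) (x y : ℝ) (h : (x, y) ∈ Tooth L) (hx : 2 * (L : ℝ) ^ 2 ≤ |x|) :
    y ≤ 0 := by
  obtain ⟨_, _, ⟨j, hj, hf⟩, ⟨j', hj', hf'⟩⟩ := h
  rcases le_abs.mp hx with h1 | h1
  · exact fl_low_C1 L j' hj' (-x) y hf' (by linarith)
  · exact fl_low_C1 L j hj x y hf (by linarith)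

theorem poly_ge_C1 (L m : ℕ) (z : Pt) (hz : z ∈ Poly L m) : -1 ≤ z.2 := by
  rcases hz with h | ⟨i', _, _, h⟩
  · exact h.2.2.1
  · have h1 : 0 ≤ z.2 := h.1
    linarith

theorem poly_low_C1 (L m i : ℕ) (z : Pt) (hz : z ∈ Poly L m)
    (hzi : |z.1 - cc L i| = 2 * (L : ℝ) ^ 2) : z.2 ≤ 0 := by
  rcases hz with h | ⟨i', _, _, h⟩
  · exact h.2.2.2
  · apply tooth_low_C1 L _ _ h
    by_cases hii : i' = i
    · rw [hii]; exact hzi.ge
    · have hL2 : 0 ≤ (L : ℝ) ^ 2 := by positivity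
      have h1 : 16 * (L : ℝ) ^ 2 ≤ |cc L i - cc L i'| := by
        unfold cc
        rcases Nat.lt_or_gt_of_ne hii with h2 | h2
        · have h3 : (i' : ℝ) + 1 ≤ (i : ℝ) := by exact_mod_cast h2
          rw [le_abs]; left
          nlinarith
        · have h3 : (i : ℝ) + 1 ≤ (i' : ℝ) := by exact_mod_cast h2
          rw [le_abs]; right
          nlinarith
      have h4 : |cc L i - cc L i'| ≤ |z.1 - cc L i'| + |z.1 - cc L i| := by
        have h5 : cc L i - cc L i' = (z.1 - cc L i') - (z.1 - cc L i) := by ring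
        rw [h5]
        exact abs_sub _ _
      linarith

/-- A point of the segment at a given abscissa. -/
theorem seg_pt_C1 (u p : Pt) (s : ℝ) (hs0 : 0 ≤ s) (hs1 : s ≤ 1) :
    ((u.1 + s * (p.1 - u.1), u.2 + s * (p.2 - u.2)) : Pt) ∈ segment ℝ u p := by
  refine ⟨1 - s, s, by linarith, hs0, by ring, ?_⟩
  apply Prod.ext
  · simp only [Prod.fst_add, Prod.smul_fst, smul_eq_mul]; ring
  · simp only [Prod.snd_add, Prod.smul_snd, smul_eq_mul]; ring

theorem vis_near (L m i a : ℕ) (hL : 1 ≤ L) (hi : 1 ≤ i) (him : i ≤ m) (ha : 1 ≤ a) (haL : a ≤ L)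
    (p : Pt) (h : segment ℝ (U L i a) p ⊆ Poly L m) : Near L i p := by
  have hp : p ∈ Poly L m := h (right_mem_segment ℝ _ _)
  have hp1 : -1 ≤ p.2 := poly_ge_C1 L m p hp
  have ha1 : (1 : ℝ) ≤ (a : ℝ) := by exact_mod_cast ha
  have haL1 : (a : ℝ) ≤ (L : ℝ) := by exact_mod_cast haL
  have hL1 : (1 : ℝ) ≤ (L : ℝ) := by exact_mod_cast hL
  have hq1 : 0 < q L a := by unfold q; positivity
  have hq2 : q L a ≤ 2 * (L : ℝ) ^ 2 := by
    unfold q
    nlinarith
  have hL2 : 0 < (L : ℝ) ^ 2 := by positivity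
  -- the key computation
  have key : ∀ (N D : ℝ), 0 ≤ N → 0 < D → 2 * N < D → (a : ℝ) + N / D * (p.2 - a) ≤ 0 → False := by
    intro N D hN hD hND hle
    have h1 : N / D * D = N := div_mul_cancel₀ N hD.ne'
    have h2 : (a : ℝ) * D + N * (p.2 - a) ≤ 0 := by
      have h3 : ((a : ℝ) + N / D * (p.2 - a)) * D ≤ 0 := mul_nonpos_of_nonpos_of_nonneg hle hD.le
      have h4 : ((a : ℝ) + N / D * (p.2 - a)) * D = (a : ℝ) * D + (N / D * D) * (p.2 - a) := by ring
      rw [h4, h1] at h3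
      exact h3
    have h5 : N * (-1 - (a : ℝ)) ≤ N * (p.2 - a) := mul_le_mul_of_nonneg_left (by linarith) hN
    have h6 : (a : ℝ) * (2 * N) < (a : ℝ) * D := mul_lt_mul_of_pos_left hND (by linarith)
    nlinarith
  unfold Near
  by_contra hcon
  push Not at hcon
  rcases lt_abs.mp hcon with h1 | h1
  · have hD : 0 < p.1 - cc L i + q L a := by linarith
    have hND : 2 * (2 * (L : ℝ) ^ 2 + q L a) < p.1 - cc L i + q L a := by linarith
    have hs0 : 0 ≤ (2 * (L : ℝ) ^ 2 + q L a) / (p.1 - cc L i + q L a) := by positivity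
    have hs1 : (2 * (L : ℝ) ^ 2 + q L a) / (p.1 - cc L i + q L a) ≤ 1 := by
      rw [div_le_one hD]; linarith
    have hz := h (seg_pt_C1 (U L i a) p _ hs0 hs1)
    have hz2 := poly_low_C1 L m i _ hz (by
      have e1 : (U L i a).1 + (2 * (L : ℝ) ^ 2 + q L a) / (p.1 - cc L i + q L a) *
          (p.1 - (U L i a).1) - cc L i = 2 * (L : ℝ) ^ 2 := by
        unfold U
        simp only
        field_simp
        ring
      simp only
      rw [e1, abs_of_pos (by positivity)])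
    exact key _ _ (by positivity) hD hND hz2
  · have hD : 0 < cc L i - q L a - p.1 := by linarith
    have hND : 2 * (2 * (L : ℝ) ^ 2 - q L a) < cc L i - q L a - p.1 := by linarith
    have hN : 0 ≤ 2 * (L : ℝ) ^ 2 - q L a := by linarith
    have hs0 : 0 ≤ (2 * (L : ℝ) ^ 2 - q L a) / (cc L i - q L a - p.1) := div_nonneg hN hD.le
    have hs1 : (2 * (L : ℝ) ^ 2 - q L a) / (cc L i - q L a - p.1) ≤ 1 := by
      rw [div_le_one hD]; linarith
    have hz := h (seg_pt_C1 (U L i a) p _ hs0 hs1)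
    have hz2 := poly_low_C1 L m i _ hz (by
      have e1 : (U L i a).1 + (2 * (L : ℝ) ^ 2 - q L a) / (cc L i - q L a - p.1) *
          (p.1 - (U L i a).1) - cc L i = -(2 * (L : ℝ) ^ 2) := by
        unfold U
        simp only
        field_simp
        ring
      simp only
      rw [e1, abs_neg, abs_of_pos (by positivity)])
    exact key _ _ hN hD hND hz2

end Pool.Agent.H142.FS
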