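import Pool.Agent.H142.FS.Defs

set_option autoImplicit false

open Set Filter Topology

namespace Pool.Agent.H142.FS

theorem pos_U_C2 (L i j : ℕ) (hj : j ≤ L) : pos L ((2 * L + 2) * i + j) = U L i j := by
  have h1 : ((2 * L + 2) * i + j) % (2 * L + 2) = j := by
    rw [Nat.mul_add_mod, Nat.mod_eq_of_lt (by omega)]
  have h2 : ((2 * L + 2) * i + j) / (2 * L + 2) = i := by
    rw [Nat.mul_add_div (by omega), Nat.div_eq_of_lt (by omega), Nat.add_zero]
  unfold pos
  rw [h1, h2, if_pos hj]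

theorem pos_W_C2 (L i j : ℕ) (hj : j ≤ L) :
    pos L ((2 * L + 2) * i + (2 * L + 1 - j)) = W L i j := by
  have h1 : ((2 * L + 2) * i + (2 * L + 1 - j)) % (2 * L + 2) = 2 * L + 1 - j := by
    rw [Nat.mul_add_mod, Nat.mod_eq_of_lt (by omega)]
  have h2 : ((2 * L + 2) * i + (2 * L + 1 - j)) / (2 * L + 2) = i := by
    rw [Nat.mul_add_div (by omega), Nat.div_eq_of_lt (by omega), Nat.add_zero]
  unfold pos
  rw [h1, h2, if_neg (by omega)]
  congr 1
  omega

theorem mem_V (L m : ℕ) (p : Pt) : p ∈ V L m ↔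
    (∃ i j, 1 ≤ i ∧ i ≤ m ∧ j ≤ L ∧ (p = U L i j ∨ p = W L i j)) ∨
    p = W L 0 0 ∨ p = U L (m + 1) 0 ∨ p = (lft L, -1) ∨ p = (rgt L m, -1) := by
  have hcomm : m * (2 * L + 2) = (2 * L + 2) * m := Nat.mul_comm _ _
  have hsucc : (2 * L + 2) * (m + 1) = (2 * L + 2) * m + (2 * L + 2) := Nat.mul_succ _ _
  unfold V nv
  simp only [Finset.mem_image, Finset.mem_range]
  constructor
  · rintro ⟨k, hk, rfl⟩
    unfold vert
    by_cases h1 : k ≤ m * (2 * L + 2) + 1
    · rw [if_pos h1]
      have hr := Nat.div_add_mod (k + (2 * L + 1)) (2 * L + 2)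
      have hj := Nat.mod_lt (k + (2 * L + 1)) (show 0 < 2 * L + 2 by omega)
      set i := (k + (2 * L + 1)) / (2 * L + 2) with hi
      set j := (k + (2 * L + 1)) % (2 * L + 2) with hjd
      rw [← hr]
      rcases Nat.eq_zero_or_pos i with h0 | h0
      · have hjj : j = 2 * L + 1 - 0 := by rw [h0] at hr; omega
        rw [h0, hjj, pos_W_C2 L 0 0 (by omega)]
        exact Or.inr (Or.inl rfl)
      · by_cases him : i ≤ m
        · left
          by_cases hjL : j ≤ L
          · exact ⟨i, j, h0, him, hjL, Or.inl (pos_U_C2 L i j hjL)⟩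
          · refine ⟨i, 2 * L + 1 - j, h0, him, by omega, Or.inr ?_⟩
            have e : j = 2 * L + 1 - (2 * L + 1 - j) := by omega
            conv_lhs => rw [e]
            exact pos_W_C2 L i (2 * L + 1 - j) (by omega)
        · have h3 : (2 * L + 2) * (m + 1) ≤ (2 * L + 2) * i := Nat.mul_le_mul_left _ (by omega)
          have h4 : i = m + 1 := by
            by_contra hne
            have h5 : (2 * L + 2) * (m + 2) ≤ (2 * L + 2) * i := Nat.mul_le_mul_left _ (by omega)
            have h6 : (2 * L + 2) * (m + 2) = (2 * L + 2) * (m + 1) + (2 * L + 2) := Nat.mul_succ _ _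
            omega
          have h5 : j = 0 := by rw [h4] at hr; omega
          rw [h4, h5, pos_U_C2 L (m + 1) 0 (by omega)]
          exact Or.inr (Or.inr (Or.inl rfl))
    · rw [if_neg h1]
      by_cases h2 : k = m * (2 * L + 2) + 2
      · rw [if_pos h2]; exact Or.inr (Or.inr (Or.inr (Or.inr rfl)))
      · rw [if_neg h2, if_pos (by omega)]
        exact Or.inr (Or.inr (Or.inr (Or.inl rfl)))
  · rintro (⟨i, j, hi1, hi2, hj, h | h⟩ | h | h | h | h)
    · have hle : (2 * L + 2) * 1 ≤ (2 * L + 2) * i := Nat.mul_le_mul_left _ hi1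
      have hle2 : (2 * L + 2) * i ≤ (2 * L + 2) * m := Nat.mul_le_mul_left _ hi2
      refine ⟨(2 * L + 2) * i + j - (2 * L + 1), by omega, ?_⟩
      unfold vert
      rw [if_pos (by omega), Nat.sub_add_cancel (by omega), pos_U_C2 L i j hj, h]
    · have hle : (2 * L + 2) * 1 ≤ (2 * L + 2) * i := Nat.mul_le_mul_left _ hi1
      have hle2 : (2 * L + 2) * i ≤ (2 * L + 2) * m := Nat.mul_le_mul_left _ hi2
      refine ⟨(2 * L + 2) * i + (2 * L + 1 - j) - (2 * L + 1), by omega, ?_⟩
      unfold vert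
      rw [if_pos (by omega), Nat.sub_add_cancel (by omega), pos_W_C2 L i j hj, h]
    · refine ⟨0, by omega, ?_⟩
      unfold vert
      rw [if_pos (by omega)]
      have := pos_W_C2 L 0 0 (by omega)
      simp only [Nat.mul_zero, Nat.zero_add, Nat.sub_zero] at this
      rw [Nat.zero_add, this, h]
    · refine ⟨m * (2 * L + 2) + 1, by omega, ?_⟩
      unfold vert
      rw [if_pos (by omega)]
      have := pos_U_C2 L (m + 1) 0 (by omega)
      rw [show m * (2 * L + 2) + 1 + (2 * L + 1) = (2 * L + 2) * (m + 1) + 0 by omega, this, h]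
    · refine ⟨m * (2 * L + 2) + 3, by omega, ?_⟩
      unfold vert
      rw [if_neg (by omega), if_neg (by omega), if_pos rfl, h]
    · refine ⟨m * (2 * L + 2) + 2, by omega, ?_⟩
      unfold vert
      rw [if_neg (by omega), if_pos rfl, h]

end Pool.Agent.H142.FS
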