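import Pool.Agent.H142.FS.Defs
import Pool.Agent.H142.FS.C2

set_option autoImplicit false

open Set Filter Topology

namespace Pool.Agent.H142.FS

theorem Lsq_C3 {L : ℕ} (hL : 1 ≤ L) : (0 : ℝ) < (L : ℝ) ^ 2 := by
  have : (1 : ℝ) ≤ L := by exact_mod_cast hL
  positivity

theorem cc_close_C3 {L i j : ℕ} (hL : 1 ≤ L) (h : |cc L i - cc L j| < 16 * (L : ℝ) ^ 2) : i = j := by
  have h0 := Lsq_C3 hL
  have h1 : cc L i - cc L j = 16 * (L : ℝ) ^ 2 * ((i : ℝ) - j) := by unfold cc; ring
  rw [h1, abs_mul, abs_of_pos (by positivity : (0 : ℝ) < 16 * (L : ℝ) ^ 2)] at h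
  have h2 : |(i : ℝ) - j| < 1 := by
    by_contra hc
    push Not at hc
    nlinarith
  have h3 : |((i : ℤ) - (j : ℤ))| < 1 := by
    have : ((|((i : ℤ) - (j : ℤ))| : ℤ) : ℝ) < 1 := by
      push_cast
      exact h2
    exact_mod_cast this
  have h4 := Int.abs_lt_one_iff.mp h3
  omega

theorem q_le_C3 {L j : ℕ} (hj : j ≤ L) : q L j ≤ 2 * (L : ℝ) ^ 2 := by
  unfold q
  have h1 : (j : ℝ) ≤ L := by exact_mod_cast hj
  have h2 : (0 : ℝ) ≤ j := Nat.cast_nonneg j
  nlinarith

theorem q_nonneg_C3 (L j : ℕ) : 0 ≤ q L j := by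
  unfold q
  positivity

theorem near_left_C3 {L i : ℕ} (hL : 1 ≤ L) (hi : 1 ≤ i) {x y : ℝ} (hx : x = 2 * (L : ℝ) ^ 2)
    (hn : Near L i (x, y)) : False := by
  have h0 := Lsq_C3 hL
  unfold Near at hn
  have h1 := (abs_le.mp hn).1
  simp only [hx, cc] at h1
  have h2 : (1 : ℝ) ≤ i := by exact_mod_cast hi
  nlinarith

theorem near_right_C3 {L m i : ℕ} (hL : 1 ≤ L) (hi : i ≤ m) {x y : ℝ}
    (hx : x = cc L (m + 1) - 2 * (L : ℝ) ^ 2)
    (hn : Near L i (x, y)) : False := by
  have h0 := Lsq_C3 hL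
  unfold Near at hn
  have h1 := (abs_le.mp hn).2
  simp only [hx, cc] at h1
  have h2 : (i : ℝ) ≤ m := by exact_mod_cast hi
  push_cast at h1
  nlinarith

theorem V_near (L m i : ℕ) (hL : 1 ≤ L) (hi : 1 ≤ i) (him : i ≤ m) (p : Pt) (hp : p ∈ V L m)
    (hn : Near L i p) : ∃ j ≤ L, p = U L i j ∨ p = W L i j := by
  have h0 := Lsq_C3 hL
  rw [mem_V] at hp
  rcases hp with ⟨i', j, h1, h2, h3, h4⟩ | h | h | h | h
  · have hii : i = i' := by
      apply cc_close_C3 hL
      have hq := q_le_C3 h3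
      have hq0 := q_nonneg_C3 L j
      unfold Near at hn
      rcases h4 with h4 | h4
      · rw [h4] at hn
        simp only [U] at hn
        rw [abs_le] at hn
        rw [abs_lt]
        constructor <;> linarith
      · rw [h4] at hn
        simp only [W] at hn
        rw [abs_le] at hn
        rw [abs_lt]
        constructor <;> linarith
    subst hii
    exact ⟨j, h3, h4⟩
  · exfalso
    rw [h] at hn
    refine near_left_C3 hL hi ?_ hn
    unfold cc q
    push_cast
    ring
  · exfalso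
    rw [h] at hn
    refine near_right_C3 hL him ?_ hn
    unfold q
    push_cast
    ring
  · exfalso
    rw [h] at hn
    exact near_left_C3 hL hi rfl hn
  · exfalso
    rw [h] at hn
    exact near_right_C3 hL him rfl hn

theorem good_card (L m : ℕ) (hL : 1 ≤ L) (X : Finset Pt) :
    ∃ G ⊆ Finset.Icc 1 m, m ≤ G.card + X.card ∧ Far L G X := by
  classical
  have h0 := Lsq_C3 hL
  refine ⟨(Finset.Icc 1 m).filter (fun i => ∀ x ∈ X, ¬ Near L i x), Finset.filter_subset _ _,
    ?_, ?_⟩
  · have h1 := Finset.card_filter_add_card_filter_not (s := Finset.Icc 1 m)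
      (fun i => ∀ x ∈ X, ¬ Near L i x)
    rw [Nat.card_Icc, Nat.add_sub_cancel] at h1
    have h2 : ((Finset.Icc 1 m).filter (fun i => ¬ ∀ x ∈ X, ¬ Near L i x)).card ≤ X.card := by
      have hex : ∀ i : ℕ, ∃ x : Pt, (¬ ∀ x ∈ X, ¬ Near L i x) → x ∈ X ∧ Near L i x := by
        intro i
        by_cases h : ∃ x ∈ X, Near L i x
        · obtain ⟨x, hx, hn⟩ := h
          exact ⟨x, fun _ => ⟨hx, hn⟩⟩
        · refine ⟨(0, 0), fun hh => ?_⟩
          push Not at hh
          exact absurd hh h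
      choose f hf using hex
      refine Finset.card_le_card_of_injOn f ?_ ?_
      · intro i hi
        have hi' := (Finset.mem_filter.mp (Finset.mem_coe.mp hi)).2
        exact Finset.mem_coe.mpr (hf i hi').1
      · intro i hi j hj hij
        have hi' := (hf i (Finset.mem_filter.mp (Finset.mem_coe.mp hi)).2).2
        have hj' := (hf j (Finset.mem_filter.mp (Finset.mem_coe.mp hj)).2).2
        rw [← hij] at hj'
        apply cc_close_C3 hL
        unfold Near at hi' hj'
        rw [abs_le] at hi' hj'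
        rw [abs_lt]
        constructor <;> linarith [hi'.1, hi'.2, hj'.1, hj'.2]
    omega
  · intro i hi x hx
    exact (Finset.mem_filter.mp hi).2 x hx

end Pool.Agent.H142.FS
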