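import Pool.Agent.H142.FS.Defs

set_option autoImplicit false

open Set Filter Topology

namespace Pool.Agent.H142.FS

theorem prod_nonneg_C4 (j e : ℕ) : 0 ≤ ((j : ℝ) - e) * ((j : ℝ) - e - 1) := by
  rcases Nat.lt_or_ge e j with h | h
  · have h1 : (e : ℝ) + 1 ≤ j := by exact_mod_cast h
    exact mul_nonneg (by linarith) (by linarith)
  · have h1 : (j : ℝ) ≤ e := by exact_mod_cast h
    exact mul_nonneg_of_nonpos_of_nonpos (by linarith) (by linarith)

theorem core_C4 (L e j k : ℕ) (hjk : j + 2 ≤ k) :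
    0 < fl L e (-((q L j + q L k) / 2)) (((j : ℝ) + k) / 2) := by
  have h0 : fl L e (-((q L j + q L k) / 2)) (((j : ℝ) + k) / 2) =
      (((j : ℝ) - e) * ((j : ℝ) - e - 1) + ((k : ℝ) - e) * ((k : ℝ) - e - 1)) / 2 := by
    unfold fl q
    ring
  rw [h0]
  have hj := prod_nonneg_C4 j e
  have hk := prod_nonneg_C4 k e
  rcases Nat.lt_or_ge (e + 1) k with h | h
  · have h1 : (e : ℝ) + 2 ≤ k := by exact_mod_cast h
    have h2 : 0 < ((k : ℝ) - e) * ((k : ℝ) - e - 1) := mul_pos (by linarith) (by linarith)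
    linarith
  · have h1 : (j : ℝ) + 1 ≤ e := by
      have : j + 1 ≤ e := by omega
      exact_mod_cast this
    have h2 : 0 < ((j : ℝ) - e) * ((j : ℝ) - e - 1) :=
      mul_pos_of_neg_of_neg (by linarith) (by linarith)
    linarith

theorem bound_C4 (L e : ℕ) (he : e < L) (x y : ℝ) (hy : 0 ≤ y) (h : fl L e x y ≤ 0) :
    -(2 * (L : ℝ) ^ 2) ≤ x := by
  have he' : (e : ℝ) + 1 ≤ L := by exact_mod_cast he
  have he0 : (0 : ℝ) ≤ e := Nat.cast_nonneg e
  unfold fl q at h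
  nlinarith [mul_nonneg (show (0 : ℝ) ≤ 2 * ((L : ℝ) - e) - 1 by linarith) hy]

theorem q_bounds_C4 (L j : ℕ) (hj : j ≤ L) : (L : ℝ) ^ 2 ≤ q L j ∧ q L j ≤ 2 * (L : ℝ) ^ 2 := by
  have hj' : (j : ℝ) ≤ L := by exact_mod_cast hj
  have hj0 : (0 : ℝ) ≤ j := Nat.cast_nonneg j
  unfold q
  constructor
  · nlinarith [sq_nonneg ((L : ℝ) - j)]
  · nlinarith

theorem mid_C4 (L m i j k : ℕ) (hjk : j + 2 ≤ k) (hk : k ≤ L) (s : ℝ) (hs : s = 1 ∨ s = -1) :
    ((cc L i - s * ((q L j + q L k) / 2), ((j : ℝ) + k) / 2) : Pt) ∉ Poly L m := by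
  intro hmem
  have hy1 : (1 : ℝ) ≤ ((j : ℝ) + k) / 2 := by
    have h1 : (j : ℝ) + 2 ≤ k := by exact_mod_cast hjk
    have h2 : (0 : ℝ) ≤ j := Nat.cast_nonneg j
    linarith
  have hL : (2 : ℝ) ≤ L := by
    have : 2 ≤ L := by omega
    exact_mod_cast this
  have hqj := q_bounds_C4 L j (by omega)
  have hqk := q_bounds_C4 L k hk
  have hL2 : 0 < (L : ℝ) ^ 2 := by positivity
  rcases hmem with hmem | ⟨i', _, _, hmem⟩
  · have h2 := hmem.2.2.2
    simp only at h2
    linarith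
  · obtain ⟨hy0, _, ⟨e1, he1, hf1⟩, ⟨e2, he2, hf2⟩⟩ := hmem
    simp only at hy0 hf1 hf2
    have hb1 := bound_C4 L e1 he1 _ _ hy0 hf1
    have hb2 := bound_C4 L e2 he2 _ _ hy0 hf2
    rcases Nat.lt_trichotomy i i' with hlt | heq | hlt
    · have h3 : (i : ℝ) + 1 ≤ i' := by exact_mod_cast hlt
      have h4 : cc L i + 16 * (L : ℝ) ^ 2 ≤ cc L i' := by
        unfold cc
        nlinarith
      rcases hs with rfl | rfl <;> nlinarith
    · subst heq
      rcases hs with rfl | rfl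
      · have h5 := core_C4 L e1 j k hjk
        have e3 : cc L i - 1 * ((q L j + q L k) / 2) - cc L i = -((q L j + q L k) / 2) := by ring
        rw [e3] at hf1
        linarith
      · have h5 := core_C4 L e2 j k hjk
        have e3 : -(cc L i - -1 * ((q L j + q L k) / 2) - cc L i) =
            -((q L j + q L k) / 2) := by ring
        rw [e3] at hf2
        linarith
    · have h3 : (i' : ℝ) + 1 ≤ i := by exact_mod_cast hlt
      have h4 : cc L i' + 16 * (L : ℝ) ^ 2 ≤ cc L i := by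
        unfold cc
        nlinarith
      rcases hs with rfl | rfl <;> nlinarith

theorem UU_out (L m i j k : ℕ) (hi : 1 ≤ i) (him : i ≤ m) (hjk : j + 2 ≤ k) (hk : k ≤ L) :
    ¬ segment ℝ (U L i j) (U L i k) ⊆ Poly L m := by
  intro hsub
  refine mid_C4 L m i j k hjk hk 1 (Or.inl rfl) (hsub ?_)
  refine ⟨1 / 2, 1 / 2, by norm_num, by norm_num, by norm_num, ?_⟩
  unfold U
  ext
  · simp only [Prod.fst_add, Prod.smul_fst, smul_eq_mul]
    ring
  · simp only [Prod.snd_add, Prod.smul_snd, smul_eq_mul]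
    ring

theorem WW_out (L m i j k : ℕ) (hi : 1 ≤ i) (him : i ≤ m) (hjk : j + 2 ≤ k) (hk : k ≤ L) :
    ¬ segment ℝ (W L i j) (W L i k) ⊆ Poly L m := by
  intro hsub
  refine mid_C4 L m i j k hjk hk (-1) (Or.inr rfl) (hsub ?_)
  refine ⟨1 / 2, 1 / 2, by norm_num, by norm_num, by norm_num, ?_⟩
  unfold W
  ext
  · simp only [Prod.fst_add, Prod.smul_fst, smul_eq_mul]
    ring
  · simp only [Prod.snd_add, Prod.smul_snd, smul_eq_mul]
    ring

end Pool.Agent.H142.FS
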