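import Pool.Agent.H142.FS.Defs
import Pool.Agent.H142.FS.A1

set_option autoImplicit false

open Set Filter Topology

namespace Pool.Agent.H142.FS

theorem q_lo_C5 (L j : ℕ) : (L : ℝ) ^ 2 ≤ q L j := by
  unfold q
  nlinarith [sq_nonneg ((L : ℝ) - j)]

theorem q_hi_C5 (L j : ℕ) (hj : j ≤ L) : q L j ≤ 2 * (L : ℝ) ^ 2 := by
  unfold q
  have h1 : (j : ℝ) ≤ L := by exact_mod_cast hj
  have h2 : (0 : ℝ) ≤ j := Nat.cast_nonneg j
  nlinarith

theorem UU_C5 {L i i' a b : ℕ} (hL : 1 ≤ L) (h : U L i a = U L i' b) : i = i' ∧ a = b := by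
  unfold U at h
  rw [Prod.mk.injEq] at h
  obtain ⟨h1, h2⟩ := h
  have hab : a = b := by exact_mod_cast h2
  subst hab
  refine ⟨?_, rfl⟩
  unfold cc at h1
  have hL' : (0 : ℝ) < 16 * (L : ℝ) ^ 2 := by
    have : (0 : ℝ) < L := by exact_mod_cast hL
    positivity
  have h3 : 16 * (L : ℝ) ^ 2 * i = 16 * (L : ℝ) ^ 2 * i' := by linarith
  have h4 := mul_left_cancel₀ hL'.ne' h3
  exact_mod_cast h4

theorem WW_C5 {L i i' a b : ℕ} (h : W L i a = W L i' b) : a = b := by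
  unfold W at h
  rw [Prod.mk.injEq] at h
  exact_mod_cast h.2

theorem UW_C5 {L i i' a b : ℕ} (hL : 1 ≤ L) (hb : b ≤ L) : U L i a ≠ W L i' b := by
  intro h
  unfold U W at h
  rw [Prod.mk.injEq] at h
  obtain ⟨h1, h2⟩ := h
  have hab : a = b := by exact_mod_cast h2
  subst hab
  have h3 := q_lo_C5 L a
  have h4 := q_hi_C5 L a hb
  unfold cc at h1
  have hL' : (0 : ℝ) < (L : ℝ) ^ 2 := by
    have : (0 : ℝ) < L := by exact_mod_cast hL
    positivity
  rcases Nat.lt_or_ge i' i with h5 | h5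
  · have h6 : (i' : ℝ) + 1 ≤ i := by exact_mod_cast h5
    nlinarith
  · have h6 : (i : ℝ) ≤ i' := by exact_mod_cast h5
    nlinarith

theorem orient_UUW (L i a b : ℕ) (ha : a < L) (hb : b ≤ L) :
    orient (U L i a) (U L i (a + 1)) (W L i b) < 0 := by
  unfold orient U W q
  push_cast
  have h1 : (a : ℝ) + 1 ≤ L := by exact_mod_cast ha
  have h2 : (b : ℝ) ≤ L := by exact_mod_cast hb
  have h3 : (0 : ℝ) ≤ a := Nat.cast_nonneg a
  have h4 : (0 : ℝ) ≤ b := Nat.cast_nonneg b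
  obtain ⟨x, hx⟩ : ∃ x : ℝ, x = (L : ℝ) - a := ⟨_, rfl⟩
  obtain ⟨y, hy⟩ : ∃ y : ℝ, y = (L : ℝ) - b := ⟨_, rfl⟩
  have ea : (a : ℝ) = L - x := by linarith
  have eb : (b : ℝ) = L - y := by linarith
  rw [ea, eb]
  have hx1 : 1 ≤ x := by linarith
  have hxL : x ≤ L := by linarith
  have hy0 : 0 ≤ y := by linarith
  have hyL : y ≤ L := by linarith
  have hL1 : (1 : ℝ) ≤ L := by linarith
  have e1 : x ^ 2 ≤ (L : ℝ) ^ 2 := by nlinarith
  have e2 : (L : ℝ) ≤ (L : ℝ) ^ 2 := by nlinarith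
  nlinarith [mul_nonneg (by linarith : 0 ≤ x) hy0, sq_nonneg y]

theorem T1_near (L i a : ℕ) (ha : a < L) (p : Pt) (hp : p ∈ hull {U L i a, U L i (a + 1), W L i 0}) :
    Near L i p := by
  have h0 : (0 : ℝ) ≤ (L : ℝ) ^ 2 := sq_nonneg _
  have q1 := q_lo_C5 L a
  have q2 := q_hi_C5 L a ha.le
  have q3 := q_lo_C5 L (a + 1)
  have q4 := q_hi_C5 L (a + 1) ha
  have q5 := q_lo_C5 L 0
  have q6 := q_hi_C5 L 0 (Nat.zero_le L)
  have h1 : 1 * p.1 + 0 * p.2 ≤ cc L i + 2 * (L : ℝ) ^ 2 := by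
    refine hull_le 1 0 _ _ ?_ hp
    intro v hv
    rw [Finset.mem_insert, Finset.mem_insert, Finset.mem_singleton] at hv
    rcases hv with rfl | rfl | rfl
    · simp only [U]
      linarith
    · simp only [U]
      linarith
    · simp only [W]
      linarith
  have h2 : (-1) * p.1 + 0 * p.2 ≤ -cc L i + 2 * (L : ℝ) ^ 2 := by
    refine hull_le (-1) 0 _ _ ?_ hp
    intro v hv
    rw [Finset.mem_insert, Finset.mem_insert, Finset.mem_singleton] at hv
    rcases hv with rfl | rfl | rfl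
    · simp only [U]
      linarith
    · simp only [U]
      linarith
    · simp only [W]
      linarith
  unfold Near
  rw [abs_le]
  constructor <;> linarith

theorem UUW_inj (L i a f i' a' f' : ℕ) (hL : 1 ≤ L) (ha : a < L) (ha' : a' < L) (hf : f ≤ L)
    (hf' : f' ≤ L)
    (h : ({U L i a, U L i (a + 1), W L i f} : Finset Pt) = {U L i' a', U L i' (a' + 1), W L i' f'}) :
    i = i' ∧ a = a' ∧ f = f' := by
  have key : ∀ b, U L i b ∈ ({U L i a, U L i (a + 1), W L i f} : Finset Pt) →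
      i = i' ∧ (b = a' ∨ b = a' + 1) := by
    intro b hb
    rw [h, Finset.mem_insert, Finset.mem_insert, Finset.mem_singleton] at hb
    rcases hb with h1 | h1 | h1
    · exact ⟨(UU_C5 hL h1).1, Or.inl (UU_C5 hL h1).2⟩
    · exact ⟨(UU_C5 hL h1).1, Or.inr (UU_C5 hL h1).2⟩
    · exact absurd h1 (UW_C5 hL hf')
  have h1 := key a (by simp)
  have h2 := key (a + 1) (by simp)
  have h3 : W L i f ∈ ({U L i a, U L i (a + 1), W L i f} : Finset Pt) := by simp
  rw [h, Finset.mem_insert, Finset.mem_insert, Finset.mem_singleton] at h3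
  refine ⟨h1.1, by omega, ?_⟩
  rcases h3 with h4 | h4 | h4
  · exact absurd h4.symm (UW_C5 hL hf)
  · exact absurd h4.symm (UW_C5 hL hf)
  · exact WW_C5 h4

end Pool.Agent.H142.FS
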