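import Pool.Agent.H142.FS.Defs
import Pool.Agent.H142.FS.A1
import Pool.Agent.H142.FS.C1
import Pool.Agent.H142.FS.C2
import Pool.Agent.H142.FS.C3
import Pool.Agent.H142.FS.C4

set_option autoImplicit false

open Set Filter Topology

namespace Pool.Agent.H142.FS

theorem isTri_card_C6 (t : Finset Pt) (h : IsTri t) : t.card = 3 := by
  obtain ⟨a, b, c, ho, rfl⟩ := h
  have hab : a ≠ b := by
    rintro rfl
    apply ho
    unfold orient
    ring
  have hac : a ≠ c := by
    rintro rfl
    apply ho
    unfold orient
    ring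
  have hbc : b ≠ c := by
    rintro rfl
    apply ho
    unfold orient
    ring
  exact Finset.card_eq_three.mpr ⟨a, b, c, hab, hac, hbc, rfl⟩

theorem apex (L m i a : ℕ) (hL : 1 ≤ L) (hi : 1 ≤ i) (him : i ≤ m) (ha : a < L) (X : Finset Pt)
    (hX : ∀ x ∈ X, ¬ Near L i x) (p : Pt) (h : IsTri {U L i a, U L i (a + 1), p})
    (hP : hull {U L i a, U L i (a + 1), p} ⊆ Poly L m) (hp : p ∈ V L m ∪ X) :
    ∃ b ≤ L, p = W L i b := by
  have hcv : Convex ℝ (hull {U L i a, U L i (a + 1), p}) := convex_convexHull ℝ _
  have hm1 : U L i a ∈ hull {U L i a, U L i (a + 1), p} := subset_convexHull ℝ _ (by simp)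
  have hm2 : U L i (a + 1) ∈ hull {U L i a, U L i (a + 1), p} := subset_convexHull ℝ _ (by simp)
  have hm3 : p ∈ hull {U L i a, U L i (a + 1), p} := subset_convexHull ℝ _ (by simp)
  have hs1 : segment ℝ (U L i a) p ⊆ Poly L m := (hcv.segment_subset hm1 hm3).trans hP
  have hs2 : segment ℝ (U L i (a + 1)) p ⊆ Poly L m := (hcv.segment_subset hm2 hm3).trans hP
  have hnear : Near L i p := vis_near L m i (a + 1) hL hi him (by omega) (by omega) p hs2
  have hpV : p ∈ V L m := by
    rcases Finset.mem_union.mp hp with h1 | h1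
    · exact h1
    · exact absurd hnear (hX p h1)
  obtain ⟨j, hj, hpj⟩ := V_near L m i hL hi him p hpV hnear
  rcases hpj with rfl | rfl
  · exfalso
    have hcard := isTri_card_C6 _ h
    have hja : j ≠ a := by
      rintro rfl
      have h1 : ({U L i j, U L i (j + 1), U L i j} : Finset Pt) ⊆ {U L i j, U L i (j + 1)} := by
        intro x hx
        simp only [Finset.mem_insert, Finset.mem_singleton] at hx ⊢
        tauto
      have h2 := Finset.card_le_card h1
      have h3 : ({U L i j, U L i (j + 1)} : Finset Pt).card ≤ 2 := Finset.card_le_two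
      omega
    have hja1 : j ≠ a + 1 := by
      rintro rfl
      have h1 : ({U L i a, U L i (a + 1), U L i (a + 1)} : Finset Pt) ⊆ {U L i a, U L i (a + 1)} := by
        intro x hx
        simp only [Finset.mem_insert, Finset.mem_singleton] at hx ⊢
        tauto
      have h2 := Finset.card_le_card h1
      have h3 : ({U L i a, U L i (a + 1)} : Finset Pt).card ≤ 2 := Finset.card_le_two
      omega
    rcases lt_or_gt_of_ne hja with hlt | hgt
    · apply UU_out L m i j (a + 1) hi him (by omega) (by omega)
      rw [segment_symm]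
      exact hs2
    · exact UU_out L m i a j hi him (by omega) hj hs1
  · exact ⟨j, hj, rfl⟩

end Pool.Agent.H142.FS
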