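import Pool.Agent.H142.FS.Defs
import Pool.Agent.H142.FS.A1
import Pool.Agent.H142.FS.A3
import Pool.Agent.H142.FS.B1
import Pool.Agent.H142.FS.C1
import Pool.Agent.H142.FS.C2
import Pool.Agent.H142.FS.C3
import Pool.Agent.H142.FS.C4
import Pool.Agent.H142.FS.C5
import Pool.Agent.H142.FS.C6

set_option autoImplicit false

open Set Filter Topology

namespace Pool.Agent.H142.FS

theorem perm3_D1 (a b c x y z : Pt) (h : ({a, b, c} : Finset Pt) = {x, y, z}) (hxy : x ≠ y)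
    (hxz : x ≠ z) (hyz : y ≠ z) :
    (c = z ∧ ((a = x ∧ b = y) ∨ (a = y ∧ b = x))) ∨
    (a = z ∧ ((b = x ∧ c = y) ∨ (b = y ∧ c = x))) ∨
    (b = z ∧ ((a = x ∧ c = y) ∨ (a = y ∧ c = x))) := by
  have ha : a ∈ ({x, y, z} : Finset Pt) := by rw [← h]; simp
  have hb : b ∈ ({x, y, z} : Finset Pt) := by rw [← h]; simp
  have hc : c ∈ ({x, y, z} : Finset Pt) := by rw [← h]; simp
  have hx : x ∈ ({a, b, c} : Finset Pt) := by rw [h]; simp
  have hy : y ∈ ({a, b, c} : Finset Pt) := by rw [h]; simp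
  have hz : z ∈ ({a, b, c} : Finset Pt) := by rw [h]; simp
  simp only [Finset.mem_insert, Finset.mem_singleton] at ha hb hc hx hy hz
  clear h
  grind

theorem ne_D1 (a b c : Pt) (h : orient a b c < 0) : a ≠ b ∧ a ≠ c ∧ b ≠ c := by
  refine ⟨?_, ?_, ?_⟩
  · rintro rfl
    unfold orient at h
    linarith
  · rintro rfl
    unfold orient at h
    linarith
  · rintro rfl
    unfold orient at h
    linarith

theorem orient_swap_D1 (a b c : Pt) : orient b a c = - orient a b c := by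
  unfold orient
  ring

theorem seg_hull_D1 (t : Finset Pt) (x y : Pt) (hx : x ∈ t) (hy : y ∈ t) :
    segment ℝ x y ⊆ hull t := by
  refine (convex_convexHull ℝ (t : Set Pt)).segment_subset ?_ ?_
  · exact subset_convexHull ℝ _ hx
  · exact subset_convexHull ℝ _ hy

/-- the apex over an edge of the left chain of a triangle which satisfies the invariant -/
theorem apex_D1 (L m i e : ℕ) (hL : 1 ≤ L) (hi : 1 ≤ i) (him : i ≤ m) (he : e < L) (X : Finset Pt)
    (hX : ∀ x ∈ X, ¬ Near L i x) (T : Finset (Finset Pt)) (hT : Inv (Poly L m) (V L m ∪ X) T)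
    (p : Pt) (t : Finset Pt) (ht : t ∈ T) (hte : t = {U L i e, U L i (e + 1), p}) :
    ∃ b ≤ L, p = W L i b := by
  obtain ⟨h1, h2, h3⟩ := hT t ht
  rw [hte] at h1 h2 h3
  exact apex L m i e hL hi him he X hX p h1 h2 (h3 (by simp))

theorem core_D1 (L m : ℕ) (hL : 1 ≤ L) (X : Finset Pt) (T T' : Finset (Finset Pt))
    (hT : Inv (Poly L m) (V L m ∪ X) T) (hT' : Inv (Poly L m) (V L m ∪ X) T') (i : ℕ)
    (hi : 1 ≤ i) (him : i ≤ m) (hX : ∀ x ∈ X, ¬ Near L i x) (e : ℕ) (he : e < L) (f : ℕ)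
    (hf : f ≤ L) (a b c d : Pt) (h2 : ({a, b, d} : Finset Pt) ∈ T)
    (hx : (openSegment ℝ a b ∩ openSegment ℝ c d).Nonempty)
    (h3 : ({a, c, d} : Finset Pt) ∈ T') (h4 : ({b, c, d} : Finset Pt) ∈ T')
    (hc : ({a, b, c} : Finset Pt) = {U L i e, U L i (e + 1), W L i f}) :
    ∃ g ≤ L, ({U L i e, U L i (e + 1), W L i g} : Finset Pt) ∈ T' ∧ g ≤ f + 1 := by
  have ho := orient_UUW L i e f he hf
  obtain ⟨n1, n2, n3⟩ := ne_D1 _ _ _ ho
  have hlast : ∀ g : ℕ, g ≤ L → W L i f ∈ ({a, b, d} : Finset Pt) →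
      W L i g ∈ ({a, b, d} : Finset Pt) → g ≤ f + 1 := by
    intro g hg h5 h6
    by_contra h7
    have h8 := seg_hull_D1 _ _ _ h5 h6
    exact WW_out L m i f g hi him (by omega) hg (h8.trans (hT _ h2).2.1)
  rcases perm3_D1 a b c _ _ _ hc n1 n2 n3 with ⟨hcW, hab⟩ | ⟨haW, hbc⟩ | ⟨hbW, hac⟩
  · exfalso
    rcases hab with ⟨ha, hb⟩ | ⟨ha, hb⟩
    · subst ha; subst hb; subst hcW
      obtain ⟨b', hb', hd⟩ := apex_D1 L m i e hL hi him he X hX T hT d _ h2 rfl
      subst hd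
      exact cross_orient _ _ _ _ hx ho (orient_UUW L i e b' he hb')
    · subst ha; subst hb; subst hcW
      obtain ⟨b', hb', hd⟩ := apex_D1 L m i e hL hi him he X hX T hT d _ h2
        (Finset.insert_comm _ _ _)
      subst hd
      rw [openSegment_symm ℝ (U L i (e + 1)) (U L i e)] at hx
      exact cross_orient _ _ _ _ hx ho (orient_UUW L i e b' he hb')
  · rcases hbc with ⟨hb, hc'⟩ | ⟨hb, hc'⟩
    · obtain ⟨g, hg, hd⟩ := apex_D1 L m i e hL hi him he X hX T' hT' d _ h4 (by rw [hb, hc'])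
      refine ⟨g, hg, ?_, ?_⟩
      · rw [hb, hc', hd] at h4
        exact h4
      · refine hlast g hg ?_ ?_
        · rw [haW]; simp
        · rw [hd]; simp
    · obtain ⟨g, hg, hd⟩ := apex_D1 L m i e hL hi him he X hX T' hT' d _ h4
        (by rw [hb, hc']; exact Finset.insert_comm _ _ _)
      refine ⟨g, hg, ?_, ?_⟩
      · rw [hb, hc', hd, Finset.insert_comm] at h4
        exact h4
      · refine hlast g hg ?_ ?_
        · rw [haW]; simp
        · rw [hd]; simp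
  · rcases hac with ⟨ha, hc'⟩ | ⟨ha, hc'⟩
    · obtain ⟨g, hg, hd⟩ := apex_D1 L m i e hL hi him he X hX T' hT' d _ h3 (by rw [ha, hc'])
      refine ⟨g, hg, ?_, ?_⟩
      · rw [ha, hc', hd] at h3
        exact h3
      · refine hlast g hg ?_ ?_
        · rw [hbW]; simp
        · rw [hd]; simp
    · obtain ⟨g, hg, hd⟩ := apex_D1 L m i e hL hi him he X hX T' hT' d _ h3
        (by rw [ha, hc']; exact Finset.insert_comm _ _ _)
      refine ⟨g, hg, ?_, ?_⟩
      · rw [ha, hc', hd, Finset.insert_comm] at h3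
        exact h3
      · refine hlast g hg ?_ ?_
        · rw [hbW]; simp
        · rw [hd]; simp

theorem flip_sel (L m : ℕ) (hL : 1 ≤ L) (G : Finset ℕ) (hG : G ⊆ Finset.Icc 1 m) (X : Finset Pt)
    (hX : Far L G X) (T T' : Finset (Finset Pt)) (hT : Inv (Poly L m) (V L m ∪ X) T)
    (hf : Flip T T') :
    ∃ t₁ t₂ : Finset Pt, ∀ i ∈ G, ∀ a < L, ∀ f ≤ L,
      ({U L i a, U L i (a + 1), W L i f} : Finset Pt) ∈ T →
      ∃ g ≤ L, ({U L i a, U L i (a + 1), W L i g} : Finset Pt) ∈ T' ∧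
        (g = f ∨ (g ≤ f + 1 ∧ (({U L i a, U L i (a + 1), W L i f} : Finset Pt) = t₁ ∨
          ({U L i a, U L i (a + 1), W L i f} : Finset Pt) = t₂))) := by
  have hT' : Inv (Poly L m) (V L m ∪ X) T' := Inv_flip _ _ T T' hT hf
  obtain ⟨a, b, c, d, h1, h2, hx, hTT⟩ := hf
  refine ⟨{a, b, c}, {a, b, d}, ?_⟩
  intro i hi e he f hfL ht
  have hi' := Finset.mem_Icc.1 (hG hi)
  have h3 : ({a, c, d} : Finset Pt) ∈ T' := by rw [hTT]; simp
  have h4 : ({b, c, d} : Finset Pt) ∈ T' := by rw [hTT]; simp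
  by_cases k1 : ({U L i e, U L i (e + 1), W L i f} : Finset Pt) = {a, b, c}
  · obtain ⟨g, hg, hgT, hgf⟩ := core_D1 L m hL X T T' hT hT' i hi'.1 hi'.2 (hX i hi) e he f hfL
      a b c d h2 hx h3 h4 k1.symm
    exact ⟨g, hg, hgT, Or.inr ⟨hgf, Or.inl k1⟩⟩
  by_cases k2 : ({U L i e, U L i (e + 1), W L i f} : Finset Pt) = {a, b, d}
  · rw [openSegment_symm ℝ c d] at hx
    have h3' : ({a, d, c} : Finset Pt) ∈ T' := by
      rw [Finset.pair_comm d c]; exact h3
    have h4' : ({b, d, c} : Finset Pt) ∈ T' := by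
      rw [Finset.pair_comm d c]; exact h4
    obtain ⟨g, hg, hgT, hgf⟩ := core_D1 L m hL X T T' hT hT' i hi'.1 hi'.2 (hX i hi) e he f hfL
      a b d c h1 hx h3' h4' k2.symm
    exact ⟨g, hg, hgT, Or.inr ⟨hgf, Or.inr k2⟩⟩
  refine ⟨f, hfL, ?_, Or.inl rfl⟩
  rw [hTT]
  refine Finset.mem_union_left _ (Finset.mem_sdiff.2 ⟨ht, ?_⟩)
  simp only [Finset.mem_insert, Finset.mem_singleton, not_or]
  exact ⟨k1, k2⟩

end Pool.Agent.H142.FS
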