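import Pool.Agent.H142.FS.Defs
import Pool.Agent.H142.FS.B1
import Pool.Agent.H142.FS.D1
import Pool.Agent.H142.FS.C5

set_option autoImplicit false

open Set Filter Topology

namespace Pool.Agent.H142.FS

theorem card_D2 (L m : ℕ) (hL : 1 ≤ L) (G : Finset ℕ) (T : Finset (Finset Pt))
    (f : ℕ × ℕ → ℕ) (hs : Sel L G T f) (t : Finset Pt) :
    ∑ x ∈ G ×ˢ Finset.range L,
      (if ({U L x.1 x.2, U L x.1 (x.2 + 1), W L x.1 (f x)} : Finset Pt) = t then 1 else 0) ≤ 1 := by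
  rw [Finset.sum_boole]
  simp only [Nat.cast_id]
  rw [Finset.card_le_one]
  intro x hx y hy
  rw [Finset.mem_filter, Finset.mem_product, Finset.mem_range] at hx hy
  obtain ⟨hfx, _⟩ := hs x.1 hx.1.1 x.2 hx.1.2
  obtain ⟨hfy, _⟩ := hs y.1 hy.1.1 y.2 hy.1.2
  obtain ⟨h1, h2, _⟩ := UUW_inj L x.1 x.2 (f x) y.1 y.2 (f y) hL hx.1.2 hy.1.2 hfx hfy
    (hx.2.trans hy.2.symm)
  exact Prod.ext h1 h2

theorem flip_sum (L m : ℕ) (hL : 1 ≤ L) (G : Finset ℕ) (hG : G ⊆ Finset.Icc 1 m) (X : Finset Pt)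
    (hX : Far L G X) (T T' : Finset (Finset Pt)) (hT : Inv (Poly L m) (V L m ∪ X) T)
    (hf : Flip T T') (f : ℕ × ℕ → ℕ) (hs : Sel L G T f) :
    ∃ g : ℕ × ℕ → ℕ, Sel L G T' g ∧
      ∑ x ∈ G ×ˢ Finset.range L, g x ≤ ∑ x ∈ G ×ˢ Finset.range L, f x + 2 := by
  obtain ⟨t₁, t₂, h⟩ := flip_sel L m hL G hG X hX T T' hT hf
  have h1 : ∀ x : ℕ × ℕ, ∃ g : ℕ, (x ∈ G ×ˢ Finset.range L →
      g ≤ L ∧ ({U L x.1 x.2, U L x.1 (x.2 + 1), W L x.1 g} : Finset Pt) ∈ T' ∧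
      g ≤ f x +
        ((if ({U L x.1 x.2, U L x.1 (x.2 + 1), W L x.1 (f x)} : Finset Pt) = t₁ then 1 else 0) +
        (if ({U L x.1 x.2, U L x.1 (x.2 + 1), W L x.1 (f x)} : Finset Pt) = t₂ then 1 else 0))) := by
    intro x
    by_cases hx : x ∈ G ×ˢ Finset.range L
    · rw [Finset.mem_product, Finset.mem_range] at hx
      obtain ⟨hfL, hfT⟩ := hs x.1 hx.1 x.2 hx.2
      obtain ⟨g, hg, hgT, hgf⟩ := h x.1 hx.1 x.2 hx.2 (f x) hfL hfT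
      refine ⟨g, fun _ => ⟨hg, hgT, ?_⟩⟩
      rcases hgf with h2 | ⟨h1, h2 | h2⟩
      · rw [h2]; exact Nat.le_add_right _ _
      · rw [if_pos h2]; omega
      · rw [if_pos h2]; omega
    · exact ⟨0, fun h => absurd h hx⟩
  choose g hg using h1
  refine ⟨g, ?_, ?_⟩
  · intro i hi a ha
    have h3 := hg (i, a) (Finset.mem_product.2 ⟨hi, Finset.mem_range.2 ha⟩)
    exact ⟨h3.1, h3.2.1⟩
  · refine (Finset.sum_le_sum fun x hx => (hg x hx).2.2).trans ?_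
    rw [Finset.sum_add_distrib, Finset.sum_add_distrib]
    have h4 := card_D2 L m hL G T f hs t₁
    have h5 := card_D2 L m hL G T f hs t₂
    omega

theorem path_sum_D2 (L m : ℕ) (hL : 1 ≤ L) (G : Finset ℕ) (hG : G ⊆ Finset.Icc 1 m) (X : Finset Pt)
    (hX : Far L G X) (r : ℕ) (T T' : Finset (Finset Pt)) 
    (hf : Steps Flip r T T') : Inv (Poly L m) (V L m ∪ X) T → ∀ (f : ℕ × ℕ → ℕ), Sel L G T f →
    Inv (Poly L m) (V L m ∪ X) T' ∧ ∃ g : ℕ × ℕ → ℕ, Sel L G T' g ∧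
      ∑ x ∈ G ×ˢ Finset.range L, g x ≤ ∑ x ∈ G ×ˢ Finset.range L, f x + 2 * r := by
  induction hf with
  | zero a => exact fun hT f hs => ⟨hT, f, hs, by omega⟩
  | succ h1 h2 ih =>
    intro hT f hs
    obtain ⟨hI, g, hg, hgs⟩ := ih hT f hs
    refine ⟨Inv_flip _ _ _ _ hI h2, ?_⟩
    obtain ⟨k, hk, hks⟩ := flip_sum L m hL G hG X hX _ _ hI h2 g hg
    exact ⟨k, hk, by omega⟩

theorem path_sum (L m : ℕ) (hL : 1 ≤ L) (G : Finset ℕ) (hG : G ⊆ Finset.Icc 1 m) (X : Finset Pt)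
    (hX : Far L G X) (r : ℕ) (T T' : Finset (Finset Pt)) (hT : Inv (Poly L m) (V L m ∪ X) T)
    (hf : Steps Flip r T T') (f : ℕ × ℕ → ℕ) (hs : Sel L G T f) :
    ∃ g : ℕ × ℕ → ℕ, Sel L G T' g ∧
      ∑ x ∈ G ×ˢ Finset.range L, g x ≤ ∑ x ∈ G ×ˢ Finset.range L, f x + 2 * r :=
  (path_sum_D2 L m hL G hG X hX r T T' hf hT f hs).2

end Pool.Agent.H142.FS
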