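import Pool.Agent.H142.FS.Defs

set_option autoImplicit false

open Set Filter Topology

namespace Pool.Agent.H142.FS

theorem q_bounds_D3 (L a : ℕ) (ha : a ≤ L) : (L : ℝ) ^ 2 ≤ q L a ∧ q L a ≤ 2 * (L : ℝ) ^ 2 := by
  have h1 : (a : ℝ) ≤ L := by exact_mod_cast ha
  have h0 : (0 : ℝ) ≤ a := by positivity
  unfold q
  constructor
  · nlinarith [sq_nonneg ((L : ℝ) - a)]
  · nlinarith

theorem qq_D3 (L : ℕ) (hL : 1 ≤ L) (a b : ℕ) (ha : a ≤ L) (hb : b ≤ L) (z : ℤ) :
    16 * (L : ℝ) ^ 2 * z ≠ q L a + q L b := by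
  intro h
  obtain ⟨a1, a2⟩ := q_bounds_D3 L a ha
  obtain ⟨b1, b2⟩ := q_bounds_D3 L b hb
  have hL' : (1 : ℝ) ≤ L := by exact_mod_cast hL
  have hL2 : (1 : ℝ) ≤ (L : ℝ) ^ 2 := by nlinarith
  rcases le_or_gt z 0 with hz | hz
  · have hz' : (z : ℝ) ≤ 0 := by exact_mod_cast hz
    nlinarith
  · have hz' : (1 : ℝ) ≤ z := by exact_mod_cast hz
    nlinarith

/-- TARGET -/
theorem T2_uniq (L m i a f : ℕ) (hL : 1 ≤ L) (hi : 1 ≤ i) (him : i ≤ m) (ha : a < L) (hf : f ≤ L)
    (h : ({U L i a, U L i (a + 1), W L i f} : Finset Pt) ∈ T2 L m) : f = L := by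
  unfold T2 at h
  rw [Finset.mem_image] at h
  obtain ⟨t, ht, hte⟩ := h
  have hU1 : U L i (a + 1) ∈ t.image (refl L m) := by rw [hte]; simp
  have hW : W L i f ∈ t.image (refl L m) := by rw [hte]; simp
  have hlft : (lft L, (-1 : ℝ)) ∈ t → False := by
    intro hmem
    have h1 : refl L m (lft L, -1) ∈ t.image (refl L m) := Finset.mem_image_of_mem _ hmem
    rw [hte] at h1
    simp only [Finset.mem_insert, Finset.mem_singleton, refl, U, W, Prod.mk.injEq] at h1
    have h0 : (0 : ℝ) ≤ a := by positivity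
    have h2 : (0 : ℝ) ≤ f := by positivity
    rcases h1 with h1 | h1 | h1
    · linarith [h1.2]
    · have := h1.2
      push_cast at this
      linarith
    · linarith [h1.2]
  unfold T1 at ht
  rw [Finset.mem_union, Finset.mem_union, Finset.mem_union] at ht
  rcases ht with ((ht | ht) | ht) | ht
  · exfalso
    rw [Finset.mem_image] at ht
    obtain ⟨⟨x1, x2⟩, hx, rfl⟩ := ht
    rw [Finset.mem_product, Finset.mem_range] at hx
    have hx2 : x2 < L := hx.2
    simp only [Finset.mem_image, Finset.mem_insert, Finset.mem_singleton] at hU1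
    obtain ⟨y, hy, hyU⟩ := hU1
    rcases hy with rfl | rfl | rfl
    · simp only [refl, U, cc, Prod.mk.injEq] at hyU
      refine qq_D3 L hL x2 (a + 1) (by omega) (by omega) ((i : ℤ) + x1 - m - 1) ?_
      push_cast
      have := hyU.1
      push_cast at this
      linarith
    · simp only [refl, U, cc, Prod.mk.injEq] at hyU
      refine qq_D3 L hL (x2 + 1) (a + 1) (by omega) (by omega) ((i : ℤ) + x1 - m - 1) ?_
      push_cast
      have := hyU.1
      push_cast at this
      linarith
    · simp only [refl, U, W, cc, Prod.mk.injEq] at hyU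
      have := hyU.2
      push_cast at this
      have h0 : (0 : ℝ) ≤ a := by positivity
      linarith
  · rw [Finset.mem_image] at ht
    obtain ⟨⟨x1, x2⟩, hx, rfl⟩ := ht
    rw [Finset.mem_product, Finset.mem_range] at hx
    have hx2 : x2 < L := hx.2
    simp only [Finset.mem_image, Finset.mem_insert, Finset.mem_singleton] at hW
    obtain ⟨y, hy, hyW⟩ := hW
    rcases hy with rfl | rfl | rfl
    · exfalso
      simp only [refl, W, cc, Prod.mk.injEq] at hyW
      refine qq_D3 L hL x2 f (by omega) (by omega) (-((i : ℤ) + x1 - m - 1)) ?_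
      push_cast
      have := hyW.1
      push_cast at this
      linarith
    · exfalso
      simp only [refl, W, cc, Prod.mk.injEq] at hyW
      refine qq_D3 L hL (x2 + 1) f (by omega) (by omega) (-((i : ℤ) + x1 - m - 1)) ?_
      push_cast
      have := hyW.1
      push_cast at this
      linarith
    · simp only [refl, U, W, cc, Prod.mk.injEq] at hyW
      have := hyW.2
      have h2 : L = f := by exact_mod_cast this
      exact h2.symm
  · exfalso
    rw [Finset.mem_image] at ht
    obtain ⟨k, -, rfl⟩ := ht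
    exact hlft (by simp)
  · exfalso
    rw [Finset.mem_singleton] at ht
    subst ht
    exact hlft (by simp)

end Pool.Agent.H142.FS
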