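import Pool.Agent.H142.FS.Defs
import Pool.Agent.H142.FS.B2
import Pool.Agent.H142.FS.D2
import Pool.Agent.H142.FS.D3
import Pool.Agent.H142.FS.C5
import Pool.Agent.H142.FS.C3

set_option autoImplicit false

open Set Filter Topology

namespace Pool.Agent.H142.FS

theorem nearU_D4 (L i j : ℕ) (hj : j ≤ L) : Near L i (U L i j) := by
  unfold Near U q
  have h : (j : ℝ) ≤ L := by exact_mod_cast hj
  have h0 : (0 : ℝ) ≤ j := Nat.cast_nonneg j
  rw [abs_le]
  constructor
  · simp only []
    nlinarith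
  · simp only []
    nlinarith

theorem nearW_D4 (L i j : ℕ) (hj : j ≤ L) : Near L i (W L i j) := by
  unfold Near W q
  have h : (j : ℝ) ≤ L := by exact_mod_cast hj
  have h0 : (0 : ℝ) ≤ j := Nat.cast_nonneg j
  rw [abs_le]
  constructor
  · simp only []
    nlinarith
  · simp only []
    nlinarith

theorem lower (L m : ℕ) (hL : 1 ≤ L) (h1 : Inv (Poly L m) (V L m) (T1 L m))
    (h2 : Inv (Poly L m) (V L m) (T2 L m)) (j r : ℕ)
    (B : Finset (Finset Pt) × Finset (Finset Pt)) (hB : Steps InsertStep j (T1 L m, T2 L m) B)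
    (hr : Steps Flip r B.1 B.2) : m * (L * L) ≤ 2 * r + j * (L * L) := by
  obtain ⟨X, hXc, hI1, _, hkeep, hnew⟩ := inserted (Poly L m) (V L m) j (T1 L m, T2 L m) B hB h1 h2
  obtain ⟨G, hG, hGc, hFar⟩ := good_card L m hL X
  have hsel : Sel L G B.1 (fun _ => 0) := by
    intro i hi a ha
    refine ⟨Nat.zero_le _, ?_⟩
    apply hkeep
    · unfold T1
      simp only [Finset.mem_union, Finset.mem_image, Finset.mem_product]
      exact Or.inl (Or.inl (Or.inl ⟨(i, a), ⟨hG hi, Finset.mem_range.mpr ha⟩, rfl⟩))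
    · intro p hp hph
      exact hFar i hi p hp (T1_near L i a ha p hph)
  obtain ⟨g, hg, hgs⟩ := path_sum L m hL G hG X hFar r B.1 B.2 hI1 hr (fun _ => 0) hsel
  have hval : ∀ x ∈ G ×ˢ Finset.range L, g x = L := by
    rintro ⟨i, a⟩ hx
    rw [Finset.mem_product, Finset.mem_range] at hx
    obtain ⟨hi, ha⟩ := hx
    simp only at hi ha
    obtain ⟨hle, hmem⟩ := hg i hi a ha
    have hiI := Finset.mem_Icc.mp (hG hi)
    rcases hnew _ hmem with h | ⟨p, hpX, hpt⟩
    · exact T2_uniq L m i a _ hL hiI.1 hiI.2 ha hle h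
    · exfalso
      simp only [Finset.mem_insert, Finset.mem_singleton] at hpt
      rcases hpt with h | h | h
      · exact hFar i hi p hpX (h ▸ nearU_D4 L i a ha.le)
      · exact hFar i hi p hpX (h ▸ nearU_D4 L i (a + 1) ha)
      · exact hFar i hi p hpX (h ▸ nearW_D4 L i _ hle)
  rw [Finset.sum_congr rfl hval] at hgs
  simp only [Finset.sum_const, Finset.card_product, Finset.card_range, smul_eq_mul,
    mul_zero, zero_add] at hgs
  calc m * (L * L) ≤ (G.card + X.card) * (L * L) := Nat.mul_le_mul_right _ hGc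
    _ = G.card * L * L + X.card * (L * L) := by ring
    _ ≤ 2 * r + j * (L * L) := Nat.add_le_add hgs (Nat.mul_le_mul_right _ hXc)

end Pool.Agent.H142.FS
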