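import Mathlib

/-!
# Flip distance after inserting few Steiner points in polygons: definitions (MP_fe41f2_co)
-/

open Set Filter Topology

namespace Pool.Agent.H142.FS

/-- points of the plane -/
abbrev Pt := ℝ × ℝ

/-- twice the signed area of the triangle `a b c` -/
def orient (a b c : Pt) : ℝ := (b.1 - a.1) * (c.2 - a.2) - (b.2 - a.2) * (c.1 - a.1)

/-- `t` is the vertex set of a (nondegenerate) triangle -/
def IsTri (t : Finset Pt) : Prop := ∃ a b c : Pt, orient a b c ≠ 0 ∧ t = {a, b, c}

/-- the closed region spanned by the points of `t` (the solid triangle if `t` is a triangle) -/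
def hull (t : Finset Pt) : Set Pt := convexHull ℝ (t : Set Pt)

/-- `P` is the (closed) simple polygon with the `n` vertices `v 0, …, v (n-1)` in this cyclic order:
the closed polygonal curve `v 0, v 1, …, v (n-1), v n = v 0` does not cross or touch itself, and `P` is
the compact region which it bounds (`P` is compact, it is the closure of its interior and its
topological boundary is this curve). -/
structure IsSimplePolygon (n : ℕ) (v : ℕ → Pt) (P : Set Pt) : Prop where
  three_le : 3 ≤ n
  closed : v n = v 0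
  inj : ∀ i < n, ∀ j < n, v i = v j → i = j
  adj : ∀ i, i + 1 < n →
    segment ℝ (v i) (v (i + 1)) ∩ segment ℝ (v (i + 1)) (v (i + 2)) = {v (i + 1)}
  adj_last : segment ℝ (v (n - 1)) (v n) ∩ segment ℝ (v 0) (v 1) = {v 0}
  nonadj : ∀ i j, i + 1 < j → j < n → ¬ (i = 0 ∧ j = n - 1) →
    Disjoint (segment ℝ (v i) (v (i + 1))) (segment ℝ (v j) (v (j + 1)))
  compact : IsCompact P
  regular : closure (interior P) = P
  frontier_eq : frontier P = ⋃ i ∈ Finset.range n, segment ℝ (v i) (v (i + 1))

/-- `T` (a finite set of triangles, given by their vertex sets) is a triangulation of `P` with vertex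
set `S`: the triangles have their vertices in `S`, have pairwise disjoint interiors, their union is
`P`, and a triangle contains no point of `S` besides its own vertices. -/
structure IsTriangulation (P : Set Pt) (S : Finset Pt) (T : Finset (Finset Pt)) : Prop where
  tri : ∀ t ∈ T, IsTri t
  verts : ∀ t ∈ T, t ⊆ S
  cover : (⋃ t ∈ T, hull t) = P
  disj : ∀ t ∈ T, ∀ t' ∈ T, t ≠ t' → Disjoint (interior (hull t)) (interior (hull t'))
  empty : ∀ t ∈ T, ∀ p ∈ S, p ∈ hull t → p ∈ t

/-- `T'` arises from `T` by one flip: `T` contains the two triangles `abc` and `abd` with the common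
edge `ab`, they form the convex quadrilateral `acbd` (its two diagonals `ab` and `cd` cross), and the
diagonal `ab` is replaced by the other diagonal `cd`. -/
def Flip (T T' : Finset (Finset Pt)) : Prop :=
  ∃ a b c d : Pt, ({a, b, c} : Finset Pt) ∈ T ∧ ({a, b, d} : Finset Pt) ∈ T ∧
    (openSegment ℝ a b ∩ openSegment ℝ c d).Nonempty ∧
    T' = (T \ {{a, b, c}, {a, b, d}}) ∪ {{a, c, d}, {b, c, d}}

/-- the triangle `t` of `T` is replaced by the three triangles spanned by `p` and two of its
vertices -/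
noncomputable def split (T : Finset (Finset Pt)) (t : Finset Pt) (p : Pt) : Finset (Finset Pt) :=
  T.erase t ∪ t.image (fun x => insert p (t.erase x))

/-- one Steiner point `p` is inserted into both triangulations of the pair `A`: it lies in the
interior of a triangle `t₁` of the first one and of a triangle `t₂` of the second one, and it is
joined to the three vertices of `t₁`, respectively of `t₂`. -/
def InsertStep (A B : Finset (Finset Pt) × Finset (Finset Pt)) : Prop :=
  ∃ (p : Pt) (t₁ t₂ : Finset Pt), t₁ ∈ A.1 ∧ t₂ ∈ A.2 ∧ p ∈ interior (hull t₁) ∧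
    p ∈ interior (hull t₂) ∧ B = (split A.1 t₁ p, split A.2 t₂ p)

/-- `Steps R n a b`: exactly `n` steps of the relation `R` lead from `a` to `b` -/
inductive Steps {α : Type*} (R : α → α → Prop) : ℕ → α → α → Prop
  | zero (a : α) : Steps R 0 a a
  | succ {n : ℕ} {a b c : α} : Steps R n a b → R b c → Steps R (n + 1) a c

/-- The statement of Q1: there are a function `k(n) = o(n)` and a constant `C` such that for every
simple polygon `P` with `n` vertices and any two triangulations `T₁, T₂` of `P` one can insert at most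
`k(n)` Steiner points such that afterwards the flip distance is at most `C n`. -/
def Q1 : Prop :=
  ∃ (k : ℕ → ℝ) (C : ℝ), Tendsto (fun n : ℕ => k n / n) atTop (𝓝 0) ∧
    ∀ (n : ℕ) (v : ℕ → Pt) (P : Set Pt), IsSimplePolygon n v P →
    ∀ T₁ T₂ : Finset (Finset Pt),
      IsTriangulation P ((Finset.range n).image v) T₁ →
      IsTriangulation P ((Finset.range n).image v) T₂ →
      ∃ (j : ℕ) (B : Finset (Finset Pt) × Finset (Finset Pt)),
        (j : ℝ) ≤ k n ∧ Steps InsertStep j (T₁, T₂) B ∧
        ∃ r : ℕ, (r : ℝ) ≤ C * n ∧ Steps Flip r B.1 B.2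

/-! ### The polygons -/

noncomputable def q (L j : ℕ) : ℝ := (L : ℝ) ^ 2 + ((L : ℝ) - j) ^ 2
noncomputable def cc (L i : ℕ) : ℝ := 16 * (L : ℝ) ^ 2 * i
/-- left chain of the `i`-th tooth -/
noncomputable def U (L i j : ℕ) : Pt := (cc L i - q L j, (j : ℝ))
/-- right chain of the `i`-th tooth -/
noncomputable def W (L i j : ℕ) : Pt := (cc L i + q L j, (j : ℝ))
noncomputable def fl (L j : ℕ) (x y : ℝ) : ℝ := (2 * ((L : ℝ) - j) - 1) * (y - j) - (x + q L j)
def Tooth (L : ℕ) : Set Pt :=
  {p | 0 ≤ p.2 ∧ p.2 ≤ L ∧ (∃ j < L, fl L j p.1 p.2 ≤ 0) ∧ (∃ j < L, fl L j (-p.1) p.2 ≤ 0)}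
noncomputable def lft (L : ℕ) : ℝ := 2 * (L : ℝ) ^ 2
noncomputable def rgt (L m : ℕ) : ℝ := cc L (m + 1) - 2 * (L : ℝ) ^ 2
def Poly (L m : ℕ) : Set Pt :=
  {p | lft L ≤ p.1 ∧ p.1 ≤ rgt L m ∧ -1 ≤ p.2 ∧ p.2 ≤ 0} ∪
  {p | ∃ i, 1 ≤ i ∧ i ≤ m ∧ (p.1 - cc L i, p.2) ∈ Tooth L}

/-- the `k`-th point of the upper chain (starting from the first tooth `0`) -/
noncomputable def pos (L k : ℕ) : Pt :=
  if k % (2 * L + 2) ≤ L then U L (k / (2 * L + 2)) (k % (2 * L + 2))
  else W L (k / (2 * L + 2)) (2 * L + 1 - k % (2 * L + 2))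

/-- number of vertices -/
def nv (L m : ℕ) : ℕ := m * (2 * L + 2) + 4

/-- the vertices in cyclic order -/
noncomputable def vert (L m k : ℕ) : Pt :=
  if k ≤ m * (2 * L + 2) + 1 then pos L (k + (2 * L + 1))
  else if k = m * (2 * L + 2) + 2 then (rgt L m, -1)
  else if k = m * (2 * L + 2) + 3 then (lft L, -1)
  else pos L (2 * L + 1)

noncomputable def V (L m : ℕ) : Finset Pt := (Finset.range (nv L m)).image (vert L m)

/-- the points on the line `y = 0` -/
noncomputable def Z (L k : ℕ) : Pt := if k % 2 = 0 then W L (k / 2) 0 else U L (k / 2 + 1) 0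

noncomputable def T1 (L m : ℕ) : Finset (Finset Pt) :=
  (((Finset.Icc 1 m) ×ˢ (Finset.range L)).image
      (fun x => ({U L x.1 x.2, U L x.1 (x.2 + 1), W L x.1 0} : Finset Pt))) ∪
  (((Finset.Icc 1 m) ×ˢ (Finset.range L)).image
      (fun x => ({W L x.1 x.2, W L x.1 (x.2 + 1), U L x.1 L} : Finset Pt))) ∪
  ((Finset.range (2 * m + 1)).image
      (fun k => ({(lft L, -1), Z L k, Z L (k + 1)} : Finset Pt))) ∪
  {({(lft L, -1), Z L (2 * m + 1), (rgt L m, -1)} : Finset Pt)}

/-- the reflection of the plane which maps the polygon to itself -/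
noncomputable def refl (L m : ℕ) (p : Pt) : Pt := (cc L (m + 1) - p.1, p.2)

noncomputable def T2 (L m : ℕ) : Finset (Finset Pt) :=
  (T1 L m).image (fun t => t.image (refl L m))

/-- piecewise linear upper boundary -/
noncomputable def lin (L j : ℕ) (x : ℝ) : ℝ := j + (x + q L j) / (2 * ((L : ℝ) - j) - 1)
noncomputable def Hr (L : ℕ) (x : ℝ) : ℕ → ℝ
  | 0 => lin L 0 x
  | n + 1 => max (Hr L x n) (lin L (n + 1) x)
noncomputable def Gf (L : ℕ) (x : ℝ) : ℝ := min (L : ℝ) (min (Hr L x (L - 1)) (Hr L (-x) (L - 1)))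
noncomputable def Fr (L : ℕ) (x : ℝ) : ℕ → ℝ
  | 0 => 0
  | i + 1 => max (Fr L x i) (Gf L (x - cc L (i + 1)))

/-- all triangles of `T` are nondegenerate, lie in `P` and have their vertices in `S` -/
def Inv (P : Set Pt) (S : Finset Pt) (T : Finset (Finset Pt)) : Prop :=
  ∀ t ∈ T, IsTri t ∧ hull t ⊆ P ∧ t ⊆ S

/-- the point `p` is close to the `i`-th tooth -/
def Near (L i : ℕ) (p : Pt) : Prop := |p.1 - cc L i| ≤ 6 * (L : ℝ) ^ 2

/-- `f` selects, for every tooth `i` in `G` and every edge `a` of its left chain, a triangle of `T`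
which contains this edge -/
def Sel (L : ℕ) (G : Finset ℕ) (T : Finset (Finset Pt)) (f : ℕ × ℕ → ℕ) : Prop :=
  ∀ i ∈ G, ∀ a < L, f (i, a) ≤ L ∧
    ({U L i a, U L i (a + 1), W L i (f (i, a))} : Finset Pt) ∈ T

/-- no point of `X` is near a tooth of `G` -/
def Far (L : ℕ) (G : Finset ℕ) (X : Finset Pt) : Prop := ∀ i ∈ G, ∀ x ∈ X, ¬ Near L i x

end Pool.Agent.H142.FS
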