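import Pool.Agent.H142.FS.Defs

set_option autoImplicit false

open Set Filter Topology

namespace Pool.Agent.H142.FS

/-- points of a segment with increasing abscissas -/
theorem seg_top_E1 (a b p : Pt) (hab : a.1 < b.1) (hp : p ∈ segment ℝ a b) :
    a.1 ≤ p.1 ∧ p.1 ≤ b.1 ∧ (p.1 = a.1 → p = a) ∧ (p.1 = b.1 → p = b) ∧
      (∀ c : ℝ, c < a.2 → c < b.2 → c < p.2) := by
  obtain ⟨s, t, hs, ht, hst, rfl⟩ := hp
  have hs' : s = 1 - t := by linarith
  have ht1 : t ≤ 1 := by linarith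
  subst hs'
  simp only [Prod.fst_add, Prod.smul_fst, smul_eq_mul, Prod.snd_add, Prod.smul_snd]
  refine ⟨by nlinarith, by nlinarith, ?_, ?_, ?_⟩
  · intro h
    have h0 : t * (b.1 - a.1) = 0 := by linarith
    have ht0 : t = 0 := by
      rcases mul_eq_zero.mp h0 with h1 | h1
      · exact h1
      · linarith
    subst ht0
    simp
  · intro h
    have h0 : (1 - t) * (b.1 - a.1) = 0 := by linarith
    have ht0 : 1 - t = 0 := by
      rcases mul_eq_zero.mp h0 with h1 | h1
      · exact h1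
      · linarith
    have ht' : t = 1 := by linarith
    subst ht'
    simp
  · intro c hca hcb
    by_cases h1 : t = 0
    · subst h1
      linarith
    · have h2 : 0 < t := lt_of_le_of_ne ht (Ne.symm h1)
      nlinarith [mul_nonneg hs (sub_nonneg.mpr hca.le), mul_pos h2 (sub_pos.mpr hcb)]

/-- points of a vertical segment -/
theorem seg_vert_E1 (X Y Z : ℝ) (hYZ : Y ≤ Z) (p : Pt)
    (hp : p ∈ segment ℝ ((X, Y) : Pt) (X, Z) ∨ p ∈ segment ℝ ((X, Z) : Pt) (X, Y)) :
    p.1 = X ∧ Y ≤ p.2 ∧ p.2 ≤ Z := by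
  rcases hp with hp | hp
  · obtain ⟨s, t, hs, ht, hst, rfl⟩ := hp
    have hs' : s = 1 - t := by linarith
    subst hs'
    simp only [Prod.fst_add, Prod.smul_fst, smul_eq_mul, Prod.snd_add, Prod.smul_snd]
    refine ⟨by ring, by nlinarith, by nlinarith⟩
  · obtain ⟨s, t, hs, ht, hst, rfl⟩ := hp
    have hs' : s = 1 - t := by linarith
    subst hs'
    simp only [Prod.fst_add, Prod.smul_fst, smul_eq_mul, Prod.snd_add, Prod.smul_snd]
    refine ⟨by ring, by nlinarith, by nlinarith⟩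

/-- points of a horizontal segment -/
theorem seg_hor_E1 (X Y Z : ℝ) (hYZ : Y ≤ Z) (p : Pt)
    (hp : p ∈ segment ℝ ((Z, X) : Pt) (Y, X)) :
    p.2 = X ∧ Y ≤ p.1 ∧ p.1 ≤ Z := by
  obtain ⟨s, t, hs, ht, hst, rfl⟩ := hp
  have hs' : s = 1 - t := by linarith
  subst hs'
  simp only [Prod.fst_add, Prod.smul_fst, smul_eq_mul, Prod.snd_add, Prod.smul_snd]
  refine ⟨by ring, by nlinarith, by nlinarith⟩

theorem mono_E1 (N : ℕ) (x : ℕ → ℝ) (hx : ∀ i < N, x i < x (i + 1)) :
    ∀ j ≤ N, ∀ i < j, x i < x j := by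
  intro j
  induction j with
  | zero => intro _ i hi; omega
  | succ j ih =>
    intro hj i hi
    rcases Nat.lt_succ_iff_lt_or_eq.mp hi with h | h
    · exact (ih (by omega) i h).trans (hx j (by omega))
    · subst h
      exact hx i (by omega)

theorem mountain_comb (N : ℕ) (hN : 1 ≤ N) (x : ℕ → ℝ) (hx : ∀ i < N, x i < x (i + 1)) (F : ℝ → ℝ)
    (hpos : ∀ t, -1 < F t) (v : ℕ → Pt) (hv : ∀ i ≤ N, v i = (x i, F (x i)))
    (hv1 : v (N + 1) = (x N, -1)) (hv2 : v (N + 2) = (x 0, -1)) (hv3 : v (N + 3) = v 0) :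
    (∀ i < N + 3, ∀ j < N + 3, v i = v j → i = j) ∧
    (∀ i, i + 1 < N + 3 →
      segment ℝ (v i) (v (i + 1)) ∩ segment ℝ (v (i + 1)) (v (i + 2)) = {v (i + 1)}) ∧
    (segment ℝ (v (N + 3 - 1)) (v (N + 3)) ∩ segment ℝ (v 0) (v 1) = {v 0}) ∧
    (∀ i j, i + 1 < j → j < N + 3 → ¬ (i = 0 ∧ j = N + 3 - 1) →
      Disjoint (segment ℝ (v i) (v (i + 1))) (segment ℝ (v j) (v (j + 1)))) := by
  have hmono := mono_E1 N x hx
  have hmono' : ∀ j ≤ N, ∀ i ≤ j, x i ≤ x j := by
    intro j hj i hi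
    rcases Nat.lt_or_eq_of_le hi with h | h
    · exact (hmono j hj i h).le
    · rw [h]
  -- description of the edges
  have top : ∀ i < N, ∀ p, p ∈ segment ℝ (v i) (v (i + 1)) →
      x i ≤ p.1 ∧ p.1 ≤ x (i + 1) ∧ (p.1 = x i → p = v i) ∧ (p.1 = x (i + 1) → p = v (i + 1)) ∧
        -1 < p.2 := by
    intro i hi p hp
    have h1 : (v i).1 = x i := by rw [hv i (by omega)]
    have h2 : (v (i + 1)).1 = x (i + 1) := by rw [hv (i + 1) (by omega)]
    have h3 : (v i).2 = F (x i) := by rw [hv i (by omega)]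
    have h4 : (v (i + 1)).2 = F (x (i + 1)) := by rw [hv (i + 1) (by omega)]
    obtain ⟨a1, a2, a3, a4, a5⟩ := seg_top_E1 (v i) (v (i + 1)) p (by rw [h1, h2]; exact hx i hi) hp
    rw [h1] at a1 a3
    rw [h2] at a2 a4
    exact ⟨a1, a2, a3, a4, a5 (-1) (by rw [h3]; exact hpos _) (by rw [h4]; exact hpos _)⟩
  have rw' : ∀ p, p ∈ segment ℝ (v N) (v (N + 1)) → p.1 = x N ∧ -1 ≤ p.2 ∧ p.2 ≤ F (x N) := by
    intro p hp
    rw [hv N le_rfl, hv1] at hp
    exact seg_vert_E1 (x N) (-1) (F (x N)) (hpos _).le p (Or.inr hp)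
  have fl : ∀ p, p ∈ segment ℝ (v (N + 1)) (v (N + 2)) → p.2 = -1 ∧ x 0 ≤ p.1 ∧ p.1 ≤ x N := by
    intro p hp
    rw [hv1, hv2] at hp
    exact seg_hor_E1 (-1) (x 0) (x N) (hmono' N le_rfl 0 (Nat.zero_le _)) p hp
  have hv0 : v 0 = (x 0, F (x 0)) := hv 0 (Nat.zero_le _)
  have lw : ∀ p, p ∈ segment ℝ (v (N + 2)) (v (N + 3)) → p.1 = x 0 ∧ -1 ≤ p.2 ∧ p.2 ≤ F (x 0) := by
    intro p hp
    rw [hv2, hv3, hv0] at hp
    exact seg_vert_E1 (x 0) (-1) (F (x 0)) (hpos _).le p (Or.inl hp)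
  have hx0N : x 0 < x N := hmono N le_rfl 0 (by omega)
  refine ⟨?_, ?_, ?_, ?_⟩
  · -- injectivity
    have key : ∀ i j, i < j → j < N + 3 → v i ≠ v j := by
      intro i j hij hj h
      have hi1 : i ≤ N ∨ i = N + 1 := by omega
      have hj1 : j ≤ N ∨ j = N + 1 ∨ j = N + 2 := by omega
      rcases hi1 with hi1 | hi1
      · rcases hj1 with hj1 | hj1 | hj1
        · rw [hv i hi1, hv j hj1] at h
          exact (hmono j hj1 i hij).ne (Prod.ext_iff.mp h).1
        · rw [hv i hi1, hj1, hv1] at h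
          exact (hpos (x i)).ne' (Prod.ext_iff.mp h).2
        · rw [hv i hi1, hj1, hv2] at h
          exact (hpos (x i)).ne' (Prod.ext_iff.mp h).2
      · rcases hj1 with hj1 | hj1 | hj1
        · omega
        · omega
        · rw [hi1, hj1, hv1, hv2] at h
          exact hx0N.ne' (Prod.ext_iff.mp h).1
    intro i hi j hj h
    rcases lt_trichotomy i j with h1 | h1 | h1
    · exact absurd h (key i j h1 hj)
    · exact h1
    · exact absurd h.symm (key j i h1 hi)
  · -- adjacent edges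
    intro i hi
    apply Set.Subset.antisymm
    · intro p hp
      obtain ⟨hp1, hp2⟩ := hp
      rw [Set.mem_singleton_iff]
      have hc : i + 1 < N ∨ i + 1 = N ∨ i = N ∨ i = N + 1 := by omega
      rcases hc with hc | hc | hc | hc
      · obtain ⟨a1, a2, a3, a4, a5⟩ := top i (by omega) p hp1
        obtain ⟨b1, b2, b3, b4, b5⟩ := top (i + 1) hc p hp2
        exact a4 (le_antisymm a2 b1)
      · obtain ⟨a1, a2, a3, a4, a5⟩ := top i (by omega) p hp1
        have hp2' : p ∈ segment ℝ (v N) (v (N + 1)) := by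
          have : i + 2 = N + 1 := by omega
          rw [hc, this] at hp2
          exact hp2
        obtain ⟨b1, b2, b3⟩ := rw' p hp2'
        exact a4 (by rw [b1, hc])
      · subst hc
        obtain ⟨b1, b2, b3⟩ := rw' p hp1
        obtain ⟨c1, c2, c3⟩ := fl p hp2
        rw [hv1]
        exact Prod.ext b1 c1
      · subst hc
        obtain ⟨c1, c2, c3⟩ := fl p hp1
        obtain ⟨b1, b2, b3⟩ := lw p hp2
        show p = v (N + 2)
        rw [hv2]
        exact Prod.ext b1 c1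
    · intro p hp
      rw [Set.mem_singleton_iff] at hp
      subst hp
      exact ⟨right_mem_segment ℝ _ _, left_mem_segment ℝ _ _⟩
  · -- last and first edge
    have e1 : N + 3 - 1 = N + 2 := by omega
    rw [e1]
    apply Set.Subset.antisymm
    · intro p hp
      obtain ⟨hp1, hp2⟩ := hp
      rw [Set.mem_singleton_iff]
      obtain ⟨b1, b2, b3⟩ := lw p hp1
      obtain ⟨a1, a2, a3, a4, a5⟩ := top 0 (by omega) p hp2
      exact a3 b1
    · intro p hp
      rw [Set.mem_singleton_iff] at hp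
      subst hp
      refine ⟨?_, left_mem_segment ℝ _ _⟩
      have := right_mem_segment ℝ (v (N + 2)) (v (N + 3))
      rwa [hv3] at this ⊢
  · -- disjoint edges
    intro i j hij hj hne
    rw [Set.disjoint_left]
    intro p hp1 hp2
    have hi1 : i < N ∨ i = N := by omega
    have hj1 : j < N ∨ j = N ∨ j = N + 1 ∨ j = N + 2 := by omega
    rcases hi1 with hi1 | hi1
    · obtain ⟨a1, a2, a3, a4, a5⟩ := top i hi1 p hp1
      rcases hj1 with hj1 | hj1 | hj1 | hj1
      · obtain ⟨b1, b2, b3, b4, b5⟩ := top j hj1 p hp2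
        have := hmono j (by omega) (i + 1) hij
        linarith
      · subst hj1
        obtain ⟨b1, b2, b3⟩ := rw' p hp2
        have := hmono j le_rfl (i + 1) hij
        linarith
      · subst hj1
        obtain ⟨c1, c2, c3⟩ := fl p hp2
        linarith
      · subst hj1
        obtain ⟨b1, b2, b3⟩ := lw p hp2
        have hi0 : 0 < i := by
          by_contra h0
          exact hne ⟨by omega, by omega⟩
        have := hmono i (by omega) 0 hi0
        linarith
    · subst hi1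
      have hj2 : j = i + 2 := by omega
      subst hj2
      obtain ⟨a1, a2, a3⟩ := rw' p hp1
      obtain ⟨b1, b2, b3⟩ := lw p hp2
      linarith

end Pool.Agent.H142.FS
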