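import Pool.Agent.H142.FS.Defs

set_option autoImplicit false

open Set Filter Topology

namespace Pool.Agent.H142.FS

/-- the interior of the mountain -/
def MO_E2 (a b : ℝ) (F : ℝ → ℝ) : Set Pt :=
  {p : Pt | a < p.1 ∧ p.1 < b ∧ -1 < p.2 ∧ p.2 < F p.1}

theorem MO_open_E2 (a b : ℝ) (F : ℝ → ℝ) (hF : Continuous F) : IsOpen (MO_E2 a b F) := by
  have h1 : IsOpen {p : Pt | a < p.1} := isOpen_lt continuous_const continuous_fst
  have h2 : IsOpen {p : Pt | p.1 < b} := isOpen_lt continuous_fst continuous_const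
  have h3 : IsOpen {p : Pt | -1 < p.2} := isOpen_lt continuous_const continuous_snd
  have h4 : IsOpen {p : Pt | p.2 < F p.1} := isOpen_lt continuous_snd (hF.comp continuous_fst)
  exact h1.inter (h2.inter (h3.inter h4))

theorem interior_E2 (a b : ℝ) (F : ℝ → ℝ) (hF : Continuous F) (P : Set Pt)
    (hP : P = {p : Pt | a ≤ p.1 ∧ p.1 ≤ b ∧ -1 ≤ p.2 ∧ p.2 ≤ F p.1}) :
    interior P = MO_E2 a b F := by
  apply Subset.antisymm
  · intro p hp
    have hx : p.1 ∈ interior (Icc a b) := by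
      have hc : Continuous fun x : ℝ => ((x, p.2) : Pt) := by fun_prop
      have ho : IsOpen ((fun x : ℝ => ((x, p.2) : Pt)) ⁻¹' interior P) :=
        isOpen_interior.preimage hc
      refine interior_maximal ?_ ho (show ((p.1, p.2) : Pt) ∈ interior P from hp)
      intro x hx
      have h1 := interior_subset hx
      rw [hP] at h1
      exact ⟨h1.1, h1.2.1⟩
    have hy : p.2 ∈ interior (Icc (-1) (F p.1)) := by
      have hc : Continuous fun y : ℝ => ((p.1, y) : Pt) := by fun_prop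
      have ho : IsOpen ((fun y : ℝ => ((p.1, y) : Pt)) ⁻¹' interior P) :=
        isOpen_interior.preimage hc
      refine interior_maximal ?_ ho (show ((p.1, p.2) : Pt) ∈ interior P from hp)
      intro y hy
      have h1 := interior_subset hy
      rw [hP] at h1
      exact ⟨h1.2.2.1, h1.2.2.2⟩
    rw [interior_Icc] at hx hy
    exact ⟨hx.1, hx.2, hy.1, hy.2⟩
  · refine interior_maximal ?_ (MO_open_E2 a b F hF)
    rintro p ⟨h1, h2, h3, h4⟩
    rw [hP]
    exact ⟨h1.le, h2.le, h3.le, h4.le⟩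

theorem mem_closure_E2 (a b : ℝ) (hab : a < b) (F : ℝ → ℝ) (hF : Continuous F)
    (hpos : ∀ t, -1 < F t) (p : Pt) (h1 : a ≤ p.1) (h2 : p.1 ≤ b) (h3 : -1 ≤ p.2)
    (h4 : p.2 ≤ F p.1) : p ∈ closure (MO_E2 a b F) := by
  let X : ℝ → ℝ := fun e => p.1 + e * ((a + b) / 2 - p.1)
  let Y : ℝ → ℝ := fun e => (1 - e) * min p.2 (F (X e)) + e * ((F (X e) - 1) / 2)
  have hX : Continuous X := by
    show Continuous fun e : ℝ => p.1 + e * ((a + b) / 2 - p.1)
    fun_prop
  have hFX : Continuous fun e => F (X e) := hF.comp hX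
  have hY : Continuous Y := by
    show Continuous fun e : ℝ => (1 - e) * min p.2 (F (X e)) + e * ((F (X e) - 1) / 2)
    fun_prop
  have hX0 : X 0 = p.1 := by
    show p.1 + 0 * ((a + b) / 2 - p.1) = p.1
    ring
  have hY0 : Y 0 = p.2 := by
    show (1 - 0) * min p.2 (F (X 0)) + 0 * ((F (X 0) - 1) / 2) = p.2
    rw [hX0, min_eq_left h4]
    ring
  have ht : Tendsto (fun e => ((X e, Y e) : Pt)) (𝓝[>] 0) (𝓝 p) := by
    have h := (hX.prodMk hY).tendsto 0
    rw [hX0, hY0] at h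
    exact h.mono_left nhdsWithin_le_nhds
  refine mem_closure_of_tendsto ht ?_
  have he : ∀ᶠ e : ℝ in 𝓝[>] 0, e ∈ Ioo (0 : ℝ) 1 := Ioo_mem_nhdsGT one_pos
  filter_upwards [he] with e he
  obtain ⟨e0, e1⟩ := he
  have g1 : -1 ≤ min p.2 (F (X e)) := le_min h3 (hpos _).le
  have g2 : min p.2 (F (X e)) ≤ F (X e) := min_le_right _ _
  have g3 := hpos (X e)
  refine ⟨?_, ?_, ?_, ?_⟩
  · show a < p.1 + e * ((a + b) / 2 - p.1)
    nlinarith
  · show p.1 + e * ((a + b) / 2 - p.1) < b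
    nlinarith
  · show -1 < (1 - e) * min p.2 (F (X e)) + e * ((F (X e) - 1) / 2)
    nlinarith [mul_nonneg (by linarith : (0 : ℝ) ≤ 1 - e) (by linarith : 0 ≤ min p.2 (F (X e)) + 1),
      mul_pos e0 (by linarith : 0 < F (X e) + 1)]
  · show (1 - e) * min p.2 (F (X e)) + e * ((F (X e) - 1) / 2) < F (X e)
    nlinarith [mul_nonneg (by linarith : (0 : ℝ) ≤ 1 - e)
      (by linarith : 0 ≤ F (X e) - min p.2 (F (X e))), mul_pos e0 (by linarith : 0 < F (X e) + 1)]

theorem mountain_top (a b : ℝ) (hab : a < b) (F : ℝ → ℝ) (hF : Continuous F)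
    (hpos : ∀ t, -1 < F t) (P : Set Pt)
    (hP : P = {p : Pt | a ≤ p.1 ∧ p.1 ≤ b ∧ -1 ≤ p.2 ∧ p.2 ≤ F p.1}) :
    IsCompact P ∧ closure (interior P) = P ∧
    frontier P = {p : Pt | p ∈ P ∧ (p.1 = a ∨ p.1 = b ∨ p.2 = -1 ∨ p.2 = F p.1)} := by
  have hint := interior_E2 a b F hF P hP
  have hcl : IsClosed P := by
    have h1 : IsClosed {p : Pt | a ≤ p.1} := isClosed_le continuous_const continuous_fst
    have h2 : IsClosed {p : Pt | p.1 ≤ b} := isClosed_le continuous_fst continuous_const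
    have h3 : IsClosed {p : Pt | -1 ≤ p.2} := isClosed_le continuous_const continuous_snd
    have h4 : IsClosed {p : Pt | p.2 ≤ F p.1} :=
      isClosed_le continuous_snd (hF.comp continuous_fst)
    rw [hP]
    exact h1.inter (h2.inter (h3.inter h4))
  have hclos : closure (interior P) = P := by
    apply Subset.antisymm
    · exact (closure_mono interior_subset).trans hcl.closure_eq.subset
    · intro p hp
      rw [hint]
      rw [hP] at hp
      exact mem_closure_E2 a b hab F hF hpos p hp.1 hp.2.1 hp.2.2.1 hp.2.2.2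
  refine ⟨?_, hclos, ?_⟩
  · obtain ⟨M, hM⟩ := (isCompact_Icc (a := a) (b := b)).bddAbove_image hF.continuousOn
    refine IsCompact.of_isClosed_subset ((isCompact_Icc (a := a) (b := b)).prod
      (isCompact_Icc (a := (-1 : ℝ)) (b := M))) hcl ?_
    intro p hp
    rw [hP] at hp
    obtain ⟨h1, h2, h3, h4⟩ := hp
    exact ⟨⟨h1, h2⟩, ⟨h3, h4.trans (hM ⟨p.1, ⟨h1, h2⟩, rfl⟩)⟩⟩
  · rw [frontier, hcl.closure_eq, hint]
    ext p
    constructor
    · rintro ⟨hp, hn⟩
      refine ⟨hp, ?_⟩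
      by_contra hcon
      push Not at hcon
      obtain ⟨c1, c2, c3, c4⟩ := hcon
      rw [hP] at hp
      obtain ⟨h1, h2, h3, h4⟩ := hp
      exact hn ⟨lt_of_le_of_ne h1 (Ne.symm c1), lt_of_le_of_ne h2 c2,
        lt_of_le_of_ne h3 (Ne.symm c3), lt_of_le_of_ne h4 c4⟩
    · rintro ⟨hp, hc⟩
      refine ⟨hp, fun hn => ?_⟩
      obtain ⟨h1, h2, h3, h4⟩ := hn
      rcases hc with h | h | h | h
      · exact absurd h h1.ne'
      · exact absurd h h2.ne
      · exact absurd h h3.ne'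
      · exact absurd h h4.ne

end Pool.Agent.H142.FS
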