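import Pool.Agent.H142.FS.Defs
import Pool.Agent.H142.FS.E1
import Pool.Agent.H142.FS.E2

set_option autoImplicit false

open Set Filter Topology

namespace Pool.Agent.H142.FS

theorem vert_E3 (a c d : ℝ) (hcd : c ≤ d) (p : Pt) :
    p ∈ segment ℝ ((a, c) : Pt) (a, d) ↔ p.1 = a ∧ c ≤ p.2 ∧ p.2 ≤ d := by
  have h := Prod.image_mk_segment_right (𝕜 := ℝ) a c d
  rw [← h, segment_eq_Icc hcd]
  constructor
  · rintro ⟨t, ht, rfl⟩
    exact ⟨rfl, ht.1, ht.2⟩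
  · rintro ⟨h1, h2, h3⟩
    exact ⟨p.2, ⟨h2, h3⟩, Prod.ext h1.symm rfl⟩

theorem hor_E3 (a b c : ℝ) (hab : a ≤ b) (p : Pt) :
    p ∈ segment ℝ ((a, c) : Pt) (b, c) ↔ p.2 = c ∧ a ≤ p.1 ∧ p.1 ≤ b := by
  have h := Prod.image_mk_segment_left (𝕜 := ℝ) a b c
  rw [← h, segment_eq_Icc hab]
  constructor
  · rintro ⟨t, ht, rfl⟩
    exact ⟨rfl, ht.1, ht.2⟩
  · rintro ⟨h1, h2, h3⟩
    exact ⟨p.1, ⟨h2, h3⟩, Prod.ext rfl h1.symm⟩

theorem mono_E3 (N : ℕ) (x : ℕ → ℝ) (hx : ∀ i < N, x i < x (i + 1)) (i d : ℕ) (h : i + d ≤ N) :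
    x i ≤ x (i + d) := by
  induction d with
  | zero => exact le_rfl
  | succ d ih =>
    have h1 := ih (by omega)
    have h2 := hx (i + d) (by omega)
    exact h1.trans h2.le

theorem find_E3 (N : ℕ) (x : ℕ → ℝ) (t : ℝ) (hN : 1 ≤ N) (h0 : x 0 ≤ t) (h1 : t ≤ x N) :
    ∃ i, i < N ∧ x i ≤ t ∧ t ≤ x (i + 1) := by
  induction N with
  | zero => omega
  | succ N ih =>
    by_cases h : t ≤ x N
    · by_cases hN0 : 1 ≤ N
      · obtain ⟨i, hi, h2, h3⟩ := ih hN0 h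
        exact ⟨i, by omega, h2, h3⟩
      · have : N = 0 := by omega
        subst this
        exact ⟨0, by omega, h0, h1⟩
    · exact ⟨N, by omega, (not_le.1 h).le, h1⟩

theorem edge_E3 (a b c d : ℝ) (p : Pt) (s : ℝ) (h0 : 0 ≤ s) (h1 : s ≤ 1)
    (hp1 : p.1 = (1 - s) * a + s * b) (hp2 : p.2 = (1 - s) * c + s * d) :
    p ∈ segment ℝ ((a, c) : Pt) (b, d) := by
  refine ⟨1 - s, s, by linarith, h0, by ring, ?_⟩
  refine Prod.ext ?_ ?_
  · simp [hp1]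
  · simp [hp2]

theorem edge'_E3 (a b c d : ℝ) (p : Pt) (h : p ∈ segment ℝ ((a, c) : Pt) (b, d)) :
    ∃ s : ℝ, 0 ≤ s ∧ s ≤ 1 ∧ p.1 = (1 - s) * a + s * b ∧ p.2 = (1 - s) * c + s * d := by
  obtain ⟨r, s, hr, hs, hrs, rfl⟩ := h
  have : r = 1 - s := by linarith
  subst this
  exact ⟨s, hs, by linarith, by simp, by simp⟩

theorem mountain (N : ℕ) (hN : 1 ≤ N) (x : ℕ → ℝ) (hx : ∀ i < N, x i < x (i + 1)) (F : ℝ → ℝ)
    (hF : Continuous F) (hpos : ∀ t, -1 < F t)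
    (haff : ∀ i < N, ∀ s : ℝ, 0 ≤ s → s ≤ 1 →
      F ((1 - s) * x i + s * x (i + 1)) = (1 - s) * F (x i) + s * F (x (i + 1)))
    (v : ℕ → Pt) (hv : ∀ i ≤ N, v i = (x i, F (x i)))
    (hv1 : v (N + 1) = (x N, -1)) (hv2 : v (N + 2) = (x 0, -1)) (hv3 : v (N + 3) = v 0) :
    IsSimplePolygon (N + 3) v {p : Pt | x 0 ≤ p.1 ∧ p.1 ≤ x N ∧ -1 ≤ p.2 ∧ p.2 ≤ F p.1} := by
  have hlt : x 0 < x N := by
    have h1 := hx 0 (by omega)
    have h2 := mono_E3 N x hx 1 (N - 1) (by omega)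
    have h3 : 1 + (N - 1) = N := by omega
    rw [h3] at h2
    simp only [zero_add] at h1
    linarith
  obtain ⟨c1, c2, c3, c4⟩ := mountain_comb N hN x hx F hpos v hv hv1 hv2 hv3
  obtain ⟨t1, t2, t3⟩ := mountain_top (x 0) (x N) hlt F hF hpos
    {p : Pt | x 0 ≤ p.1 ∧ p.1 ≤ x N ∧ -1 ≤ p.2 ∧ p.2 ≤ F p.1} rfl
  refine ⟨by omega, hv3, c1, c2, c3, c4, t1, t2, ?_⟩
  rw [t3]
  have hvN := hv N le_rfl
  have hv0 := hv 0 (Nat.zero_le _)
  ext p
  simp only [mem_setOf_eq, mem_iUnion, Finset.mem_range, exists_prop]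
  constructor
  · rintro ⟨⟨h1, h2, h3, h4⟩, h⟩
    rcases h with h | h | h | h
    · refine ⟨N + 2, by omega, ?_⟩
      have e : N + 2 + 1 = N + 3 := by omega
      rw [e, hv3, hv2, hv0, vert_E3 _ _ _ (hpos _).le]
      rw [h] at h4
      exact ⟨h, h3, h4⟩
    · refine ⟨N, by omega, ?_⟩
      rw [hv1, hvN, segment_symm, vert_E3 _ _ _ (hpos _).le]
      rw [h] at h4
      exact ⟨h, h3, h4⟩
    · refine ⟨N + 1, by omega, ?_⟩
      have e : N + 1 + 1 = N + 2 := by omega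
      rw [e, hv1, hv2, segment_symm, hor_E3 _ _ _ hlt.le]
      exact ⟨h, h1, h2⟩
    · obtain ⟨i, hi, hi1, hi2⟩ := find_E3 N x p.1 hN h1 h2
      refine ⟨i, by omega, ?_⟩
      rw [hv i (by omega), hv (i + 1) (by omega)]
      have hd : 0 < x (i + 1) - x i := by linarith [hx i hi]
      have hs0 : 0 ≤ (p.1 - x i) / (x (i + 1) - x i) := div_nonneg (by linarith) hd.le
      have hs1 : (p.1 - x i) / (x (i + 1) - x i) ≤ 1 := by
        rw [div_le_one hd]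
        linarith
      have hp : p.1 = (1 - (p.1 - x i) / (x (i + 1) - x i)) * x i +
          (p.1 - x i) / (x (i + 1) - x i) * x (i + 1) := by
        field_simp
        ring
      refine edge_E3 _ _ _ _ p ((p.1 - x i) / (x (i + 1) - x i)) hs0 hs1 hp ?_
      rw [← haff i hi _ hs0 hs1, ← hp]
      exact h
  · rintro ⟨i, hi, hp⟩
    rcases Nat.lt_or_ge i N with hiN | hiN
    · rw [hv i (by omega), hv (i + 1) (by omega)] at hp
      obtain ⟨s, hs0, hs1, hp1, hp2⟩ := edge'_E3 _ _ _ _ p hp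
      have hF' : p.2 = F p.1 := by
        rw [hp2, hp1, haff i hiN s hs0 hs1]
      have hxi := hx i hiN
      have m1 := mono_E3 N x hx 0 i (by omega)
      have m2 := mono_E3 N x hx (i + 1) (N - (i + 1)) (by omega)
      have e1 : 0 + i = i := by omega
      have e2 : i + 1 + (N - (i + 1)) = N := by omega
      rw [e1] at m1
      rw [e2] at m2
      have b1 : x i ≤ p.1 := by
        rw [hp1]
        nlinarith
      have b2 : p.1 ≤ x (i + 1) := by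
        rw [hp1]
        nlinarith
      refine ⟨⟨m1.trans b1, b2.trans m2, ?_, hF'.le⟩, Or.inr (Or.inr (Or.inr hF'))⟩
      rw [hF']
      exact (hpos _).le
    · have hcases : i = N ∨ i = N + 1 ∨ i = N + 2 := by omega
      rcases hcases with rfl | rfl | rfl
      · rw [hv1, hvN, segment_symm, vert_E3 _ _ _ (hpos _).le] at hp
        obtain ⟨h1, h2, h3⟩ := hp
        refine ⟨⟨?_, ?_, h2, ?_⟩, Or.inr (Or.inl h1)⟩
        · rw [h1]; exact hlt.le
        · rw [h1]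
        · rw [h1]; exact h3
      · have e : N + 1 + 1 = N + 2 := by omega
        rw [e, hv1, hv2, segment_symm, hor_E3 _ _ _ hlt.le] at hp
        obtain ⟨h1, h2, h3⟩ := hp
        refine ⟨⟨h2, h3, h1.ge, ?_⟩, Or.inr (Or.inr (Or.inl h1))⟩
        rw [h1]
        exact (hpos _).le
      · have e : N + 2 + 1 = N + 3 := by omega
        rw [e, hv3, hv2, hv0, vert_E3 _ _ _ (hpos _).le] at hp
        obtain ⟨h1, h2, h3⟩ := hp
        refine ⟨⟨h1.ge, ?_, h2, ?_⟩, Or.inl h1⟩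
        · rw [h1]; exact hlt.le
        · rw [h1]; exact h3

end Pool.Agent.H142.FS

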