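import Pool.Agent.H142.FS.Defs

set_option autoImplicit false

open Set Filter Topology

namespace Pool.Agent.H142.FS

theorem lin_cont_E4 (L j : ℕ) : Continuous (fun x => lin L j x) := by
  unfold lin
  exact continuous_const.add ((continuous_id.add continuous_const).div_const _)

theorem Hr_cont_E4 (L n : ℕ) : Continuous (fun x => Hr L x n) := by
  induction n with
  | zero => exact lin_cont_E4 L 0
  | succ n ih => exact ih.max (lin_cont_E4 L (n + 1))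

theorem Gf_cont_E4 (L : ℕ) : Continuous (fun x => Gf L x) := by
  unfold Gf
  exact continuous_const.min ((Hr_cont_E4 L (L - 1)).min
    ((Hr_cont_E4 L (L - 1)).comp continuous_neg))

theorem Hr_iff_E4 (L : ℕ) (x y : ℝ) (n : ℕ) : y ≤ Hr L x n ↔ ∃ j ≤ n, y ≤ lin L j x := by
  induction n with
  | zero =>
    constructor
    · intro h
      exact ⟨0, le_rfl, h⟩
    · rintro ⟨j, hj, h⟩
      obtain rfl : j = 0 := by omega
      exact h
  | succ n ih =>
    change y ≤ max (Hr L x n) (lin L (n + 1) x) ↔ _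
    rw [le_max_iff, ih]
    constructor
    · rintro (⟨j, hj, h⟩ | h)
      · exact ⟨j, by omega, h⟩
      · exact ⟨n + 1, le_rfl, h⟩
    · rintro ⟨j, hj, h⟩
      rcases Nat.lt_or_ge n j with h1 | h1
      · obtain rfl : j = n + 1 := by omega
        exact Or.inr h
      · exact Or.inl ⟨j, h1, h⟩

theorem den_pos_E4 {L j : ℕ} (hj : j < L) : 0 < 2 * ((L : ℝ) - j) - 1 := by
  have h : (j : ℝ) + 1 ≤ L := by exact_mod_cast hj
  linarith

theorem fl_iff_E4 {L j : ℕ} (hj : j < L) (x y : ℝ) : y ≤ lin L j x ↔ fl L j x y ≤ 0 := by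
  have hD := den_pos_E4 hj
  unfold lin fl
  rw [← sub_le_iff_le_add', le_div_iff₀ hD]
  constructor <;> intro h <;> linarith

theorem Gf_iff_E4 {L : ℕ} (hL : 1 ≤ L) (x y : ℝ) : y ≤ Gf L x ↔
    y ≤ L ∧ (∃ j < L, fl L j x y ≤ 0) ∧ (∃ j < L, fl L j (-x) y ≤ 0) := by
  unfold Gf
  rw [le_min_iff, le_min_iff, Hr_iff_E4, Hr_iff_E4]
  have h : ∀ z : ℝ, (∃ j ≤ L - 1, y ≤ lin L j z) ↔ ∃ j < L, fl L j z y ≤ 0 := by
    intro z
    constructor
    · rintro ⟨j, hj, h⟩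
      have hj' : j < L := by omega
      exact ⟨j, hj', (fl_iff_E4 hj' z y).1 h⟩
    · rintro ⟨j, hj, h⟩
      exact ⟨j, by omega, (fl_iff_E4 hj z y).2 h⟩
  rw [h, h]

theorem Fr_iff_E4 (L : ℕ) (x y : ℝ) (m : ℕ) : y ≤ Fr L x m ↔
    y ≤ 0 ∨ ∃ i, 1 ≤ i ∧ i ≤ m ∧ y ≤ Gf L (x - cc L i) := by
  induction m with
  | zero =>
    constructor
    · intro h
      exact Or.inl h
    · rintro (h | ⟨i, h1, h2, -⟩)
      · exact h
      · omega
  | succ n ih =>
    change y ≤ max (Fr L x n) (Gf L (x - cc L (n + 1))) ↔ _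
    rw [le_max_iff, ih]
    constructor
    · rintro ((h | ⟨i, h1, h2, h⟩) | h)
      · exact Or.inl h
      · exact Or.inr ⟨i, h1, by omega, h⟩
      · exact Or.inr ⟨n + 1, by omega, le_rfl, h⟩
    · rintro (h | ⟨i, h1, h2, h⟩)
      · exact Or.inl (Or.inl h)
      · rcases Nat.lt_or_ge n i with h3 | h3
        · obtain rfl : i = n + 1 := by omega
          exact Or.inr h
        · exact Or.inl (Or.inr ⟨i, h1, h3, h⟩)

theorem fl_bound_E4 {L j : ℕ} (hj : j < L) {x y : ℝ} (hy : 0 ≤ y) (h : fl L j x y ≤ 0) :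
    -(2 * (L : ℝ) ^ 2) ≤ x := by
  have hD := den_pos_E4 hj
  unfold fl q at h
  have h1 : 0 ≤ (2 * ((L : ℝ) - j) - 1) * y := mul_nonneg hD.le hy
  have h2 : (0 : ℝ) ≤ j := Nat.cast_nonneg j
  nlinarith [h, h1, h2, mul_self_nonneg (j : ℝ)]

theorem Fr_cont (L m : ℕ) : Continuous (fun x => Fr L x m) ∧ ∀ x, 0 ≤ Fr L x m := by
  constructor
  · induction m with
    | zero => exact continuous_const
    | succ n ih => exact ih.max ((Gf_cont_E4 L).comp (continuous_id.sub continuous_const))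
  · intro x
    exact (Fr_iff_E4 L x 0 m).2 (Or.inl le_rfl)

theorem Poly_eq (L m : ℕ) (hL : 1 ≤ L) :
    Poly L m = {p : Pt | lft L ≤ p.1 ∧ p.1 ≤ rgt L m ∧ -1 ≤ p.2 ∧ p.2 ≤ Fr L p.1 m} := by
  ext ⟨x, y⟩
  simp only [Poly, Tooth, Set.mem_union, Set.mem_ofPred_eq]
  rw [Fr_iff_E4]
  constructor
  · rintro (⟨h1, h2, h3, h4⟩ | ⟨i, hi1, him, h0, hyL, ⟨j, hj, hf⟩, ⟨j', hj', hf'⟩⟩)
    · exact ⟨h1, h2, h3, Or.inl h4⟩
    · have h5 := fl_bound_E4 hj h0 hf
      have h6 := fl_bound_E4 hj' h0 hf'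
      have hi1' : (1 : ℝ) ≤ i := by exact_mod_cast hi1
      have him' : (i : ℝ) ≤ m := by exact_mod_cast him
      have hL2 : (0 : ℝ) ≤ (L : ℝ) ^ 2 := sq_nonneg _
      refine ⟨?_, ?_, by linarith, Or.inr ⟨i, hi1, him, ?_⟩⟩
      · unfold lft
        unfold cc at h5
        nlinarith
      · unfold rgt
        unfold cc at h6 ⊢
        push_cast
        nlinarith
      · exact (Gf_iff_E4 hL _ _).2 ⟨hyL, ⟨j, hj, hf⟩, ⟨j', hj', hf'⟩⟩
  · rintro ⟨h1, h2, h3, h4⟩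
    by_cases hy : y ≤ 0
    · exact Or.inl ⟨h1, h2, h3, hy⟩
    · rcases h4 with h4 | ⟨i, hi1, him, h4⟩
      · exact absurd h4 hy
      · obtain ⟨h5, h6, h7⟩ := (Gf_iff_E4 hL _ _).1 h4
        exact Or.inr ⟨i, hi1, him, (not_le.1 hy).le, h5, h6, h7⟩

end Pool.Agent.H142.FS
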