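import Pool.Agent.H142.FS.Defs

set_option autoImplicit false

open Set Filter Topology

namespace Pool.Agent.H142.FS

theorem le_Hr_E5 (L : ℕ) (x : ℝ) : ∀ n j : ℕ, j ≤ n → lin L j x ≤ Hr L x n := by
  intro n
  induction n with
  | zero =>
    intro j hj
    rw [Nat.le_zero.1 hj]
    exact le_refl _
  | succ n ih =>
    intro j hj
    rcases Nat.lt_or_ge j (n + 1) with h | h
    · exact (ih j (Nat.lt_succ_iff.1 h)).trans (le_max_left _ _)
    · have : j = n + 1 := le_antisymm hj h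
      rw [this]
      exact le_max_right _ _

theorem Hr_le_E5 (L : ℕ) (x c : ℝ) : ∀ n : ℕ, (∀ j ≤ n, lin L j x ≤ c) → Hr L x n ≤ c := by
  intro n
  induction n with
  | zero =>
    intro h
    exact h 0 (le_refl 0)
  | succ n ih =>
    intro h
    exact max_le (ih fun j hj => h j (hj.trans (Nat.le_succ n))) (h (n + 1) (le_refl _))

/-- the line with number `j` is the highest one over its edge -/
theorem lin_le_E5 {L j e : ℕ} (hj : j < L) (he : e < L) {x : ℝ} (h1 : -q L j ≤ x)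
    (h2 : x ≤ -q L (j + 1)) : lin L e x ≤ lin L j x := by
  obtain ⟨s, hs⟩ : ∃ s : ℕ, L = j + s + 1 := ⟨L - j - 1, by omega⟩
  obtain ⟨t, ht⟩ : ∃ t : ℕ, L = e + t + 1 := ⟨L - e - 1, by omega⟩
  have hs' : (L : ℝ) - j = s + 1 := by
    have : (L : ℝ) = j + s + 1 := by exact_mod_cast hs
    rw [this]
    ring
  have ht' : (L : ℝ) - e = t + 1 := by
    have : (L : ℝ) = e + t + 1 := by exact_mod_cast ht
    rw [this]
    ring
  have hs2 : (L : ℝ) - ((j + 1 : ℕ) : ℝ) = s := by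
    push_cast
    linarith
  unfold q at h1 h2
  rw [hs'] at h1
  rw [hs2] at h2
  unfold lin q
  rw [hs', ht']
  have hjs : (j : ℝ) = L - (s + 1) := by linarith
  have het : (e : ℝ) = L - (t + 1) := by linarith
  rw [hjs, het]
  have hs0 : (0 : ℝ) ≤ s := Nat.cast_nonneg s
  have ht0 : (0 : ℝ) ≤ t := Nat.cast_nonneg t
  have hsp : (0 : ℝ) < 2 * ((s : ℝ) + 1) - 1 := by linarith
  have htp : (0 : ℝ) < 2 * ((t : ℝ) + 1) - 1 := by linarith
  -- integer products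
  have k1 : (0 : ℝ) ≤ ((t : ℝ) - s) * ((t : ℝ) - s - 1) := by
    rcases Nat.lt_or_ge s t with h | h
    · have : (s : ℝ) + 1 ≤ t := by exact_mod_cast h
      exact mul_nonneg (by linarith) (by linarith)
    · have : (t : ℝ) ≤ s := by exact_mod_cast h
      exact mul_nonneg_of_nonpos_of_nonpos (by linarith) (by linarith)
  have k2 : (0 : ℝ) ≤ ((t : ℝ) - s) * ((t : ℝ) - s + 1) := by
    rcases Nat.lt_or_ge t s with h | h
    · have : (t : ℝ) + 1 ≤ s := by exact_mod_cast h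
      exact mul_nonneg_of_nonpos_of_nonpos (by linarith) (by linarith)
    · have : (s : ℝ) ≤ t := by exact_mod_cast h
      exact mul_nonneg (by linarith) (by linarith)
  -- the parameter
  have l1 : 0 ≤ x + ((L : ℝ) ^ 2 + ((s : ℝ) + 1) ^ 2) := by linarith
  have l2 : 0 ≤ (2 * ((s : ℝ) + 1) - 1) - (x + ((L : ℝ) ^ 2 + ((s : ℝ) + 1) ^ 2)) := by
    nlinarith
  have key : (L - ((s : ℝ) + 1) + (x + ((L : ℝ) ^ 2 + ((s : ℝ) + 1) ^ 2)) / (2 * ((s : ℝ) + 1) - 1)) -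
      (L - ((t : ℝ) + 1) + (x + ((L : ℝ) ^ 2 + ((t : ℝ) + 1) ^ 2)) / (2 * ((t : ℝ) + 1) - 1)) =
      (((2 * ((s : ℝ) + 1) - 1) - (x + ((L : ℝ) ^ 2 + ((s : ℝ) + 1) ^ 2))) *
          (((t : ℝ) - s) * ((t : ℝ) - s - 1)) +
        (x + ((L : ℝ) ^ 2 + ((s : ℝ) + 1) ^ 2)) * (((t : ℝ) - s) * ((t : ℝ) - s + 1))) /
      ((2 * ((s : ℝ) + 1) - 1) * (2 * ((t : ℝ) + 1) - 1)) := by
    have hsn := hsp.ne'
    have htn := htp.ne'
    rw [eq_div_iff (mul_ne_zero hsn htn), add_sub_add_comm, div_sub_div _ _ hsn htn, add_mul,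
      div_mul_cancel₀ _ (mul_ne_zero hsn htn)]
    ring
  have hnn : 0 ≤ (((2 * ((s : ℝ) + 1) - 1) - (x + ((L : ℝ) ^ 2 + ((s : ℝ) + 1) ^ 2))) *
          (((t : ℝ) - s) * ((t : ℝ) - s - 1)) +
        (x + ((L : ℝ) ^ 2 + ((s : ℝ) + 1) ^ 2)) * (((t : ℝ) - s) * ((t : ℝ) - s + 1))) /
      ((2 * ((s : ℝ) + 1) - 1) * (2 * ((t : ℝ) + 1) - 1)) :=
    div_nonneg (add_nonneg (mul_nonneg l2 k1) (mul_nonneg l1 k2)) (mul_pos hsp htp).le
  linarith

/-- the last line -/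
theorem lin_last_E5 {L : ℕ} (hL : 1 ≤ L) (x : ℝ) : lin L (L - 1) x = L + (x + (L : ℝ) ^ 2) := by
  unfold lin q
  rw [Nat.cast_sub hL]
  push_cast
  have : 2 * ((L : ℝ) - (L - 1)) - 1 = 1 := by ring
  rw [this, div_one]
  ring

theorem q_nonneg_E5 (L j : ℕ) : (L : ℝ) ^ 2 ≤ q L j := by
  unfold q
  have : 0 ≤ ((L : ℝ) - j) ^ 2 := sq_nonneg _
  linarith

theorem Gf_left (L j : ℕ) (hj : j < L) (x : ℝ) (h1 : -q L j ≤ x) (h2 : x ≤ -q L (j + 1)) :
    Gf L x = lin L j x := by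
  have hH : Hr L x (L - 1) = lin L j x :=
    le_antisymm (Hr_le_E5 L x _ (L - 1) fun e he => lin_le_E5 hj (by omega) h1 h2)
      (le_Hr_E5 L x (L - 1) j (by omega))
  have hx : x ≤ -(L : ℝ) ^ 2 := by
    have := q_nonneg_E5 L (j + 1)
    linarith
  have hsq : 0 ≤ (L : ℝ) ^ 2 := sq_nonneg _
  have h3 : (L : ℝ) ≤ Hr L (-x) (L - 1) := by
    refine le_trans ?_ (le_Hr_E5 L (-x) (L - 1) (L - 1) (le_refl _))
    rw [lin_last_E5 (by omega)]
    linarith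
  have h4 : lin L j x ≤ L := by
    have hjL : (j : ℝ) + 1 ≤ L := by exact_mod_cast hj
    unfold q at h2
    push_cast at h2
    unfold lin q
    have hp : (0 : ℝ) < 2 * ((L : ℝ) - j) - 1 := by linarith
    have h5 : (x + ((L : ℝ) ^ 2 + ((L : ℝ) - j) ^ 2)) / (2 * ((L : ℝ) - j) - 1) ≤ 1 := by
      rw [div_le_one hp]
      nlinarith
    linarith
  unfold Gf
  rw [hH, min_eq_left (h4.trans h3), min_eq_right h4]

theorem Gf_mid (L : ℕ) (hL : 1 ≤ L) (x : ℝ) (h1 : |x| ≤ (L : ℝ) ^ 2) : Gf L x = L := by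
  obtain ⟨h2, h3⟩ := abs_le.1 h1
  have h4 : (L : ℝ) ≤ Hr L x (L - 1) := by
    refine le_trans ?_ (le_Hr_E5 L x (L - 1) (L - 1) (le_refl _))
    rw [lin_last_E5 hL]
    linarith
  have h5 : (L : ℝ) ≤ Hr L (-x) (L - 1) := by
    refine le_trans ?_ (le_Hr_E5 L (-x) (L - 1) (L - 1) (le_refl _))
    rw [lin_last_E5 hL]
    linarith
  unfold Gf
  exact min_eq_left (le_min h4 h5)

theorem Gf_neg (L : ℕ) (x : ℝ) : Gf L (-x) = Gf L x := by
  unfold Gf
  rw [neg_neg, min_comm (Hr L (-x) (L - 1))]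

end Pool.Agent.H142.FS
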