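import Pool.Agent.H142.FS.Defs

set_option autoImplicit false

open Set Filter Topology

namespace Pool.Agent.H142.FS

theorem lin_nonpos_E6 (L j : ℕ) (hj : j < L) (x : ℝ) (hx : x ≤ -(2 * (L : ℝ) ^ 2)) :
    lin L j x ≤ 0 := by
  have hjL : (j : ℝ) + 1 ≤ (L : ℝ) := by exact_mod_cast hj
  have hj0 : (0 : ℝ) ≤ (j : ℝ) := Nat.cast_nonneg j
  have hpos : 0 < 2 * ((L : ℝ) - j) - 1 := by linarith
  have key : lin L j x = ((j : ℝ) * (2 * ((L : ℝ) - j) - 1) + (x + q L j)) /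
      (2 * ((L : ℝ) - j) - 1) := by
    unfold lin
    field_simp
  rw [key]
  apply div_nonpos_of_nonpos_of_nonneg _ hpos.le
  unfold q
  nlinarith

theorem Hr_nonpos_E6 (L : ℕ) (x : ℝ) (hx : x ≤ -(2 * (L : ℝ) ^ 2)) (n : ℕ) (hn : n < L) :
    Hr L x n ≤ 0 := by
  induction n with
  | zero => exact lin_nonpos_E6 L 0 hn x hx
  | succ n ih =>
    exact max_le (ih (by omega)) (lin_nonpos_E6 L (n + 1) hn x hx)

theorem Gf_nonpos_E6 (L : ℕ) (hL : 1 ≤ L) (x : ℝ) (hx : 2 * (L : ℝ) ^ 2 ≤ |x|) :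
    Gf L x ≤ 0 := by
  unfold Gf
  rcases le_or_gt 0 x with h | h
  · rw [abs_of_nonneg h] at hx
    exact (min_le_right _ _).trans ((min_le_right _ _).trans
      (Hr_nonpos_E6 L (-x) (by linarith) (L - 1) (by omega)))
  · rw [abs_of_neg h] at hx
    exact (min_le_right _ _).trans ((min_le_left _ _).trans
      (Hr_nonpos_E6 L x (by linarith) (L - 1) (by omega)))

theorem Hr_nonneg_E6 (L : ℕ) (hL : 1 ≤ L) (x : ℝ) (hx : -(2 * (L : ℝ) ^ 2) ≤ x) (n : ℕ) :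
    0 ≤ Hr L x n := by
  induction n with
  | zero =>
    have hL' : (1 : ℝ) ≤ (L : ℝ) := by exact_mod_cast hL
    change 0 ≤ lin L 0 x
    unfold lin q
    simp only [Nat.cast_zero, sub_zero, zero_add]
    apply div_nonneg
    · nlinarith
    · linarith
  | succ n ih => exact ih.trans (le_max_left _ _)

theorem Gf_nonneg_E6 (L : ℕ) (hL : 1 ≤ L) (x : ℝ) (hx : |x| ≤ 2 * (L : ℝ) ^ 2) :
    0 ≤ Gf L x := by
  have h := abs_le.1 hx
  unfold Gf
  refine le_min (Nat.cast_nonneg _) (le_min ?_ ?_)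
  · exact Hr_nonneg_E6 L hL x h.1 _
  · exact Hr_nonneg_E6 L hL (-x) (by linarith [h.2]) _

theorem cc_mono_E6 (L : ℕ) {a b : ℕ} (h : a ≤ b) : cc L a ≤ cc L b := by
  unfold cc
  have : (a : ℝ) ≤ (b : ℝ) := by exact_mod_cast h
  nlinarith [sq_nonneg (L : ℝ)]

theorem cc_lt_E6 (L : ℕ) {a b : ℕ} (h : a < b) : cc L a + 16 * (L : ℝ) ^ 2 ≤ cc L b := by
  unfold cc
  have : (a : ℝ) + 1 ≤ (b : ℝ) := by exact_mod_cast h
  nlinarith [sq_nonneg (L : ℝ)]

theorem Fr_zero_E6 (L : ℕ) (x : ℝ) (m : ℕ)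
    (h : ∀ i, 1 ≤ i → i ≤ m → Gf L (x - cc L i) ≤ 0) : Fr L x m = 0 := by
  induction m with
  | zero => rfl
  | succ m ih =>
    change max (Fr L x m) (Gf L (x - cc L (m + 1))) = 0
    rw [ih (fun i h1 h2 => h i h1 (by omega))]
    exact max_eq_left (h (m + 1) (by omega) le_rfl)

/-- the upper boundary over the gaps between two teeth -/
theorem Fr_gap (L m i : ℕ) (hL : 1 ≤ L) (x : ℝ) (h1 : cc L i + 2 * (L : ℝ) ^ 2 ≤ x)
    (h2 : x ≤ cc L (i + 1) - 2 * (L : ℝ) ^ 2) : Fr L x m = 0 := by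
  apply Fr_zero_E6
  intro i' _ _
  apply Gf_nonpos_E6 L hL
  rcases Nat.lt_or_ge i i' with h | h
  · have := cc_mono_E6 L (show i + 1 ≤ i' from h)
    exact le_trans (by linarith) (neg_le_abs _)
  · have := cc_mono_E6 L h
    exact le_trans (by linarith) (le_abs_self _)

theorem Gf_other_E6 (L i : ℕ) (hL : 1 ≤ L) (x : ℝ)
    (h : |x - cc L i| ≤ 2 * (L : ℝ) ^ 2) (i' : ℕ) (hne : i' ≠ i) :
    Gf L (x - cc L i') ≤ 0 := by
  have h' := abs_le.1 h
  have hL2 : (0 : ℝ) ≤ (L : ℝ) ^ 2 := sq_nonneg _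
  apply Gf_nonpos_E6 L hL
  rcases Nat.lt_or_ge i i' with h3 | h3
  · have := cc_lt_E6 L h3
    exact le_trans (by linarith [h'.2]) (neg_le_abs _)
  · have := cc_lt_E6 L (lt_of_le_of_ne h3 hne)
    exact le_trans (by linarith [h'.1]) (le_abs_self _)

/-- the upper boundary over a tooth -/
theorem Fr_tooth (L m i : ℕ) (hL : 1 ≤ L) (hi : 1 ≤ i) (him : i ≤ m) (x : ℝ)
    (h : |x - cc L i| ≤ 2 * (L : ℝ) ^ 2) : Fr L x m = Gf L (x - cc L i) := by
  induction m with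
  | zero => omega
  | succ m ih =>
    change max (Fr L x m) (Gf L (x - cc L (m + 1))) = _
    rcases Nat.lt_or_ge m i with h3 | h3
    · have him' : i = m + 1 := by omega
      subst him'
      rw [Fr_zero_E6 L x m (fun i' _ h5 => Gf_other_E6 L (m + 1) hL x h i' (by omega))]
      exact max_eq_right (Gf_nonneg_E6 L hL _ h)
    · rw [ih h3]
      apply max_eq_left
      exact (Gf_other_E6 L i hL x h (m + 1) (by omega)).trans (Gf_nonneg_E6 L hL _ h)

end Pool.Agent.H142.FS
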