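import Pool.Agent.H142.FS.Defs
import Pool.Agent.H142.FS.E6
import Pool.Agent.H142.FS.E5

set_option autoImplicit false

open Set Filter Topology

namespace Pool.Agent.H142.FS

theorem q_zero_E7 (L : ℕ) : q L 0 = 2 * (L : ℝ) ^ 2 := by
  unfold q; simp; ring

theorem q_self_E7 (L : ℕ) : q L L = (L : ℝ) ^ 2 := by
  unfold q; simp

theorem q_pos_E7 (L j : ℕ) (hL : 1 ≤ L) : 0 < q L j := by
  unfold q
  have : (1 : ℝ) ≤ L := by exact_mod_cast hL
  nlinarith [sq_nonneg ((L : ℝ) - j)]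

theorem q_le_E7 (L j : ℕ) (hj : j ≤ L) : q L j ≤ 2 * (L : ℝ) ^ 2 := by
  unfold q
  have h1 : (j : ℝ) ≤ L := by exact_mod_cast hj
  have h2 : (0 : ℝ) ≤ j := Nat.cast_nonneg j
  nlinarith

theorem q_lt_E7 (L j : ℕ) (hj : j < L) : q L (j + 1) < q L j := by
  unfold q
  have h1 : (j : ℝ) + 1 ≤ L := by exact_mod_cast hj
  push_cast
  nlinarith

theorem pos_U_E7 (L i j : ℕ) (hj : j ≤ L) : pos L ((2 * L + 2) * i + j) = U L i j := by
  have h1 : ((2 * L + 2) * i + j) / (2 * L + 2) = i := by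
    rw [Nat.mul_add_div (by omega), Nat.div_eq_of_lt (by omega), Nat.add_zero]
  have h2 : ((2 * L + 2) * i + j) % (2 * L + 2) = j := by
    rw [Nat.mul_add_mod, Nat.mod_eq_of_lt (by omega)]
  unfold pos
  rw [h1, h2, if_pos hj]

theorem pos_W_E7 (L i j : ℕ) (hj : L < j) (hj2 : j < 2 * L + 2) :
    pos L ((2 * L + 2) * i + j) = W L i (2 * L + 1 - j) := by
  have h1 : ((2 * L + 2) * i + j) / (2 * L + 2) = i := by
    rw [Nat.mul_add_div (by omega), Nat.div_eq_of_lt (by omega), Nat.add_zero]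
  have h2 : ((2 * L + 2) * i + j) % (2 * L + 2) = j := by
    rw [Nat.mul_add_mod, Nat.mod_eq_of_lt (by omega)]
  unfold pos
  rw [h1, h2, if_neg (by omega)]

theorem Gf_q_E7 (L j : ℕ) (hL : 1 ≤ L) (hj : j ≤ L) : Gf L (-q L j) = j := by
  rcases Nat.lt_or_ge j L with h | h
  · rw [Gf_left L j h _ le_rfl (by linarith [q_lt_E7 L j h])]
    unfold lin
    simp
  · have : j = L := by omega
    subst this
    rw [Gf_mid j hL _ (by
      rw [abs_neg, abs_of_pos (q_pos_E7 j j hL), q_self_E7])]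

/-- the upper boundary has the vertices `pos` and is affine between them -/
theorem Fr_pos (L m k : ℕ) (hL : 1 ≤ L) (hk : k ≤ m * (2 * L + 2) + 1) :
    Fr L (pos L (k + (2 * L + 1))).1 m = (pos L (k + (2 * L + 1))).2 := by
  have hL' : (1 : ℝ) ≤ L := by exact_mod_cast hL
  obtain ⟨i, j, hj, hK⟩ : ∃ i j, j < 2 * L + 2 ∧ k + (2 * L + 1) = (2 * L + 2) * i + j :=
    ⟨(k + (2 * L + 1)) / (2 * L + 2), (k + (2 * L + 1)) % (2 * L + 2),
      Nat.mod_lt _ (by omega), (Nat.div_add_mod _ _).symm⟩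
  have hKle : (2 * L + 2) * i + j ≤ (2 * L + 2) * (m + 1) := by
    rw [← hK]
    have : (2 * L + 2) * (m + 1) = m * (2 * L + 2) + 1 + (2 * L + 1) := by ring
    omega
  rw [hK]
  rcases Nat.eq_zero_or_pos i with hi | hi
  · subst hi
    have hj' : j = 2 * L + 1 := by omega
    subst hj'
    rw [pos_W_E7 L 0 (2 * L + 1) (by omega) (by omega), Nat.sub_self]
    show Fr L (cc L 0 + q L 0) m = ((0 : ℕ) : ℝ)
    rw [q_zero_E7, Nat.cast_zero]
    apply Fr_gap L m 0 hL
    · exact le_rfl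
    · unfold cc; push_cast; nlinarith
  · rcases Nat.lt_or_ge m i with hm | hm
    · have hi1 : i = m + 1 := by
        have : i ≤ m + 1 := by
          by_contra hcon
          push Not at hcon
          have : (2 * L + 2) * (m + 1 + 1) ≤ (2 * L + 2) * i := Nat.mul_le_mul_left _ (by omega)
          rw [Nat.mul_add] at this
          omega
        omega
      subst hi1
      have hj0 : j = 0 := by omega
      subst hj0
      rw [pos_U_E7 L (m + 1) 0 (by omega)]
      show Fr L (cc L (m + 1) - q L 0) m = ((0 : ℕ) : ℝ)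
      rw [q_zero_E7, Nat.cast_zero]
      apply Fr_gap L m m hL
      · unfold cc; push_cast; nlinarith
      · exact le_rfl
    · rcases Nat.lt_or_ge L j with hjL | hjL
      · rw [pos_W_E7 L i j hjL hj]
        have h1 : 2 * L + 1 - j ≤ L := by omega
        generalize 2 * L + 1 - j = a at h1
        show Fr L (cc L i + q L a) m = (a : ℝ)
        rw [Fr_tooth L m i hL hi hm _ (by
          rw [add_sub_cancel_left, abs_of_pos (q_pos_E7 L a hL)]; exact q_le_E7 L a h1),
          add_sub_cancel_left, ← Gf_neg, Gf_q_E7 L a hL h1]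
      · rw [pos_U_E7 L i j hjL]
        show Fr L (cc L i - q L j) m = (j : ℝ)
        have e : cc L i - q L j - cc L i = - q L j := by ring
        rw [Fr_tooth L m i hL hi hm _ (by
          rw [e, abs_neg, abs_of_pos (q_pos_E7 L j hL)]; exact q_le_E7 L j hjL),
          e, Gf_q_E7 L j hL hjL]

theorem pos_lt (L k : ℕ) (hL : 1 ≤ L) : (pos L k).1 < (pos L (k + 1)).1 := by
  have hL' : (1 : ℝ) ≤ L := by exact_mod_cast hL
  obtain ⟨i, j, hj, hK⟩ : ∃ i j, j < 2 * L + 2 ∧ k = (2 * L + 2) * i + j :=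
    ⟨k / (2 * L + 2), k % (2 * L + 2), Nat.mod_lt _ (by omega), (Nat.div_add_mod _ _).symm⟩
  subst hK
  rw [Nat.add_assoc]
  rcases Nat.lt_or_ge j L with h1 | h1
  · rw [pos_U_E7 L i j (by omega), pos_U_E7 L i (j + 1) (by omega)]
    show cc L i - q L j < cc L i - q L (j + 1)
    linarith [q_lt_E7 L j h1]
  · rcases Nat.eq_or_lt_of_le h1 with h2 | h2
    · subst h2
      rw [pos_U_E7 L i L le_rfl, pos_W_E7 L i (L + 1) (by omega) (by omega)]
      show cc L i - q L L < cc L i + q L (2 * L + 1 - (L + 1))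
      have := q_pos_E7 L L hL
      have := q_pos_E7 L (2 * L + 1 - (L + 1)) hL
      linarith
    · rcases Nat.lt_or_ge (j + 1) (2 * L + 2) with h3 | h3
      · rw [pos_W_E7 L i j h2 hj, pos_W_E7 L i (j + 1) (by omega) h3]
        show cc L i + q L (2 * L + 1 - j) < cc L i + q L (2 * L + 1 - (j + 1))
        have h4 : 2 * L + 1 - j = (2 * L + 1 - (j + 1)) + 1 := by omega
        rw [h4]
        linarith [q_lt_E7 L (2 * L + 1 - (j + 1)) (by omega)]
      · have h4 : j = 2 * L + 1 := by omega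
        subst h4
        have h5 : (2 * L + 2) * i + (2 * L + 1 + 1) = (2 * L + 2) * (i + 1) + 0 := by ring
        rw [h5, pos_W_E7 L i (2 * L + 1) (by omega) (by omega), pos_U_E7 L (i + 1) 0 (by omega),
          Nat.sub_self]
        show cc L i + q L 0 < cc L (i + 1) - q L 0
        rw [q_zero_E7]
        unfold cc
        push_cast
        nlinarith

theorem pos_ends (L m : ℕ) : pos L (2 * L + 1) = (lft L, 0) ∧
    pos L (m * (2 * L + 2) + 1 + (2 * L + 1)) = (rgt L m, 0) := by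
  constructor
  · have h : 2 * L + 1 = (2 * L + 2) * 0 + (2 * L + 1) := by ring
    have h2 : pos L (2 * L + 1) = W L 0 (2 * L + 1 - (2 * L + 1)) := by
      conv_lhs => rw [h]
      rw [pos_W_E7 L 0 (2 * L + 1) (by omega) (by omega)]
    rw [h2, Nat.sub_self]
    show (cc L 0 + q L 0, ((0 : ℕ) : ℝ)) = (lft L, 0)
    rw [q_zero_E7]
    unfold cc lft
    simp
  · have h : m * (2 * L + 2) + 1 + (2 * L + 1) = (2 * L + 2) * (m + 1) + 0 := by ring
    rw [h, pos_U_E7 L (m + 1) 0 (by omega)]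
    show (cc L (m + 1) - q L 0, ((0 : ℕ) : ℝ)) = (rgt L m, 0)
    rw [q_zero_E7]
    unfold rgt
    simp

end Pool.Agent.H142.FS
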