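import Pool.Agent.H142.FS.Defs
import Pool.Agent.H142.FS.E6
import Pool.Agent.H142.FS.E5

set_option autoImplicit false

open Set Filter Topology

namespace Pool.Agent.H142.FS

theorem pos_E8 (L i j : ℕ) (hj : j < 2 * L + 2) :
    pos L ((2 * L + 2) * i + j) = if j ≤ L then U L i j else W L i (2 * L + 1 - j) := by
  have h1 : ((2 * L + 2) * i + j) % (2 * L + 2) = j := by
    rw [Nat.mul_add_mod, Nat.mod_eq_of_lt hj]
  have h2 : ((2 * L + 2) * i + j) / (2 * L + 2) = i := by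
    rw [Nat.mul_add_div (by omega), Nat.div_eq_of_lt hj, Nat.add_zero]
  unfold pos
  rw [h1, h2]

theorem q_diff_E8 (L j : ℕ) : q L j - q L (j + 1) = 2 * ((L : ℝ) - j) - 1 := by
  unfold q
  push_cast
  ring

theorem q_nonneg_E8 (L j : ℕ) : 0 ≤ q L j := by
  unfold q
  positivity

theorem q_le_E8 (L j : ℕ) (hj : j ≤ L) : q L j ≤ 2 * (L : ℝ) ^ 2 := by
  unfold q
  have h1 : (j : ℝ) ≤ L := by exact_mod_cast hj
  have h2 : (0 : ℝ) ≤ j := Nat.cast_nonneg j
  nlinarith

theorem den_pos_E8 (L j : ℕ) (hj : j < L) : (0 : ℝ) < 2 * ((L : ℝ) - j) - 1 := by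
  have h1 : (j : ℝ) + 1 ≤ L := by exact_mod_cast hj
  linarith

/-- on the left chain -/
theorem Gf_chain_E8 (L j : ℕ) (hj : j < L) (s : ℝ) (h0 : 0 ≤ s) (h1 : s ≤ 1) :
    Gf L (-((1 - s) * q L j + s * q L (j + 1))) = (1 - s) * (j : ℝ) + s * ((j + 1 : ℕ) : ℝ) := by
  have hd := q_diff_E8 L j
  have hp := den_pos_E8 L j hj
  rw [Gf_left L j hj]
  · unfold lin
    have h2 : -((1 - s) * q L j + s * q L (j + 1)) + q L j = s * (2 * ((L : ℝ) - j) - 1) := by
      rw [← hd]
      ring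
    rw [h2, mul_div_assoc, div_self hp.ne', mul_one]
    push_cast
    ring
  · nlinarith
  · nlinarith

theorem Fr_aff (L m k : ℕ) (hL : 1 ≤ L) (hk : k < m * (2 * L + 2) + 1) (s : ℝ) (h0 : 0 ≤ s)
    (h1 : s ≤ 1) :
    Fr L ((1 - s) * (pos L (k + (2 * L + 1))).1 + s * (pos L (k + 1 + (2 * L + 1))).1) m =
      (1 - s) * (pos L (k + (2 * L + 1))).2 + s * (pos L (k + 1 + (2 * L + 1))).2 := by
  obtain ⟨i, j, hj, hK⟩ : ∃ i j, j < 2 * L + 2 ∧ k + (2 * L + 1) = (2 * L + 2) * i + j :=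
    ⟨(k + (2 * L + 1)) / (2 * L + 2), (k + (2 * L + 1)) % (2 * L + 2),
      Nat.mod_lt _ (by omega), (Nat.div_add_mod _ _).symm⟩
  have him : i ≤ m := by
    by_contra h
    have h2 : m + 1 ≤ i := by omega
    have h3 : (2 * L + 2) * (m + 1) ≤ (2 * L + 2) * i := Nat.mul_le_mul_left _ h2
    nlinarith
  have hi1 : j ≤ 2 * L → 1 ≤ i := by
    intro h
    rcases Nat.eq_zero_or_pos i with h2 | h2
    · subst h2
      omega
    · exact h2
  have hK1 : k + 1 + (2 * L + 1) = (2 * L + 2) * i + (j + 1) := by omega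
  rcases Nat.lt_or_ge j L with hjL | hjL
  · -- left chain
    rw [hK1, hK, pos_E8 L i j hj, pos_E8 L i (j + 1) (by omega), if_pos hjL.le,
      if_pos (by omega : j + 1 ≤ L)]
    simp only [U]
    have e : (1 - s) * (cc L i - q L j) + s * (cc L i - q L (j + 1)) - cc L i
        = -((1 - s) * q L j + s * q L (j + 1)) := by ring
    have hq1 := q_le_E8 L j hjL.le
    have hq2 := q_le_E8 L (j + 1) (by omega)
    have hq3 := q_nonneg_E8 L j
    have hq4 := q_nonneg_E8 L (j + 1)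
    rw [Fr_tooth L m i hL (hi1 (by omega)) him, e, Gf_chain_E8 L j hjL s h0 h1]
    rw [e, abs_neg, abs_of_nonneg (by nlinarith)]
    nlinarith
  rcases Nat.eq_or_lt_of_le hjL with hjL2 | hjL2
  · -- roof
    subst hjL2
    rw [hK1, hK, pos_E8 L i L hj, pos_E8 L i (L + 1) (by omega), if_pos le_rfl,
      if_neg (by omega : ¬ L + 1 ≤ L), show 2 * L + 1 - (L + 1) = L by omega]
    simp only [U, W]
    have hq : q L L = (L : ℝ) ^ 2 := by
      unfold q
      ring
    have e : (1 - s) * (cc L i - q L L) + s * (cc L i + q L L) - cc L i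
        = (2 * s - 1) * (L : ℝ) ^ 2 := by
      rw [hq]
      ring
    have hL2 : (0 : ℝ) ≤ (L : ℝ) ^ 2 := by positivity
    have habs : |(2 * s - 1) * (L : ℝ) ^ 2| ≤ (L : ℝ) ^ 2 := by
      rw [abs_le]
      constructor <;> nlinarith
    rw [Fr_tooth L m i hL (hi1 (by omega)) him, e, Gf_mid L hL _ habs]
    · ring
    · rw [e]
      linarith
  rcases Nat.lt_or_ge j (2 * L + 1) with hj3 | hj3
  · -- right chain
    obtain ⟨j', hj'⟩ : ∃ j', j' + j = 2 * L := ⟨2 * L - j, by omega⟩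
    have hj'L : j' < L := by omega
    rw [hK1, hK, pos_E8 L i j hj, pos_E8 L i (j + 1) (by omega), if_neg (by omega : ¬ j ≤ L),
      if_neg (by omega : ¬ j + 1 ≤ L), show 2 * L + 1 - j = j' + 1 by omega,
      show 2 * L + 1 - (j + 1) = j' by omega]
    simp only [W]
    have e : (1 - s) * (cc L i + q L (j' + 1)) + s * (cc L i + q L j') - cc L i
        = (1 - s) * q L (j' + 1) + s * q L j' := by ring
    have hq1 := q_le_E8 L j' hj'L.le
    have hq2 := q_le_E8 L (j' + 1) (by omega)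
    have hq3 := q_nonneg_E8 L j'
    have hq4 := q_nonneg_E8 L (j' + 1)
    have e2 : (1 - s) * q L (j' + 1) + s * q L j'
        = - -((1 - (1 - s)) * q L j' + (1 - s) * q L (j' + 1)) := by ring
    rw [Fr_tooth L m i hL (hi1 (by omega)) him, e, e2, Gf_neg,
      Gf_chain_E8 L j' hj'L (1 - s) (by linarith) (by linarith)]
    · ring
    · rw [e, abs_of_nonneg (by nlinarith)]
      nlinarith
  · -- gap
    have hj4 : j = 2 * L + 1 := by omega
    subst hj4
    have hK2 : k + 1 + (2 * L + 1) = (2 * L + 2) * (i + 1) + 0 := by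
      rw [hK1]
      ring
    rw [hK2, hK, pos_E8 L i (2 * L + 1) hj, pos_E8 L (i + 1) 0 (by omega),
      if_neg (by omega : ¬ 2 * L + 1 ≤ L), if_pos (Nat.zero_le _),
      show 2 * L + 1 - (2 * L + 1) = 0 by omega]
    simp only [U, W]
    have hq : q L 0 = 2 * (L : ℝ) ^ 2 := by
      unfold q
      push_cast
      ring
    have hcc : cc L (i + 1) = cc L i + 16 * (L : ℝ) ^ 2 := by
      unfold cc
      push_cast
      ring
    have hL2 : (0 : ℝ) ≤ (L : ℝ) ^ 2 := by positivity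
    rw [Fr_gap L m i hL]
    · simp
    · rw [hcc, hq]
      nlinarith
    · rw [hcc, hq]
      nlinarith

end Pool.Agent.H142.FS
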