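import Pool.Agent.H142.FS.Defs
import Pool.Agent.H142.FS.E3
import Pool.Agent.H142.FS.E4
import Pool.Agent.H142.FS.E7
import Pool.Agent.H142.FS.E8

set_option autoImplicit false

open Set Filter Topology

namespace Pool.Agent.H142.FS

theorem simple (L m : ℕ) (hL : 1 ≤ L) : IsSimplePolygon (nv L m) (vert L m) (Poly L m) := by
  have hF0 := (Fr_cont L m).2
  have hends := pos_ends L m
  have hpt : ∀ k, k ≤ m * (2 * L + 2) + 1 →
      pos L (k + (2 * L + 1)) =
        ((pos L (k + (2 * L + 1))).1, Fr L (pos L (k + (2 * L + 1))).1 m) := by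
    intro k hk
    rw [Fr_pos L m k hL hk]
  have key := mountain (m * (2 * L + 2) + 1) (by omega)
    (fun k => (pos L (k + (2 * L + 1))).1)
    (fun i _ => by
      have h := pos_lt L (i + (2 * L + 1)) hL
      have e : i + 1 + (2 * L + 1) = i + (2 * L + 1) + 1 := by ring
      show (pos L (i + (2 * L + 1))).1 < (pos L (i + 1 + (2 * L + 1))).1
      rw [e]
      exact h)
    (fun x => Fr L x m) (Fr_cont L m).1 (fun t => by have := hF0 t; linarith)
    (fun i hi s h0 h1 => by
      have h := Fr_aff L m i hL hi s h0 h1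
      have e1 := Fr_pos L m i hL hi.le
      have e2 := Fr_pos L m (i + 1) hL hi
      show Fr L ((1 - s) * (pos L (i + (2 * L + 1))).1 +
          s * (pos L (i + 1 + (2 * L + 1))).1) m =
        (1 - s) * Fr L (pos L (i + (2 * L + 1))).1 m +
          s * Fr L (pos L (i + 1 + (2 * L + 1))).1 m
      rw [e1, e2]
      exact h)
    (vert L m)
    (fun i hi => by
      have h : vert L m i = pos L (i + (2 * L + 1)) := by
        unfold vert
        rw [if_pos hi]
      rw [h]
      exact hpt i hi)
    (by
      show vert L m (m * (2 * L + 2) + 1 + 1) =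
        ((pos L (m * (2 * L + 2) + 1 + (2 * L + 1))).1, -1)
      rw [hends.2]
      unfold vert
      rw [if_neg (by omega), if_pos (by omega)])
    (by
      show vert L m (m * (2 * L + 2) + 1 + 2) = ((pos L (0 + (2 * L + 1))).1, -1)
      rw [zero_add, hends.1]
      unfold vert
      rw [if_neg (by omega), if_neg (by omega), if_pos (by omega)])
    (by
      show vert L m (m * (2 * L + 2) + 1 + 3) = vert L m 0
      unfold vert
      rw [if_neg (by omega), if_neg (by omega), if_neg (by omega), if_pos (by omega), zero_add])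
  have hP : Poly L m = {p : Pt | (pos L (0 + (2 * L + 1))).1 ≤ p.1 ∧
      p.1 ≤ (pos L (m * (2 * L + 2) + 1 + (2 * L + 1))).1 ∧ -1 ≤ p.2 ∧
      p.2 ≤ Fr L p.1 m} := by
    rw [Poly_eq L m hL, zero_add, hends.1, hends.2]
  rw [hP]
  exact key

end Pool.Agent.H142.FS
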