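import Pool.Agent.H142.FS.Defs
import Pool.Agent.H142.FS.C2

set_option autoImplicit false

open Set Filter Topology

namespace Pool.Agent.H142.FS

theorem orient1_F1 (L i j : ℕ) (hj : j < L) : orient (U L i j) (U L i (j + 1)) (W L i 0) < 0 := by
  have h1 : (j : ℝ) + 1 ≤ L := by exact_mod_cast hj
  have h0 : (0 : ℝ) ≤ j := Nat.cast_nonneg j
  simp only [orient, U, W, q]
  push_cast
  nlinarith [mul_nonneg h0 (sub_nonneg.2 h1), sq_nonneg ((L : ℝ) - j), sq_nonneg (L : ℝ),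
    mul_pos (show (0 : ℝ) < L by linarith) (show (0 : ℝ) < L by linarith)]

theorem orient2_F1 (L i j : ℕ) (hj : j < L) : 0 < orient (W L i j) (W L i (j + 1)) (U L i L) := by
  have h1 : (j : ℝ) + 1 ≤ L := by exact_mod_cast hj
  have h0 : (0 : ℝ) ≤ j := Nat.cast_nonneg j
  simp only [orient, U, W, q]
  push_cast
  have h2 : 0 ≤ ((L : ℝ) - j) * (j : ℝ) := mul_nonneg (by linarith) h0
  nlinarith [mul_nonneg h0 (sub_nonneg.2 h1), sq_nonneg ((L : ℝ) - j), sq_nonneg (L : ℝ),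
    mul_pos (show (0 : ℝ) < L by linarith) (show (0 : ℝ) < L by linarith)]

theorem Z_snd_F1 (L k : ℕ) : (Z L k).2 = 0 := by
  unfold Z
  split_ifs <;> simp [U, W]

theorem Z_fst_F1 (L k : ℕ) (hL : 1 ≤ L) : (Z L k).1 < (Z L (k + 1)).1 := by
  have hL' : (1 : ℝ) ≤ L := by exact_mod_cast hL
  rcases Nat.even_or_odd' k with ⟨r, hr | hr⟩
  · have e1 : Z L k = W L r 0 := by
      unfold Z
      rw [if_pos (by omega)]
      congr 1
      omega
    have e2 : Z L (k + 1) = U L (r + 1) 0 := by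
      unfold Z
      rw [if_neg (by omega)]
      congr 1
      omega
    rw [e1, e2]
    simp only [U, W, q, cc]
    push_cast
    nlinarith
  · have e1 : Z L k = U L (r + 1) 0 := by
      unfold Z
      rw [if_neg (by omega)]
      congr 1
      omega
    have e2 : Z L (k + 1) = W L (r + 1) 0 := by
      unfold Z
      rw [if_pos (by omega)]
      congr 1
      omega
    rw [e1, e2]
    simp only [U, W, q, cc]
    push_cast
    nlinarith

theorem Z_last_F1 (L m : ℕ) : Z L (2 * m + 1) = U L (m + 1) 0 := by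
  unfold Z
  rw [if_neg (by omega)]
  congr 1
  omega

theorem Z_mem_F1 (L m k : ℕ) (hk : k ≤ 2 * m + 1) : Z L k ∈ V L m := by
  rw [mem_V]
  rcases Nat.even_or_odd' k with ⟨r, hr | hr⟩
  · have e1 : Z L k = W L r 0 := by
      unfold Z
      rw [if_pos (by omega)]
      congr 1
      omega
    rw [e1]
    rcases Nat.eq_zero_or_pos r with h0 | h0
    · right; left; rw [h0]
    · left
      exact ⟨r, 0, h0, by omega, Nat.zero_le _, Or.inr rfl⟩
  · have e1 : Z L k = U L (r + 1) 0 := by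
      unfold Z
      rw [if_neg (by omega)]
      congr 1
      omega
    rw [e1]
    by_cases h : r = m
    · right; right; left; rw [h]
    · left
      exact ⟨r + 1, 0, by omega, by omega, Nat.zero_le _, Or.inl rfl⟩

theorem T1_cases_F1 (L m : ℕ) (t : Finset Pt) (ht : t ∈ T1 L m) :
    (∃ i j, 1 ≤ i ∧ i ≤ m ∧ j < L ∧ t = {U L i j, U L i (j + 1), W L i 0}) ∨
    (∃ i j, 1 ≤ i ∧ i ≤ m ∧ j < L ∧ t = {W L i j, W L i (j + 1), U L i L}) ∨
    (∃ k, k < 2 * m + 1 ∧ t = {(lft L, -1), Z L k, Z L (k + 1)}) ∨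
    t = {(lft L, -1), Z L (2 * m + 1), (rgt L m, -1)} := by
  unfold T1 at ht
  rw [Finset.mem_union, Finset.mem_union, Finset.mem_union, Finset.mem_image, Finset.mem_image,
    Finset.mem_image, Finset.mem_singleton] at ht
  rcases ht with ((⟨⟨i, j⟩, hx, rfl⟩ | ⟨⟨i, j⟩, hx, rfl⟩) | ⟨k, hk, rfl⟩) | ht
  · rw [Finset.mem_product, Finset.mem_Icc, Finset.mem_range] at hx
    exact Or.inl ⟨i, j, hx.1.1, hx.1.2, hx.2, rfl⟩
  · rw [Finset.mem_product, Finset.mem_Icc, Finset.mem_range] at hx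
    exact Or.inr (Or.inl ⟨i, j, hx.1.1, hx.1.2, hx.2, rfl⟩)
  · rw [Finset.mem_range] at hk
    exact Or.inr (Or.inr (Or.inl ⟨k, hk, rfl⟩))
  · exact Or.inr (Or.inr (Or.inr ht))

theorem T1_tri (L m : ℕ) (hL : 1 ≤ L) : ∀ t ∈ T1 L m, IsTri t := by
  intro t ht
  rcases T1_cases_F1 L m t ht with ⟨i, j, _, _, hj, rfl⟩ | ⟨i, j, _, _, hj, rfl⟩ | ⟨k, _, rfl⟩ | rfl
  · exact ⟨_, _, _, (orient1_F1 L i j hj).ne, rfl⟩
  · exact ⟨_, _, _, (orient2_F1 L i j hj).ne', rfl⟩
  · refine ⟨_, _, _, ?_, rfl⟩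
    have h := Z_fst_F1 L k hL
    have h1 := Z_snd_F1 L k
    have h2 := Z_snd_F1 L (k + 1)
    simp only [orient, h1, h2]
    intro h3
    linarith
  · refine ⟨_, _, _, ?_, rfl⟩
    have h1 := Z_snd_F1 L (2 * m + 1)
    have hL' : (1 : ℝ) ≤ L := by exact_mod_cast hL
    have hm : (0 : ℝ) ≤ m := Nat.cast_nonneg m
    simp only [orient, h1, lft, rgt, cc]
    push_cast
    intro h3
    nlinarith [mul_nonneg hm (sq_nonneg (L : ℝ))]

theorem T1_verts (L m : ℕ) : ∀ t ∈ T1 L m, t ⊆ V L m := by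
  intro t ht
  have hUW : ∀ i j, 1 ≤ i → i ≤ m → j ≤ L → U L i j ∈ V L m ∧ W L i j ∈ V L m := by
    intro i j h1 h2 h3
    rw [mem_V, mem_V]
    exact ⟨Or.inl ⟨i, j, h1, h2, h3, Or.inl rfl⟩, Or.inl ⟨i, j, h1, h2, h3, Or.inr rfl⟩⟩
  have hl : ((lft L, -1) : Pt) ∈ V L m := by
    rw [mem_V]; right; right; right; left; rfl
  have hr : ((rgt L m, -1) : Pt) ∈ V L m := by
    rw [mem_V]; right; right; right; right; rfl
  rcases T1_cases_F1 L m t ht with ⟨i, j, h1, h2, hj, rfl⟩ | ⟨i, j, h1, h2, hj, rfl⟩ | ⟨k, hk, rfl⟩ | rfl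
  · intro p hp
    rw [Finset.mem_insert, Finset.mem_insert, Finset.mem_singleton] at hp
    rcases hp with rfl | rfl | rfl
    · exact (hUW i j h1 h2 hj.le).1
    · exact (hUW i (j + 1) h1 h2 hj).1
    · exact (hUW i 0 h1 h2 (Nat.zero_le _)).2
  · intro p hp
    rw [Finset.mem_insert, Finset.mem_insert, Finset.mem_singleton] at hp
    rcases hp with rfl | rfl | rfl
    · exact (hUW i j h1 h2 hj.le).2
    · exact (hUW i (j + 1) h1 h2 hj).2
    · exact (hUW i L h1 h2 le_rfl).1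
  · intro p hp
    rw [Finset.mem_insert, Finset.mem_insert, Finset.mem_singleton] at hp
    rcases hp with rfl | rfl | rfl
    · exact hl
    · exact Z_mem_F1 L m k (by omega)
    · exact Z_mem_F1 L m (k + 1) (by omega)
  · intro p hp
    rw [Finset.mem_insert, Finset.mem_insert, Finset.mem_singleton] at hp
    rcases hp with rfl | rfl | rfl
    · exact hl
    · exact Z_mem_F1 L m _ le_rfl
    · exact hr

end Pool.Agent.H142.FS
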