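import Pool.Agent.H142.FS.Defs
import Pool.Agent.H142.FS.A1

set_option autoImplicit false

open Set Filter Topology

namespace Pool.Agent.H142.FS

theorem fl1_F2 (L e : ℕ) (c : ℝ) (t : Finset Pt) (h : ∀ v ∈ t, fl L e (v.1 - c) v.2 ≤ 0)
    {p : Pt} (hp : p ∈ hull t) : fl L e (p.1 - c) p.2 ≤ 0 := by
  have h1 := hull_le (-1) (2 * ((L : ℝ) - e) - 1) (q L e - c + (2 * ((L : ℝ) - e) - 1) * e) t
    (fun v hv => by
      have h2 := h v hv
      unfold fl at h2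
      linarith) hp
  unfold fl
  linarith

theorem fl2_F2 (L e : ℕ) (c : ℝ) (t : Finset Pt) (h : ∀ v ∈ t, fl L e (-(v.1 - c)) v.2 ≤ 0)
    {p : Pt} (hp : p ∈ hull t) : fl L e (-(p.1 - c)) p.2 ≤ 0 := by
  have h1 := hull_le 1 (2 * ((L : ℝ) - e) - 1) (q L e + c + (2 * ((L : ℝ) - e) - 1) * e) t
    (fun v hv => by
      have h2 := h v hv
      unfold fl at h2
      linarith) hp
  unfold fl
  linarith

theorem box_F2 (a b c d : ℝ) (t : Finset Pt)
    (h : ∀ v ∈ t, a ≤ v.1 ∧ v.1 ≤ b ∧ c ≤ v.2 ∧ v.2 ≤ d)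
    {p : Pt} (hp : p ∈ hull t) : a ≤ p.1 ∧ p.1 ≤ b ∧ c ≤ p.2 ∧ p.2 ≤ d := by
  refine ⟨?_, ?_, ?_, ?_⟩
  · have h1 := hull_le (-1) 0 (-a) t (fun v hv => by
      have := (h v hv).1
      linarith) hp
    linarith
  · have h1 := hull_le 1 0 b t (fun v hv => by
      have := (h v hv).2.1
      linarith) hp
    linarith
  · have h1 := hull_le 0 (-1) (-c) t (fun v hv => by
      have := (h v hv).2.2.1
      linarith) hp
    linarith
  · have h1 := hull_le 0 1 d t (fun v hv => by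
      have := (h v hv).2.2.2
      linarith) hp
    linarith

theorem strip_F2 (c d : ℝ) (t : Finset Pt)
    (h : ∀ v ∈ t, c ≤ v.2 ∧ v.2 ≤ d)
    {p : Pt} (hp : p ∈ hull t) : c ≤ p.2 ∧ p.2 ≤ d := by
  refine ⟨?_, ?_⟩
  · have h1 := hull_le 0 (-1) (-c) t (fun v hv => by
      have := (h v hv).1
      linarith) hp
    linarith
  · have h1 := hull_le 0 1 d t (fun v hv => by
      have := (h v hv).2
      linarith) hp
    linarith

theorem q0_F2 (L : ℕ) : q L 0 = 2 * (L : ℝ) ^ 2 := by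
  unfold q
  push_cast
  ring

theorem cc_mono_F2 (L i j : ℕ) (h : i ≤ j) : cc L i ≤ cc L j := by
  unfold cc
  have h1 : (i : ℝ) ≤ j := by exact_mod_cast h
  have h2 : (0 : ℝ) ≤ 16 * (L : ℝ) ^ 2 := by positivity
  exact mul_le_mul_of_nonneg_left h1 h2

theorem cc_succ_F2 (L i : ℕ) : cc L (i + 1) = cc L i + 16 * (L : ℝ) ^ 2 := by
  unfold cc
  push_cast
  ring

theorem cc_zero_F2 (L : ℕ) : cc L 0 = 0 := by
  unfold cc
  simp

theorem Z_F2 (L m k : ℕ) (hk : k ≤ 2 * m + 1) :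
    lft L ≤ (Z L k).1 ∧ (Z L k).1 ≤ rgt L m ∧ -1 ≤ (Z L k).2 ∧ (Z L k).2 ≤ 0 := by
  have hL2 : (0 : ℝ) ≤ (L : ℝ) ^ 2 := by positivity
  have hq := q0_F2 L
  unfold Z
  split_ifs with h
  · have h1 : cc L 0 ≤ cc L (k / 2) := cc_mono_F2 L _ _ (Nat.zero_le _)
    have h2 : cc L (k / 2) ≤ cc L m := cc_mono_F2 L _ _ (by omega)
    have h3 := cc_succ_F2 L m
    have h4 := cc_zero_F2 L
    refine ⟨?_, ?_, ?_, ?_⟩
    · show lft L ≤ cc L (k / 2) + q L 0
      unfold lft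
      linarith
    · show cc L (k / 2) + q L 0 ≤ rgt L m
      unfold rgt
      linarith
    · show (-1 : ℝ) ≤ ((0 : ℕ) : ℝ)
      norm_num
    · show ((0 : ℕ) : ℝ) ≤ 0
      norm_num
  · have h1 : cc L (0 + 1) ≤ cc L (k / 2 + 1) := cc_mono_F2 L _ _ (by omega)
    have h2 : cc L (k / 2 + 1) ≤ cc L (m + 1) := cc_mono_F2 L _ _ (by omega)
    have h3 := cc_succ_F2 L 0
    have h4 := cc_zero_F2 L
    refine ⟨?_, ?_, ?_, ?_⟩
    · show lft L ≤ cc L (k / 2 + 1) - q L 0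
      unfold lft
      linarith
    · show cc L (k / 2 + 1) - q L 0 ≤ rgt L m
      unfold rgt
      linarith
    · show (-1 : ℝ) ≤ ((0 : ℕ) : ℝ)
      norm_num
    · show ((0 : ℕ) : ℝ) ≤ 0
      norm_num

theorem rgt_F2 (L m : ℕ) : lft L ≤ rgt L m := by
  have hL2 : (0 : ℝ) ≤ (L : ℝ) ^ 2 := by positivity
  have h1 : cc L (0 + 1) ≤ cc L (m + 1) := cc_mono_F2 L _ _ (by omega)
  have h3 := cc_succ_F2 L 0
  have h4 := cc_zero_F2 L
  unfold lft rgt
  linarith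

/-- a triangle whose vertices satisfy the conditions of the `i`-th tooth -/
theorem tooth_F2 (L m i e e' : ℕ) (hi : 1 ≤ i) (him : i ≤ m) (he : e < L) (he' : e' < L)
    (t : Finset Pt)
    (h : ∀ v ∈ t, 0 ≤ v.2 ∧ v.2 ≤ L ∧ fl L e (v.1 - cc L i) v.2 ≤ 0 ∧
      fl L e' (-(v.1 - cc L i)) v.2 ≤ 0) : hull t ⊆ Poly L m := by
  intro p hp
  refine Or.inr ⟨i, hi, him, ?_⟩
  have h1 := strip_F2 0 (L : ℝ) t (fun v hv => ⟨(h v hv).1, (h v hv).2.1⟩) hp
  exact ⟨h1.1, h1.2, ⟨e, he, fl1_F2 L e (cc L i) t (fun v hv => (h v hv).2.2.1) hp⟩,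
    ⟨e', he', fl2_F2 L e' (cc L i) t (fun v hv => (h v hv).2.2.2) hp⟩⟩

theorem T1_sub (L m : ℕ) (hL : 1 ≤ L) : ∀ t ∈ T1 L m, hull t ⊆ Poly L m := by
  have hLr : (1 : ℝ) ≤ L := by exact_mod_cast hL
  intro t ht
  unfold T1 at ht
  simp only [Finset.mem_union, Finset.mem_image, Finset.mem_product, Finset.mem_Icc,
    Finset.mem_range, Finset.mem_singleton] at ht
  rcases ht with ((⟨⟨i, j⟩, ⟨⟨hi, him⟩, hj⟩, rfl⟩ | ⟨⟨i, j⟩, ⟨⟨hi, him⟩, hj⟩, rfl⟩) |
    ⟨k, hk, rfl⟩) | rfl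
  · simp only at hi him hj ⊢
    have hjL : (j : ℝ) + 1 ≤ L := by exact_mod_cast hj
    have hj0 : (0 : ℝ) ≤ j := Nat.cast_nonneg j
    refine tooth_F2 L m i j 0 hi him hj (by omega) _ (fun v hv => ?_)
    simp only [Finset.mem_insert, Finset.mem_singleton] at hv
    rcases hv with rfl | rfl | rfl
    · simp only [U, fl, q]
      push_cast
      refine ⟨by linarith, by linarith, ?_, ?_⟩ <;> nlinarith
    · simp only [U, fl, q]
      push_cast
      refine ⟨by linarith, by linarith, ?_, ?_⟩ <;> nlinarith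
    · simp only [W, fl, q]
      push_cast
      refine ⟨by linarith, by linarith, ?_, ?_⟩ <;> nlinarith
  · simp only at hi him hj ⊢
    have hjL : (j : ℝ) + 1 ≤ L := by exact_mod_cast hj
    have hj0 : (0 : ℝ) ≤ j := Nat.cast_nonneg j
    have hc : ((L - 1 : ℕ) : ℝ) = (L : ℝ) - 1 := by
      rw [Nat.cast_sub hL]
      simp
    refine tooth_F2 L m i (L - 1) j hi him (by omega) hj _ (fun v hv => ?_)
    simp only [Finset.mem_insert, Finset.mem_singleton] at hv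
    rcases hv with rfl | rfl | rfl
    · simp only [W, fl, q, hc]
      refine ⟨by linarith, by linarith, ?_, ?_⟩ <;> nlinarith
    · simp only [W, fl, q, hc]
      push_cast
      refine ⟨by linarith, by linarith, ?_, ?_⟩ <;> nlinarith
    · simp only [U, fl, q, hc]
      refine ⟨by linarith, by linarith, ?_, ?_⟩ <;> nlinarith
  · intro p hp
    refine Or.inl (box_F2 _ _ _ _ _ (fun v hv => ?_) hp)
    simp only [Finset.mem_insert, Finset.mem_singleton] at hv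
    rcases hv with rfl | rfl | rfl
    · exact ⟨le_refl _, rgt_F2 L m, by norm_num, by norm_num⟩
    · exact Z_F2 L m k (by omega)
    · exact Z_F2 L m (k + 1) (by omega)
  · intro p hp
    refine Or.inl (box_F2 _ _ _ _ _ (fun v hv => ?_) hp)
    simp only [Finset.mem_insert, Finset.mem_singleton] at hv
    rcases hv with rfl | rfl | rfl
    · exact ⟨le_refl _, rgt_F2 L m, by norm_num, by norm_num⟩
    · exact Z_F2 L m (2 * m + 1) (by omega)
    · exact ⟨rgt_F2 L m, le_refl _, by norm_num, by norm_num⟩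

end Pool.Agent.H142.FS
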