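import Pool.Agent.H142.FS.Defs
import Pool.Agent.H142.FS.A1
import Pool.Agent.H142.FS.A2

set_option autoImplicit false

open Set Filter Topology

namespace Pool.Agent.H142.FS

theorem Zeven_F3 (L j : ℕ) : Z L (2 * j) = (16 * (L : ℝ) ^ 2 * j + 2 * (L : ℝ) ^ 2, 0) := by
  unfold Z W cc q
  rw [if_pos (by omega)]
  have : 2 * j / 2 = j := by omega
  rw [this]
  ext
  · simp only; push_cast; ring
  · simp

theorem Zodd_F3 (L j : ℕ) :
    Z L (2 * j + 1) = (16 * (L : ℝ) ^ 2 * (j + 1) - 2 * (L : ℝ) ^ 2, 0) := by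
  unfold Z U cc q
  rw [if_neg (by omega)]
  have : (2 * j + 1) / 2 = j := by omega
  rw [this]
  ext
  · simp only; push_cast; ring
  · simp

theorem Zsnd_F3 (L k : ℕ) : (Z L k).2 = 0 := by
  rcases Nat.even_or_odd' k with ⟨j, rfl | rfl⟩
  · rw [Zeven_F3]
  · rw [Zodd_F3]

theorem Zgap_F3 (L k : ℕ) (hL : 1 ≤ L) : (Z L k).1 < (Z L (k + 1)).1 := by
  have hL' : (1 : ℝ) ≤ L := by exact_mod_cast hL
  have hL2 : (0 : ℝ) < (L : ℝ) ^ 2 := by positivity
  rcases Nat.even_or_odd' k with ⟨j, rfl | rfl⟩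
  · rw [Zeven_F3, Zodd_F3]
    simp only
    nlinarith
  · have e : 2 * j + 1 + 1 = 2 * (j + 1) := by ring
    rw [e, Zeven_F3, Zodd_F3]
    simp only
    push_cast
    nlinarith

/-- points below the teeth (fan from the lower left corner) -/
theorem T1_cover_rect (L m : ℕ) (hL : 1 ≤ L) (p : Pt) (h1 : lft L ≤ p.1) (h2 : p.1 ≤ rgt L m)
    (h3 : -1 ≤ p.2) (h4 : p.2 ≤ 0) : ∃ t ∈ T1 L m, p ∈ hull t := by
  have hL' : (1 : ℝ) ≤ L := by exact_mod_cast hL
  have hL2 : (0 : ℝ) < (L : ℝ) ^ 2 := by positivity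
  have hm : (0 : ℝ) ≤ m := Nat.cast_nonneg m
  have hlr : 0 < rgt L m - lft L := by
    unfold rgt lft cc
    push_cast
    nlinarith
  have hZlast : Z L (2 * m + 1) = (rgt L m, 0) := by
    rw [Zodd_F3]
    unfold rgt cc
    push_cast
    rfl
  have hZ0 : Z L 0 = (lft L, 0) := by
    have := Zeven_F3 L 0
    rw [mul_zero] at this
    rw [this]
    unfold lft
    ext
    · simp
    · simp
  obtain ⟨x, hx⟩ : ∃ x, x = p.1 - lft L := ⟨_, rfl⟩
  obtain ⟨y, hy⟩ : ∃ y, y = p.2 + 1 := ⟨_, rfl⟩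
  have hx0 : 0 ≤ x := by linarith
  have hy0 : 0 ≤ y := by linarith
  have hy1 : y ≤ 1 := by linarith
  rcases le_or_gt (y * (rgt L m - lft L)) x with hc | hc
  · refine ⟨{(lft L, -1), Z L (2 * m + 1), (rgt L m, -1)}, ?_, ?_⟩
    · unfold T1
      exact Finset.mem_union_right _ (Finset.mem_singleton_self _)
    · rw [mem_hull3, hZlast]
      have hq : x / (rgt L m - lft L) ≤ 1 := by
        rw [div_le_one hlr]
        linarith
      have hq2 : y ≤ x / (rgt L m - lft L) := by
        rw [le_div_iff₀ hlr]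
        exact hc
      have hq3 : x / (rgt L m - lft L) * (rgt L m - lft L) = x := div_mul_cancel₀ x hlr.ne'
      refine ⟨1 - x / (rgt L m - lft L), y, x / (rgt L m - lft L) - y, by linarith, hy0,
        by linarith, by ring, ?_⟩
      obtain ⟨s, hs⟩ : ∃ s, s = x / (rgt L m - lft L) := ⟨_, rfl⟩
      rw [← hs] at hq3 ⊢
      ext
      · simp only [Prod.fst_add, Prod.smul_fst, smul_eq_mul]
        linarith
      · simp only [Prod.snd_add, Prod.smul_snd, smul_eq_mul]
        linarith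
  · have hypos : 0 < y := by
      rcases hy0.lt_or_eq with h | h
      · exact h
      · rw [← h, zero_mul] at hc
        linarith
    -- discrete intermediate value
    classical
    have hex : ∃ k, x < y * ((Z L (k + 1)).1 - lft L) := ⟨2 * m, by rw [hZlast]; exact hc⟩
    obtain ⟨k, hk⟩ : ∃ k, k = Nat.find hex := ⟨_, rfl⟩
    have hk1 : x < y * ((Z L (k + 1)).1 - lft L) := by rw [hk]; exact Nat.find_spec hex
    have hk2 : k ≤ 2 * m := by
      rw [hk]
      exact Nat.find_min' hex (by rw [hZlast]; exact hc)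
    have hk3 : y * ((Z L k).1 - lft L) ≤ x := by
      rcases Nat.eq_zero_or_pos k with h0 | h0
      · rw [h0, hZ0]
        simp only
        rw [sub_self, mul_zero]
        exact hx0
      · obtain ⟨j, rfl⟩ := Nat.exists_eq_succ_of_ne_zero h0.ne'
        have := Nat.find_min hex (m := j) (by rw [← hk]; exact Nat.lt_succ_self j)
        exact not_lt.1 this
    have hgap := Zgap_F3 L k hL
    refine ⟨{(lft L, -1), Z L k, Z L (k + 1)}, ?_, ?_⟩
    · unfold T1
      refine Finset.mem_union_left _ (Finset.mem_union_right _ (Finset.mem_image.2 ⟨k, ?_, rfl⟩))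
      exact Finset.mem_range.2 (by omega)
    · rw [mem_hull3]
      obtain ⟨a, ha⟩ : ∃ a, a = (Z L k).1 := ⟨_, rfl⟩
      obtain ⟨b, hb⟩ : ∃ b, b = (Z L (k + 1)).1 := ⟨_, rfl⟩
      rw [← ha] at hk3 hgap
      rw [← hb] at hk1 hgap
      have hba : 0 < b - a := by linarith
      obtain ⟨s, hs⟩ : ∃ s, s = (x - y * (a - lft L)) / (b - a) := ⟨_, rfl⟩
      have hs0 : 0 ≤ s := by
        rw [hs]
        exact div_nonneg (by linarith) hba.le
      have hs2 : s * (b - a) = x - y * (a - lft L) := by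
        rw [hs]
        exact div_mul_cancel₀ _ hba.ne'
      have hs1 : s ≤ y := by
        rw [hs, div_le_iff₀ hba]
        nlinarith
      refine ⟨1 - y, y - s, s, by linarith, by linarith, hs0, by ring, ?_⟩
      ext
      · simp only [Prod.fst_add, Prod.smul_fst, smul_eq_mul]
        rw [← ha, ← hb]
        nlinarith
      · simp only [Prod.snd_add, Prod.smul_snd, smul_eq_mul, Zsnd_F3]
        linarith

end Pool.Agent.H142.FS
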