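import Pool.Agent.H142.FS.Defs
import Pool.Agent.H142.FS.A1
import Pool.Agent.H142.FS.A2

set_option autoImplicit false

open Set Filter Topology

namespace Pool.Agent.H142.FS

theorem q_pos_F4 (L j : ℕ) (hL : 1 ≤ L) : 0 < q L j := by
  have : (1 : ℝ) ≤ L := by exact_mod_cast hL
  unfold q
  positivity

theorem q_anti_F4 (L j : ℕ) (hj : j < L) : q L (j + 1) ≤ q L j := by
  have h : (j : ℝ) + 1 ≤ L := by exact_mod_cast hj
  unfold q
  push_cast
  nlinarith

/-- discrete intermediate value -/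
theorem ivt_F4 (g : ℕ → ℝ) : ∀ L : ℕ, 1 ≤ L → g 0 ≤ 0 → 0 ≤ g L →
    ∃ j < L, g j ≤ 0 ∧ 0 ≤ g (j + 1) := by
  intro L
  induction L with
  | zero => intro h; omega
  | succ n ih =>
    intro _ h0 hn
    by_cases hg : g n ≤ 0
    · exact ⟨n, by omega, hg, hn⟩
    · rcases Nat.eq_zero_or_pos n with rfl | hpos
      · exact absurd h0 hg
      · obtain ⟨j, hj, h1, h2⟩ := ih hpos h0 (le_of_not_ge hg)
        exact ⟨j, by omega, h1, h2⟩

theorem fl_U_F4 (L e k : ℕ) : 0 ≤ fl L e (-q L k) k := by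
  have hu : 0 ≤ ((k : ℤ) - e) * ((k : ℤ) - e - 1) := by
    rcases le_or_gt ((k : ℤ) - e) 0 with h | h
    · exact mul_nonneg_of_nonpos_of_nonpos h (by linarith)
    · have : 1 ≤ (k : ℤ) - e := h
      exact mul_nonneg (by linarith) (by linarith)
  have hu' : (0 : ℝ) ≤ ((k : ℝ) - e) * ((k : ℝ) - e - 1) := by exact_mod_cast hu
  have h2 : fl L e (-q L k) k = ((k : ℝ) - e) * ((k : ℝ) - e - 1) := by
    unfold fl q
    ring
  rw [h2]
  exact hu'

theorem fl_o_F4 (L e : ℕ) (he : e < L) : fl L e (q L 0) 0 < 0 := by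
  have h1 : (e : ℝ) + 1 ≤ L := by exact_mod_cast he
  have h0 : (0 : ℝ) ≤ e := Nat.cast_nonneg e
  have hq0 := q_pos_F4 L 0 (by omega)
  have hqe := q_pos_F4 L e (by omega)
  unfold fl
  have h3 : 0 ≤ (2 * ((L : ℝ) - e) - 1) * e := mul_nonneg (by linarith) h0
  linarith

theorem T1_cover_tooth_left (L m i : ℕ) (hL : 1 ≤ L) (hi : 1 ≤ i) (him : i ≤ m) (p : Pt)
    (h : (p.1 - cc L i, p.2) ∈ Tooth L) (ho : 0 ≤ orient (W L i 0) (U L i L) p) :
    ∃ t ∈ T1 L m, p ∈ hull t := by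
  obtain ⟨hy0, -, ⟨e, he, hfl⟩, -⟩ := h
  replace hy0 : 0 ≤ p.2 := hy0
  replace hfl : fl L e (p.1 - cc L i) p.2 ≤ 0 := hfl
  have hq0 := q_pos_F4 L 0 hL
  have hU0 : orient (W L i 0) (U L i 0) p = -(2 * q L 0 * p.2) := by
    simp only [orient, W, U, Nat.cast_zero]
    ring
  obtain ⟨j, hj, h1, h2⟩ := ivt_F4 (fun k => orient (W L i 0) (U L i k) p) L hL
    (by
      simp only [hU0]
      have : 0 ≤ 2 * q L 0 * p.2 := by positivity
      linarith) ho
  replace h1 : orient (W L i 0) (U L i j) p ≤ 0 := h1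
  replace h2 : 0 ≤ orient (W L i 0) (U L i (j + 1)) p := h2
  have hpos : 0 < orient (W L i 0) (U L i (j + 1)) (U L i j) := by
    have hqj := q_pos_F4 L j hL
    have hqa := q_anti_F4 L j hj
    have hj0 : (0 : ℝ) ≤ j := Nat.cast_nonneg j
    have e1 : orient (W L i 0) (U L i (j + 1)) (U L i j) =
        q L 0 + q L j + j * (q L j - q L (j + 1)) := by
      simp only [orient, W, U, Nat.cast_zero, Nat.cast_add, Nat.cast_one]
      ring
    rw [e1]
    have : 0 ≤ (j : ℝ) * (q L j - q L (j + 1)) := mul_nonneg hj0 (by linarith)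
    linarith
  have hanti : orient (W L i 0) p (U L i j) = -orient (W L i 0) (U L i j) p := by
    simp only [orient]
    ring
  obtain ⟨α, β, hα, hβ, hp, hin, hout⟩ :=
    wedge (W L i 0) (U L i (j + 1)) (U L i j) p hpos h2 (by rw [hanti]; linarith)
  by_cases hor : 0 ≤ orient (U L i (j + 1)) (U L i j) p
  · refine ⟨{U L i j, U L i (j + 1), W L i 0}, ?_, ?_⟩
    · unfold T1
      simp only [Finset.mem_union]
      refine Or.inl (Or.inl (Or.inl ?_))
      exact Finset.mem_image.2 ⟨(i, j), Finset.mem_product.2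
        ⟨Finset.mem_Icc.2 ⟨hi, him⟩, Finset.mem_range.2 hj⟩, rfl⟩
    · have e2 : ({U L i j, U L i (j + 1), W L i 0} : Finset Pt) =
          {W L i 0, U L i (j + 1), U L i j} := by
        ext x
        simp only [Finset.mem_insert, Finset.mem_singleton]
        tauto
      rw [e2]
      exact hin hor
  · exfalso
    have hab := hout (not_le.1 hor)
    have hp1 : p.1 - cc L i = (1 - α - β) * q L 0 + α * (-q L (j + 1)) + β * (-q L j) := by
      rw [hp]
      simp only [W, U, Prod.fst_add, Prod.smul_fst, Prod.fst_sub, smul_eq_mul]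
      ring
    have hp2 : p.2 = α * ((j + 1 : ℕ) : ℝ) + β * (j : ℝ) := by
      conv_lhs => rw [hp]
      simp only [W, U, Prod.snd_add, Prod.smul_snd, Prod.snd_sub, smul_eq_mul, Nat.cast_zero]
      ring
    have hfo := fl_o_F4 L e he
    have hfa := fl_U_F4 L e (j + 1)
    have hfb := fl_U_F4 L e j
    have key : fl L e (p.1 - cc L i) p.2 = (1 - α - β) * fl L e (q L 0) 0 +
        α * fl L e (-q L (j + 1)) ((j + 1 : ℕ) : ℝ) + β * fl L e (-q L j) (j : ℝ) := by
      rw [hp1, hp2]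
      unfold fl
      ring
    have hpos1 : 0 < (1 - α - β) * fl L e (q L 0) 0 :=
      mul_pos_of_neg_of_neg (by linarith) hfo
    have hpos2 := mul_nonneg hα hfa
    have hpos3 := mul_nonneg hβ hfb
    rw [key] at hfl
    linarith

end Pool.Agent.H142.FS
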