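import Pool.Agent.H142.FS.Defs
import Pool.Agent.H142.FS.A1
import Pool.Agent.H142.FS.A2

set_option autoImplicit false

open Set Filter Topology

namespace Pool.Agent.H142.FS

/-- discrete intermediate value -/
theorem ivt_F5 (L : ℕ) (hL : 1 ≤ L) (g : ℕ → ℝ) (h0 : 0 ≤ g 0) (hg : g L ≤ 0) :
    ∃ j < L, 0 ≤ g j ∧ g (j + 1) ≤ 0 := by
  by_contra hcon
  push Not at hcon
  have key : ∀ j, j ≤ L → 0 ≤ g j := by
    intro j
    induction j with
    | zero => intro _; exact h0
    | succ j ih =>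
      intro hj
      exact (hcon j (by omega) (ih (by omega))).le
  have h1 := hcon (L - 1) (by omega) (key (L - 1) (by omega))
  rw [Nat.sub_add_cancel hL] at h1
  linarith

/-- the value of the linear form at a vertex of the right chain -/
theorem int_F5 (t s : ℕ) : (0 : ℝ) ≤ ((t : ℝ) - s) * ((t : ℝ) - s - 1) := by
  rcases le_or_gt t s with h | h
  · have h1 : (t : ℝ) ≤ s := Nat.cast_le.mpr h
    nlinarith
  · have h1 : (s : ℝ) + 1 ≤ t := by exact_mod_cast h
    nlinarith

theorem T1_cover_tooth_right (L m i : ℕ) (hL : 1 ≤ L) (hi : 1 ≤ i) (him : i ≤ m) (p : Pt)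
    (h : (p.1 - cc L i, p.2) ∈ Tooth L) (ho : orient (W L i 0) (U L i L) p ≤ 0) :
    ∃ t ∈ T1 L m, p ∈ hull t := by
  obtain ⟨hY0, hYL, _, e, he, hfl⟩ := h
  simp only at hY0 hYL hfl
  have hL1 : (1 : ℝ) ≤ L := Nat.one_le_cast.mpr hL
  obtain ⟨j, hj, hg1, hg2⟩ := ivt_F5 L hL (fun j => orient (U L i L) (W L i j) p) (by
    simp only [orient, U, W, q] at ho ⊢
    push_cast at ho ⊢
    nlinarith) (by
    simp only [orient, U, W, q]
    nlinarith [mul_nonneg (sq_nonneg (L : ℝ)) (sub_nonneg.mpr hYL)])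
  have hjL : (j : ℝ) + 1 ≤ L := by exact_mod_cast hj
  have hj0 : (0 : ℝ) ≤ j := Nat.cast_nonneg j
  have h0 : 0 < orient (U L i L) (W L i j) (W L i (j + 1)) := by
    have e1 : orient (U L i L) (W L i j) (W L i (j + 1)) =
        2 * (L : ℝ) ^ 2 - ((L : ℝ) - j) * ((L : ℝ) - j - 1) := by
      simp only [orient, U, W, q]
      push_cast
      ring
    rw [e1]
    nlinarith
  obtain ⟨α, β, hα, hβ, hp, hin, hout⟩ := wedge (U L i L) (W L i j) (W L i (j + 1)) p h0 hg1 (by
    have e1 : orient (U L i L) p (W L i (j + 1)) = - orient (U L i L) (W L i (j + 1)) p := by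
      simp only [orient]
      ring
    rw [e1]
    linarith)
  by_cases hor : 0 ≤ orient (W L i j) (W L i (j + 1)) p
  · refine ⟨{W L i j, W L i (j + 1), U L i L}, ?_, ?_⟩
    · unfold T1
      apply Finset.mem_union_left
      apply Finset.mem_union_left
      apply Finset.mem_union_right
      apply Finset.mem_image.mpr
      exact ⟨(i, j), Finset.mem_product.mpr ⟨Finset.mem_Icc.mpr ⟨hi, him⟩,
        Finset.mem_range.mpr hj⟩, rfl⟩
    · have e1 : ({W L i j, W L i (j + 1), U L i L} : Finset Pt) =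
          {U L i L, W L i j, W L i (j + 1)} := by
        ext z
        simp only [Finset.mem_insert, Finset.mem_singleton]
        tauto
      rw [e1]
      exact hin hor
  · exfalso
    push Not at hor
    have hab := hout hor
    have hp1 : p.1 = (cc L i - q L L) + α * ((cc L i + q L j) - (cc L i - q L L)) +
        β * ((cc L i + q L (j + 1)) - (cc L i - q L L)) := by
      have := congrArg Prod.fst hp
      simpa [U, W] using this
    have hp2 : p.2 = (L : ℝ) + α * ((j : ℝ) - L) + β * (((j : ℝ) + 1) - L) := by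
      have := congrArg Prod.snd hp
      simpa [U, W] using this
    have hs1 := int_F5 (L - e) (L - j)
    have hs2 := int_F5 (L - e) (L - (j + 1))
    rw [Nat.cast_sub he.le, Nat.cast_sub hj.le] at hs1
    rw [Nat.cast_sub he.le, Nat.cast_sub hj] at hs2
    have he0 : (0 : ℝ) ≤ e := Nat.cast_nonneg e
    have heL : (e : ℝ) + 1 ≤ L := by exact_mod_cast he
    have hval : fl L e (-(p.1 - cc L i)) p.2 =
        (α + β - 1) * (2 * (L : ℝ) ^ 2 - ((L : ℝ) - e) * ((L : ℝ) - e - 1)) +
        α * ((((L : ℝ) - e) - ((L : ℝ) - j)) * (((L : ℝ) - e) - ((L : ℝ) - j) - 1)) +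
        β * ((((L : ℝ) - e) - ((L : ℝ) - (j + 1))) *
          (((L : ℝ) - e) - ((L : ℝ) - (j + 1)) - 1)) := by
      rw [hp1, hp2]
      simp only [fl, q]
      push_cast
      ring
    rw [hval] at hfl
    push_cast at hs2
    have h3 : 0 < 2 * (L : ℝ) ^ 2 - ((L : ℝ) - e) * ((L : ℝ) - e - 1) := by nlinarith
    have h4 := mul_pos (sub_pos.mpr hab) h3
    have h5 := mul_nonneg hα hs1
    have h6 := mul_nonneg hβ hs2
    linarith

end Pool.Agent.H142.FS
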