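import Pool.Agent.H142.FS.Defs
import Pool.Agent.H142.FS.A1

set_option autoImplicit false

open Set Filter Topology

namespace Pool.Agent.H142.FS

theorem cases3_F6 {P : Pt → Prop} {a b c : Pt} (ha : P a) (hb : P b) (hc : P c) :
    ∀ v ∈ ({a, b, c} : Finset Pt), P v := by
  intro v hv
  simp only [Finset.mem_insert, Finset.mem_singleton] at hv
  rcases hv with h | h | h
  · rw [h]; exact ha
  · rw [h]; exact hb
  · rw [h]; exact hc

/-- position of the left chain with respect to the line through `W 0` and `U k` -/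
theorem left_le_F6 (L i a k : ℕ) (hak : a ≤ k) (hk : k ≤ L) :
    (k : ℝ) * (U L i a).1 + (q L k + q L 0) * (U L i a).2 ≤ (k : ℝ) * (W L i 0).1 := by
  have h1 : (a : ℝ) ≤ k := by exact_mod_cast hak
  have h2 : (k : ℝ) ≤ L := by exact_mod_cast hk
  have h3 : (0 : ℝ) ≤ a := Nat.cast_nonneg a
  have h4 : (0 : ℝ) ≤ (k - a) * (4 * (L : ℝ) ^ 2 - a * k) := by
    apply mul_nonneg (by linarith)
    nlinarith [mul_nonneg h3 (sub_nonneg.mpr h2), mul_nonneg (h3.trans (h1.trans h2)) (sub_nonneg.mpr (h1.trans h2)), sq_nonneg (L : ℝ)]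
  simp only [U, W, q, Nat.cast_zero]
  nlinarith [h4]

theorem left_ge_F6 (L i b k : ℕ) (hkb : k ≤ b) (hb : b ≤ L) :
    (k : ℝ) * (W L i 0).1 ≤ (k : ℝ) * (U L i b).1 + (q L k + q L 0) * (U L i b).2 := by
  have h1 : (k : ℝ) ≤ b := by exact_mod_cast hkb
  have h2 : (b : ℝ) ≤ L := by exact_mod_cast hb
  have h3 : (0 : ℝ) ≤ k := Nat.cast_nonneg k
  have h4 : (0 : ℝ) ≤ (b - k) * (4 * (L : ℝ) ^ 2 - k * b) := by
    apply mul_nonneg (by linarith)
    nlinarith [mul_nonneg h3 (sub_nonneg.mpr h2), mul_nonneg (h3.trans (h1.trans h2)) (sub_nonneg.mpr (h1.trans h2)), sq_nonneg (L : ℝ)]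
  simp only [U, W, q, Nat.cast_zero]
  nlinarith [h4]

theorem right_le_F6 (L i a k : ℕ) (hak : a ≤ k) (hk : k ≤ L) :
    ((L : ℝ) - k) * (W L i a).1 + (q L k + (L : ℝ) ^ 2) * (W L i a).2 ≤
      ((L : ℝ) - k) * (U L i L).1 + (q L k + (L : ℝ) ^ 2) * L := by
  have h1 : (a : ℝ) ≤ k := by exact_mod_cast hak
  have h2 : (k : ℝ) ≤ L := by exact_mod_cast hk
  have h3 : (0 : ℝ) ≤ a := Nat.cast_nonneg a
  have h4 : (0 : ℝ) ≤ (k - a) * (2 * (L : ℝ) ^ 2 - (L - a) * (L - k)) := by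
    apply mul_nonneg (by linarith)
    nlinarith [mul_nonneg h3 (sub_nonneg.mpr h2), mul_nonneg (h3.trans h1) (h3.trans (h1.trans h2)), sq_nonneg (L : ℝ)]
  simp only [U, W, q]
  nlinarith [h4]

theorem right_ge_F6 (L i b k : ℕ) (hkb : k ≤ b) (hb : b ≤ L) :
    ((L : ℝ) - k) * (U L i L).1 + (q L k + (L : ℝ) ^ 2) * L ≤
      ((L : ℝ) - k) * (W L i b).1 + (q L k + (L : ℝ) ^ 2) * (W L i b).2 := by
  have h1 : (k : ℝ) ≤ b := by exact_mod_cast hkb
  have h2 : (b : ℝ) ≤ L := by exact_mod_cast hb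
  have h3 : (0 : ℝ) ≤ k := Nat.cast_nonneg k
  have h4 : (0 : ℝ) ≤ (b - k) * (2 * (L : ℝ) ^ 2 - (L - k) * (L - b)) := by
    apply mul_nonneg (by linarith)
    nlinarith [mul_nonneg h3 (sub_nonneg.mpr h2), mul_nonneg (h3.trans h1) (h3.trans (h1.trans h2)), sq_nonneg (L : ℝ)]
  simp only [U, W, q]
  nlinarith [h4]

theorem roof_ge_F6 (L i b : ℕ) :
    (L : ℝ) * (W L i 0).1 ≤ (L : ℝ) * (W L i b).1 + (q L L + q L 0) * (W L i b).2 := by
  have h2 : (0 : ℝ) ≤ L := Nat.cast_nonneg L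
  have h3 : (0 : ℝ) ≤ b := Nat.cast_nonneg b
  simp only [W, q, Nat.cast_zero]
  nlinarith [mul_nonneg (mul_nonneg h2 h2) h3, mul_nonneg (mul_nonneg h2 h3) h3]

theorem T1_disj_tooth (L i j j' : ℕ) (hL : 1 ≤ L) (hj : j < L) (hj' : j' < L) :
    (j < j' → Disjoint (interior (hull {U L i j, U L i (j + 1), W L i 0}))
      (interior (hull {U L i j', U L i (j' + 1), W L i 0}))) ∧
    (j < j' → Disjoint (interior (hull {W L i j, W L i (j + 1), U L i L}))
      (interior (hull {W L i j', W L i (j' + 1), U L i L}))) ∧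
    Disjoint (interior (hull {U L i j, U L i (j + 1), W L i 0}))
      (interior (hull {W L i j', W L i (j' + 1), U L i L})) := by
  have hL' : (1 : ℝ) ≤ L := by exact_mod_cast hL
  have hW0 : (W L i 0).2 = 0 := by simp [W]
  have hUL : (U L i L).2 = L := by simp [U]
  have hqpos : ∀ k, 0 ≤ q L k := fun k => by
    unfold q
    positivity
  refine ⟨fun hjj => ?_, fun hjj => ?_, ?_⟩
  · apply disj_of_sep ((j + 1 : ℕ) : ℝ) (q L (j + 1) + q L 0) (((j + 1 : ℕ) : ℝ) * (W L i 0).1)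
    · left
      exact_mod_cast Nat.succ_ne_zero j
    · exact cases3_F6 (left_le_F6 L i j (j + 1) (by omega) (by omega))
        (left_le_F6 L i (j + 1) (j + 1) le_rfl (by omega)) (by rw [hW0]; simp)
    · exact cases3_F6 (left_ge_F6 L i j' (j + 1) (by omega) (by omega))
        (left_ge_F6 L i (j' + 1) (j + 1) (by omega) (by omega)) (by rw [hW0]; simp)
  · apply disj_of_sep ((L : ℝ) - ((j + 1 : ℕ) : ℝ)) (q L (j + 1) + (L : ℝ) ^ 2)
      (((L : ℝ) - ((j + 1 : ℕ) : ℝ)) * (U L i L).1 + (q L (j + 1) + (L : ℝ) ^ 2) * L)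
    · right
      have := hqpos (j + 1)
      positivity
    · exact cases3_F6 (right_le_F6 L i j (j + 1) (by omega) (by omega))
        (right_le_F6 L i (j + 1) (j + 1) le_rfl (by omega)) (by rw [hUL])
    · exact cases3_F6 (right_ge_F6 L i j' (j + 1) (by omega) (by omega))
        (right_ge_F6 L i (j' + 1) (j + 1) (by omega) (by omega)) (by rw [hUL])
  · apply disj_of_sep (L : ℝ) (q L L + q L 0) ((L : ℝ) * (W L i 0).1)
    · left
      linarith
    · exact cases3_F6 (left_le_F6 L i j L (by omega) le_rfl)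
        (left_le_F6 L i (j + 1) L (by omega) le_rfl) (by rw [hW0]; simp)
    · exact cases3_F6 (roof_ge_F6 L i j') (roof_ge_F6 L i (j' + 1))
        (left_ge_F6 L i L L le_rfl le_rfl)

end Pool.Agent.H142.FS
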