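import Pool.Agent.H142.FS.Defs
import Pool.Agent.H142.FS.A1
import Pool.Agent.H142.FS.F6

set_option autoImplicit false

open Set Filter Topology

namespace Pool.Agent.H142.FS

/-! ### auxiliary lemmas -/

theorem q_bd_F7 (L j : ℕ) (hj : j ≤ L) : q L j ≤ 2 * (L : ℝ) ^ 2 ∧ 0 ≤ q L j := by
  have h1 : (j : ℝ) ≤ L := by exact_mod_cast hj
  have h2 : (0 : ℝ) ≤ j := Nat.cast_nonneg j
  unfold q
  constructor
  · nlinarith
  · positivity

/-- all points of `t` lie in the slab of the `i`-th tooth and above the line `y = 0` -/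
def Slab_F7 (L i : ℕ) (t : Finset Pt) : Prop :=
  ∀ v ∈ t, cc L i - 2 * (L : ℝ) ^ 2 ≤ v.1 ∧ v.1 ≤ cc L i + 2 * (L : ℝ) ^ 2 ∧ 0 ≤ v.2

theorem slabU_F7 (L i j : ℕ) (hj : j ≤ L) : cc L i - 2 * (L : ℝ) ^ 2 ≤ (U L i j).1 ∧
    (U L i j).1 ≤ cc L i + 2 * (L : ℝ) ^ 2 ∧ 0 ≤ (U L i j).2 := by
  obtain ⟨h1, h2⟩ := q_bd_F7 L j hj
  refine ⟨?_, ?_, Nat.cast_nonneg j⟩
  · show cc L i - 2 * (L : ℝ) ^ 2 ≤ cc L i - q L j
    linarith
  · show cc L i - q L j ≤ cc L i + 2 * (L : ℝ) ^ 2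
    linarith [sq_nonneg (L : ℝ)]

theorem slabW_F7 (L i j : ℕ) (hj : j ≤ L) : cc L i - 2 * (L : ℝ) ^ 2 ≤ (W L i j).1 ∧
    (W L i j).1 ≤ cc L i + 2 * (L : ℝ) ^ 2 ∧ 0 ≤ (W L i j).2 := by
  obtain ⟨h1, h2⟩ := q_bd_F7 L j hj
  refine ⟨?_, ?_, Nat.cast_nonneg j⟩
  · show cc L i - 2 * (L : ℝ) ^ 2 ≤ cc L i + q L j
    linarith [sq_nonneg (L : ℝ)]
  · show cc L i + q L j ≤ cc L i + 2 * (L : ℝ) ^ 2
    linarith

theorem slab1_F7 (L i j : ℕ) (hj : j < L) :
    Slab_F7 L i {U L i j, U L i (j + 1), W L i 0} := by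
  intro v hv
  simp only [Finset.mem_insert, Finset.mem_singleton] at hv
  rcases hv with rfl | rfl | rfl
  · exact slabU_F7 L i j hj.le
  · exact slabU_F7 L i (j + 1) hj
  · exact slabW_F7 L i 0 (Nat.zero_le _)

theorem slab2_F7 (L i j : ℕ) (hj : j < L) :
    Slab_F7 L i {W L i j, W L i (j + 1), U L i L} := by
  intro v hv
  simp only [Finset.mem_insert, Finset.mem_singleton] at hv
  rcases hv with rfl | rfl | rfl
  · exact slabW_F7 L i j hj.le
  · exact slabW_F7 L i (j + 1) hj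
  · exact slabU_F7 L i L le_rfl

/-- different teeth -/
theorem slab_lt_F7 (L i i' : ℕ) (t t' : Finset Pt) (h : Slab_F7 L i t) (h' : Slab_F7 L i' t')
    (hii : i < i') : Disjoint (interior (hull t)) (interior (hull t')) := by
  apply disj_of_sep 1 0 (cc L i + 2 * (L : ℝ) ^ 2) (Or.inl one_ne_zero)
  · intro v hv
    have := (h v hv).2.1
    linarith
  · intro v hv
    have h1 := (h' v hv).1
    have h2 : (i : ℝ) + 1 ≤ i' := by exact_mod_cast hii
    have h3 : cc L i + 16 * (L : ℝ) ^ 2 ≤ cc L i' := by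
      unfold cc
      nlinarith [sq_nonneg (L : ℝ)]
    linarith [sq_nonneg (L : ℝ)]

theorem slab_ne_F7 (L i i' : ℕ) (t t' : Finset Pt) (h : Slab_F7 L i t) (h' : Slab_F7 L i' t')
    (hii : i ≠ i') : Disjoint (interior (hull t)) (interior (hull t')) := by
  rcases lt_or_gt_of_ne hii with h1 | h1
  · exact slab_lt_F7 L i i' t t' h h' h1
  · exact (slab_lt_F7 L i' i t' t h' h h1).symm

/-- a tooth against a triangle below the line `y = 0` -/
theorem slab_low_F7 (L i : ℕ) (t t' : Finset Pt) (h : Slab_F7 L i t) (h' : ∀ v ∈ t', v.2 ≤ 0) :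
    Disjoint (interior (hull t)) (interior (hull t')) := by
  apply Disjoint.symm
  apply disj_of_sep 0 1 0 (Or.inr one_ne_zero)
  · intro v hv
    have := h' v hv
    linarith
  · intro v hv
    have := (h v hv).2.2
    linarith

theorem Z2_F7 (L k : ℕ) : (Z L k).2 = 0 := by
  unfold Z
  split_ifs
  · show ((0 : ℕ) : ℝ) = 0
    simp
  · show ((0 : ℕ) : ℝ) = 0
    simp

theorem q0_F7 (L : ℕ) : q L 0 = 2 * (L : ℝ) ^ 2 := by
  unfold q
  push_cast
  ring

theorem Z_even_F7 (L i : ℕ) : (Z L (2 * i)).1 = 16 * (L : ℝ) ^ 2 * i + 2 * (L : ℝ) ^ 2 := by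
  unfold Z
  rw [if_pos (by omega)]
  show cc L (2 * i / 2) + q L 0 = _
  rw [q0_F7, Nat.mul_div_cancel_left i (by norm_num)]
  rfl

theorem Z_odd_F7 (L i : ℕ) : (Z L (2 * i + 1)).1 = 16 * (L : ℝ) ^ 2 * i + 14 * (L : ℝ) ^ 2 := by
  unfold Z
  rw [if_neg (by omega)]
  show cc L ((2 * i + 1) / 2 + 1) - q L 0 = _
  have : (2 * i + 1) / 2 = i := by omega
  rw [q0_F7, this]
  unfold cc
  push_cast
  ring

theorem Z_succ_F7 (L k : ℕ) : (Z L k).1 ≤ (Z L (k + 1)).1 := by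
  rcases Nat.even_or_odd' k with ⟨i, rfl | rfl⟩
  · rw [Z_even_F7, Z_odd_F7]
    nlinarith [sq_nonneg (L : ℝ)]
  · have : 2 * i + 1 + 1 = 2 * (i + 1) := by ring
    rw [this, Z_even_F7, Z_odd_F7]
    push_cast
    nlinarith [sq_nonneg (L : ℝ)]

theorem Z_mono_F7 (L : ℕ) {k k' : ℕ} (h : k ≤ k') : (Z L k).1 ≤ (Z L k').1 := by
  induction h with
  | refl => exact le_rfl
  | step _ ih => exact ih.trans (Z_succ_F7 L _)

theorem low3_F7 (L k : ℕ) : ∀ v ∈ ({(lft L, -1), Z L k, Z L (k + 1)} : Finset Pt), v.2 ≤ 0 := by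
  intro v hv
  simp only [Finset.mem_insert, Finset.mem_singleton] at hv
  rcases hv with rfl | rfl | rfl
  · show (-1 : ℝ) ≤ 0
    norm_num
  · exact (Z2_F7 L _).le
  · exact (Z2_F7 L _).le

theorem low4_F7 (L m : ℕ) :
    ∀ v ∈ ({(lft L, -1), Z L (2 * m + 1), (rgt L m, -1)} : Finset Pt), v.2 ≤ 0 := by
  intro v hv
  simp only [Finset.mem_insert, Finset.mem_singleton] at hv
  rcases hv with rfl | rfl | rfl
  · show (-1 : ℝ) ≤ 0
    norm_num
  · exact (Z2_F7 L _).le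
  · show (-1 : ℝ) ≤ 0
    norm_num

/-- the points of a fan triangle to the left of the separating line through `Z L l` -/
theorem left3_F7 (L k l : ℕ) (hkl : k + 1 ≤ l) :
    ∀ v ∈ ({(lft L, -1), Z L k, Z L (k + 1)} : Finset Pt),
      1 * v.1 + (-((Z L l).1 - lft L)) * v.2 ≤ (Z L l).1 := by
  intro v hv
  simp only [Finset.mem_insert, Finset.mem_singleton] at hv
  rcases hv with rfl | rfl | rfl
  · show 1 * lft L + (-((Z L l).1 - lft L)) * (-1) ≤ (Z L l).1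
    linarith
  · rw [Z2_F7]
    have := Z_mono_F7 L (show k ≤ l by omega)
    linarith
  · rw [Z2_F7]
    have := Z_mono_F7 L hkl
    linarith

theorem right3_F7 (L k l : ℕ) (hkl : l ≤ k) :
    ∀ v ∈ ({(lft L, -1), Z L k, Z L (k + 1)} : Finset Pt),
      (Z L l).1 ≤ 1 * v.1 + (-((Z L l).1 - lft L)) * v.2 := by
  intro v hv
  simp only [Finset.mem_insert, Finset.mem_singleton] at hv
  rcases hv with rfl | rfl | rfl
  · show (Z L l).1 ≤ 1 * lft L + (-((Z L l).1 - lft L)) * (-1)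
    linarith
  · rw [Z2_F7]
    have := Z_mono_F7 L hkl
    linarith
  · rw [Z2_F7]
    have := Z_mono_F7 L (show l ≤ k + 1 by omega)
    linarith

theorem right4_F7 (L m : ℕ) :
    ∀ v ∈ ({(lft L, -1), Z L (2 * m + 1), (rgt L m, -1)} : Finset Pt),
      (Z L (2 * m + 1)).1 ≤ 1 * v.1 + (-((Z L (2 * m + 1)).1 - lft L)) * v.2 := by
  intro v hv
  simp only [Finset.mem_insert, Finset.mem_singleton] at hv
  rcases hv with rfl | rfl | rfl
  · show (Z L (2 * m + 1)).1 ≤ 1 * lft L + (-((Z L (2 * m + 1)).1 - lft L)) * (-1)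
    linarith
  · rw [Z2_F7]
    linarith
  · show (Z L (2 * m + 1)).1 ≤ 1 * rgt L m + (-((Z L (2 * m + 1)).1 - lft L)) * (-1)
    have h1 : lft L ≤ rgt L m := by
      unfold lft rgt cc
      push_cast
      have : (0 : ℝ) ≤ (m : ℝ) := Nat.cast_nonneg m
      nlinarith [sq_nonneg (L : ℝ), mul_nonneg (sq_nonneg (L : ℝ)) this]
    linarith

theorem disj33_F7 (L k k' : ℕ) (hk : k < k') :
    Disjoint (interior (hull ({(lft L, -1), Z L k, Z L (k + 1)} : Finset Pt)))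
      (interior (hull ({(lft L, -1), Z L k', Z L (k' + 1)} : Finset Pt))) :=
  disj_of_sep 1 (-((Z L (k + 1)).1 - lft L)) (Z L (k + 1)).1 (Or.inl one_ne_zero) _ _
    (left3_F7 L k (k + 1) le_rfl) (right3_F7 L k' (k + 1) hk)

theorem disj34_F7 (L m k : ℕ) (hk : k < 2 * m + 1) :
    Disjoint (interior (hull ({(lft L, -1), Z L k, Z L (k + 1)} : Finset Pt)))
      (interior (hull ({(lft L, -1), Z L (2 * m + 1), (rgt L m, -1)} : Finset Pt))) :=
  disj_of_sep 1 (-((Z L (2 * m + 1)).1 - lft L)) (Z L (2 * m + 1)).1 (Or.inl one_ne_zero) _ _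
    (left3_F7 L k (2 * m + 1) hk) (right4_F7 L m)

theorem memT1_F7 {L m : ℕ} {t : Finset Pt} (h : t ∈ T1 L m) :
    (∃ i j, j < L ∧ t = {U L i j, U L i (j + 1), W L i 0}) ∨
    (∃ i j, j < L ∧ t = {W L i j, W L i (j + 1), U L i L}) ∨
    (∃ k, k < 2 * m + 1 ∧ t = {(lft L, -1), Z L k, Z L (k + 1)}) ∨
    t = {(lft L, -1), Z L (2 * m + 1), (rgt L m, -1)} := by
  unfold T1 at h
  rw [Finset.mem_union, Finset.mem_union, Finset.mem_union] at h
  rcases h with ((h | h) | h) | h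
  · obtain ⟨⟨i, j⟩, hx, rfl⟩ := Finset.mem_image.1 h
    have := (Finset.mem_product.1 hx).2
    exact Or.inl ⟨i, j, Finset.mem_range.1 this, rfl⟩
  · obtain ⟨⟨i, j⟩, hx, rfl⟩ := Finset.mem_image.1 h
    have := (Finset.mem_product.1 hx).2
    exact Or.inr (Or.inl ⟨i, j, Finset.mem_range.1 this, rfl⟩)
  · obtain ⟨k, hx, rfl⟩ := Finset.mem_image.1 h
    exact Or.inr (Or.inr (Or.inl ⟨k, Finset.mem_range.1 hx, rfl⟩))
  · exact Or.inr (Or.inr (Or.inr (Finset.mem_singleton.1 h)))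

theorem disj11_F7 (L i j i' j' : ℕ) (hL : 1 ≤ L) (hj : j < L) (hj' : j' < L)
    (hne : ({U L i j, U L i (j + 1), W L i 0} : Finset Pt) ≠
      {U L i' j', U L i' (j' + 1), W L i' 0}) :
    Disjoint (interior (hull {U L i j, U L i (j + 1), W L i 0}))
      (interior (hull {U L i' j', U L i' (j' + 1), W L i' 0})) := by
  rcases eq_or_ne i i' with rfl | hi
  · rcases lt_trichotomy j j' with h | rfl | h
    · exact (T1_disj_tooth L i j j' hL hj hj').1 h
    · exact absurd rfl hne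
    · exact ((T1_disj_tooth L i j' j hL hj' hj).1 h).symm
  · exact slab_ne_F7 L i i' _ _ (slab1_F7 L i j hj) (slab1_F7 L i' j' hj') hi

theorem disj22_F7 (L i j i' j' : ℕ) (hL : 1 ≤ L) (hj : j < L) (hj' : j' < L)
    (hne : ({W L i j, W L i (j + 1), U L i L} : Finset Pt) ≠
      {W L i' j', W L i' (j' + 1), U L i' L}) :
    Disjoint (interior (hull {W L i j, W L i (j + 1), U L i L}))
      (interior (hull {W L i' j', W L i' (j' + 1), U L i' L})) := by
  rcases eq_or_ne i i' with rfl | hi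
  · rcases lt_trichotomy j j' with h | rfl | h
    · exact (T1_disj_tooth L i j j' hL hj hj').2.1 h
    · exact absurd rfl hne
    · exact ((T1_disj_tooth L i j' j hL hj' hj).2.1 h).symm
  · exact slab_ne_F7 L i i' _ _ (slab2_F7 L i j hj) (slab2_F7 L i' j' hj') hi

theorem disj12_F7 (L i j i' j' : ℕ) (hL : 1 ≤ L) (hj : j < L) (hj' : j' < L) :
    Disjoint (interior (hull {U L i j, U L i (j + 1), W L i 0}))
      (interior (hull {W L i' j', W L i' (j' + 1), U L i' L})) := by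
  rcases eq_or_ne i i' with rfl | hi
  · exact (T1_disj_tooth L i j j' hL hj hj').2.2
  · exact slab_ne_F7 L i i' _ _ (slab1_F7 L i j hj) (slab2_F7 L i' j' hj') hi

theorem T1_disj (L m : ℕ) (hL : 1 ≤ L) : ∀ t ∈ T1 L m, ∀ t' ∈ T1 L m, t ≠ t' →
    Disjoint (interior (hull t)) (interior (hull t')) := by
  intro t ht t' ht' hne
  rcases memT1_F7 ht with ⟨i, j, hj, rfl⟩ | ⟨i, j, hj, rfl⟩ | ⟨k, hk, rfl⟩ | rfl
  · rcases memT1_F7 ht' with ⟨i', j', hj', rfl⟩ | ⟨i', j', hj', rfl⟩ | ⟨k', hk', rfl⟩ | rfl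
    · exact disj11_F7 L i j i' j' hL hj hj' hne
    · exact disj12_F7 L i j i' j' hL hj hj'
    · exact slab_low_F7 L i _ _ (slab1_F7 L i j hj) (low3_F7 L k')
    · exact slab_low_F7 L i _ _ (slab1_F7 L i j hj) (low4_F7 L m)
  · rcases memT1_F7 ht' with ⟨i', j', hj', rfl⟩ | ⟨i', j', hj', rfl⟩ | ⟨k', hk', rfl⟩ | rfl
    · exact (disj12_F7 L i' j' i j hL hj' hj).symm
    · exact disj22_F7 L i j i' j' hL hj hj' hne
    · exact slab_low_F7 L i _ _ (slab2_F7 L i j hj) (low3_F7 L k')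
    · exact slab_low_F7 L i _ _ (slab2_F7 L i j hj) (low4_F7 L m)
  · rcases memT1_F7 ht' with ⟨i', j', hj', rfl⟩ | ⟨i', j', hj', rfl⟩ | ⟨k', hk', rfl⟩ | rfl
    · exact (slab_low_F7 L i' _ _ (slab1_F7 L i' j' hj') (low3_F7 L k)).symm
    · exact (slab_low_F7 L i' _ _ (slab2_F7 L i' j' hj') (low3_F7 L k)).symm
    · rcases lt_trichotomy k k' with h | rfl | h
      · exact disj33_F7 L k k' h
      · exact absurd rfl hne
      · exact (disj33_F7 L k' k h).symm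
    · exact disj34_F7 L m k hk
  · rcases memT1_F7 ht' with ⟨i', j', hj', rfl⟩ | ⟨i', j', hj', rfl⟩ | ⟨k', hk', rfl⟩ | rfl
    · exact (slab_low_F7 L i' _ _ (slab1_F7 L i' j' hj') (low4_F7 L m)).symm
    · exact (slab_low_F7 L i' _ _ (slab2_F7 L i' j' hj') (low4_F7 L m)).symm
    · exact (disj34_F7 L m k' hk').symm
    · exact absurd rfl hne

end Pool.Agent.H142.FS
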