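import Pool.Agent.H142.FS.Defs
import Pool.Agent.H142.FS.A1

set_option autoImplicit false

open Set Filter Topology

namespace Pool.Agent.H142.FS

theorem int_case_F8 (j k : ℕ) (h : ((k : ℝ) - j) * ((k : ℝ) - j - 1) ≤ 0) : k = j ∨ k = j + 1 := by
  have h' : ((k : ℤ) - j) * ((k : ℤ) - j - 1) ≤ 0 := by exact_mod_cast h
  by_contra hne
  push Not at hne
  rcases lt_or_ge k j with hk | hk
  · have h1 : (k : ℤ) - j < 0 := by omega
    have h2 : (k : ℤ) - j - 1 < 0 := by omega
    nlinarith [mul_pos_of_neg_of_neg h1 h2]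
  · have h1 : 0 < (k : ℤ) - j := by omega
    have h2 : 0 < (k : ℤ) - j - 1 := by omega
    nlinarith [mul_pos h1 h2]

theorem T1_empty_tooth (L i j k : ℕ) (hL : 1 ≤ L) (hj : j < L) (hk : k ≤ L) :
    (U L i k ∈ hull {U L i j, U L i (j + 1), W L i 0} → k = j ∨ k = j + 1) ∧
    (W L i k ∈ hull {U L i j, U L i (j + 1), W L i 0} → k = 0) ∧
    (W L i k ∈ hull {W L i j, W L i (j + 1), U L i L} → k = j ∨ k = j + 1) ∧
    (U L i k ∈ hull {W L i j, W L i (j + 1), U L i L} → k = L) := by
  have hLr : (1 : ℝ) ≤ L := by exact_mod_cast hL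
  have hjr : (j : ℝ) + 1 ≤ L := by exact_mod_cast hj
  have hj0 : (0 : ℝ) ≤ j := Nat.cast_nonneg j
  have hk0 : (0 : ℝ) ≤ k := Nat.cast_nonneg k
  have hkr : (k : ℝ) ≤ L := by exact_mod_cast hk
  refine ⟨?_, ?_, ?_, ?_⟩
  · intro hp
    have h := hull_le (-1) (2 * ((L : ℝ) - j) - 1) ((2 * ((L : ℝ) - j) - 1) * j + q L j - cc L i) _ ?_ hp
    · apply int_case_F8
      simp only [U, q] at h
      nlinarith
    · intro v hv
      simp only [Finset.mem_insert, Finset.mem_singleton] at hv
      rcases hv with rfl | rfl | rfl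
      · simp only [U, q]
        linarith
      · simp only [U, q]
        push_cast
        nlinarith
      · simp only [W, q]
        push_cast
        nlinarith [mul_nonneg hj0 (by linarith : (0 : ℝ) ≤ 2 * ((L : ℝ) - j) - 1), sq_nonneg (L : ℝ),
          sq_nonneg ((L : ℝ) - j)]
  · intro hp
    have h := hull_le ((j : ℝ) + 1) (q L (j + 1) + q L 0) (((j : ℝ) + 1) * (cc L i + q L 0)) _ ?_ hp
    · by_contra hk1
      have hk1r : (1 : ℝ) ≤ k := by
        have : 1 ≤ k := Nat.one_le_iff_ne_zero.mpr hk1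
        exact_mod_cast this
      simp only [W, q] at h
      push_cast at h
      have h1 : ((L : ℝ) ^ 2 + ((L : ℝ) - (j + 1)) ^ 2 + ((L : ℝ) ^ 2 + ((L : ℝ) - 0) ^ 2)) * k ≤
          ((j : ℝ) + 1) * (k * (2 * L - k)) := by nlinarith
      have h2 : ((L : ℝ) ^ 2 + ((L : ℝ) - (j + 1)) ^ 2 + ((L : ℝ) ^ 2 + ((L : ℝ) - 0) ^ 2)) ≤
          ((j : ℝ) + 1) * (2 * L - k) := by
        have hkp : (0 : ℝ) < k := by linarith
        have : ((L : ℝ) ^ 2 + ((L : ℝ) - (j + 1)) ^ 2 + ((L : ℝ) ^ 2 + ((L : ℝ) - 0) ^ 2)) * k ≤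
          (((j : ℝ) + 1) * (2 * L - k)) * k := by nlinarith
        exact le_of_mul_le_mul_right this hkp
      have h3 : ((j : ℝ) + 1) * (2 * L - k) ≤ L * (2 * L) := by
        apply mul_le_mul hjr (by linarith) (by linarith) (by linarith)
      nlinarith [sq_nonneg ((L : ℝ) - (j + 1))]
    · intro v hv
      simp only [Finset.mem_insert, Finset.mem_singleton] at hv
      rcases hv with rfl | rfl | rfl
      · simp only [U, q]
        push_cast
        have e1 : 0 ≤ (j : ℝ) * (2 * ((L : ℝ) - j) - 1) := mul_nonneg hj0 (by linarith)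
        nlinarith [sq_nonneg (L : ℝ), sq_nonneg ((L : ℝ) - j)]
      · simp only [U, q]
        push_cast
        nlinarith
      · simp only [W, q]
        push_cast
        nlinarith
  · intro hp
    have h := hull_le 1 (2 * ((L : ℝ) - j) - 1) ((2 * ((L : ℝ) - j) - 1) * j + q L j + cc L i) _ ?_ hp
    · apply int_case_F8
      simp only [W, q] at h
      nlinarith
    · intro v hv
      simp only [Finset.mem_insert, Finset.mem_singleton] at hv
      rcases hv with rfl | rfl | rfl
      · simp only [W, q]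
        linarith
      · simp only [W, q]
        push_cast
        nlinarith
      · simp only [U, q]
        push_cast
        have e1 : ((L : ℝ) - j) ^ 2 ≤ (L : ℝ) ^ 2 := by
          apply pow_le_pow_left₀ (by linarith) (by linarith)
        nlinarith
  · intro hp
    have h := hull_le (-((L : ℝ) - j)) (-(q L j + (L : ℝ) ^ 2))
      (-(((L : ℝ) - j) * (cc L i + q L j) + (q L j + (L : ℝ) ^ 2) * j)) _ ?_ hp
    · by_contra hkL
      have hk1r : (k : ℝ) + 1 ≤ L := by
        have : k + 1 ≤ L := by omega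
        exact_mod_cast this
      simp only [U, q] at h
      have h1 : 0 < (L : ℝ) - j := by linarith
      have h2 : 0 < (L : ℝ) - k := by linarith
      have h3 : 0 ≤ ((L : ℝ) - j) * ((L : ℝ) - k) ^ 2 := mul_nonneg h1.le (sq_nonneg _)
      have h4 : 0 < ((L : ℝ) - k) * (((L : ℝ) - j) ^ 2 + 2 * (L : ℝ) ^ 2) := by
        apply mul_pos h2
        have := sq_nonneg ((L : ℝ) - j)
        nlinarith
      nlinarith
    · intro v hv
      simp only [Finset.mem_insert, Finset.mem_singleton] at hv
      rcases hv with rfl | rfl | rfl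
      · simp only [W, q]
        linarith
      · simp only [W, q]
        push_cast
        have e1 : ((L : ℝ) - j) ^ 2 ≤ (L : ℝ) ^ 2 := by
          apply pow_le_pow_left₀ (by linarith) (by linarith)
        nlinarith
      · simp only [U, q]
        push_cast
        nlinarith

end Pool.Agent.H142.FS
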