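import Pool.Agent.H142.FS.Defs
import Pool.Agent.H142.FS.A1
import Pool.Agent.H142.FS.C2
import Pool.Agent.H142.FS.F8

set_option autoImplicit false

open Set Filter Topology

namespace Pool.Agent.H142.FS

lemma Z_snd_F9 (L n : ℕ) : (Z L n).2 = 0 := by
  unfold Z
  split_ifs
  · simp [W]
  · simp [U]

lemma Z_fst_F9 (L n : ℕ) : (Z L n).1 = (L : ℝ) ^ 2 * (8 * n + 2) ∨ (Z L n).1 = (L : ℝ) ^ 2 * (8 * n + 6) := by
  unfold Z
  split_ifs with h
  · left
    obtain ⟨i, rfl⟩ : ∃ i, n = 2 * i := ⟨n / 2, by omega⟩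
    have h1 : 2 * i / 2 = i := by omega
    rw [h1]
    simp only [W, cc, q]
    push_cast
    ring
  · right
    obtain ⟨i, rfl⟩ : ∃ i, n = 2 * i + 1 := ⟨n / 2, by omega⟩
    have h1 : (2 * i + 1) / 2 = i := by omega
    rw [h1]
    simp only [U, cc, q]
    push_cast
    ring

lemma Z_lt_F9 (L n k : ℕ) (hL : 1 ≤ L) (h : n < k) : (Z L n).1 < (Z L k).1 := by
  have hL0 : (1 : ℝ) ≤ L := by exact_mod_cast hL
  have hL2 : 0 < (L : ℝ) ^ 2 := by positivity
  have h1 : (n : ℝ) + 1 ≤ k := by exact_mod_cast h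
  have h2 : (L : ℝ) ^ 2 * (8 * n + 6) < (L : ℝ) ^ 2 * (8 * k + 2) := mul_lt_mul_of_pos_left (by linarith) hL2
  have h3 : (L : ℝ) ^ 2 * (8 * n + 2) ≤ (L : ℝ) ^ 2 * (8 * n + 6) := mul_le_mul_of_nonneg_left (by linarith) hL2.le
  have h4 : (L : ℝ) ^ 2 * (8 * k + 2) ≤ (L : ℝ) ^ 2 * (8 * k + 6) := mul_le_mul_of_nonneg_left (by linarith) hL2.le
  rcases Z_fst_F9 L n with a | a <;> rcases Z_fst_F9 L k with b | b <;> rw [a, b] <;> linarith

lemma Z_even_F9 (L i : ℕ) : Z L (2 * i) = W L i 0 := by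
  unfold Z
  rw [if_pos (by omega)]
  congr 1
  omega

lemma Z_odd_F9 (L i : ℕ) : Z L (2 * i + 1) = U L (i + 1) 0 := by
  unfold Z
  rw [if_neg (by omega)]
  congr 1
  omega

lemma V_cases_F9 (L m : ℕ) (p : Pt) (hp : p ∈ V L m) :
    0 < p.2 ∨ (∃ n, p = Z L n) ∨ p = (lft L, -1) ∨ p = (rgt L m, -1) := by
  rw [mem_V] at hp
  rcases hp with ⟨i, j, hi, him, hj, h⟩ | h | h | h | h
  · rcases Nat.eq_zero_or_pos j with h0 | h0
    · subst h0
      right; left
      rcases h with h | h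
      · refine ⟨2 * (i - 1) + 1, ?_⟩
        rw [Z_odd_F9, h, Nat.sub_add_cancel hi]
      · exact ⟨2 * i, by rw [Z_even_F9, h]⟩
    · left
      have h1 : (0 : ℝ) < j := by exact_mod_cast h0
      rcases h with h | h <;> rw [h]
      · exact h1
      · exact h1
  · right; left
    exact ⟨0, by rw [h, ← Z_even_F9 L 0]⟩
  · right; left
    exact ⟨2 * m + 1, by rw [h, Z_odd_F9]⟩
  · right; right; left; exact h
  · right; right; right; exact h

lemma q_F9 (L j : ℕ) (hj : j ≤ L) : (L : ℝ) ^ 2 ≤ q L j ∧ q L j ≤ 2 * (L : ℝ) ^ 2 := by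
  have h1 : (j : ℝ) ≤ L := by exact_mod_cast hj
  have h2 : (0 : ℝ) ≤ j := Nat.cast_nonneg j
  unfold q
  constructor <;> nlinarith

lemma cc_far_F9 (L i i' : ℕ) (h : i' ≠ i) : 16 * (L : ℝ) ^ 2 ≤ |cc L i' - cc L i| := by
  have h1 : cc L i' - cc L i = 16 * (L : ℝ) ^ 2 * ((i' : ℝ) - i) := by unfold cc; ring
  have h2 : (1 : ℝ) ≤ |(i' : ℝ) - i| := by
    have h3 : (1 : ℤ) ≤ |(i' : ℤ) - i| := Int.one_le_abs (by omega)
    exact_mod_cast h3
  rw [h1, abs_mul, abs_of_nonneg (by positivity : 0 ≤ 16 * (L : ℝ) ^ 2)]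
  have h4 : 0 ≤ 16 * (L : ℝ) ^ 2 := by positivity
  nlinarith

/-- a triangle in the strip over the tooth `i` contains no other vertices than those of the tooth `i` -/
lemma strip_F9 (L m i : ℕ) (hL : 1 ≤ L) (hi : 1 ≤ i) (him : i ≤ m) (t : Finset Pt)
    (ht : ∀ v ∈ t, |v.1 - cc L i| ≤ 2 * (L : ℝ) ^ 2 ∧ 0 ≤ v.2) (p : Pt) (hp : p ∈ V L m) (hpt : p ∈ hull t) :
    ∃ k ≤ L, p = U L i k ∨ p = W L i k := by
  have hL0 : (1 : ℝ) ≤ L := by exact_mod_cast hL
  have hL2 : 0 < (L : ℝ) ^ 2 := by positivity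
  have h1 : p.1 ≤ cc L i + 2 * (L : ℝ) ^ 2 := by
    have := hull_le 1 0 (cc L i + 2 * (L : ℝ) ^ 2) t (fun v hv => by
      have := (abs_le.1 (ht v hv).1).2
      linarith) hpt
    linarith
  have h2 : cc L i - 2 * (L : ℝ) ^ 2 ≤ p.1 := by
    have := hull_le (-1) 0 (-(cc L i - 2 * (L : ℝ) ^ 2)) t (fun v hv => by
      have := (abs_le.1 (ht v hv).1).1
      linarith) hpt
    linarith
  have h3 : 0 ≤ p.2 := by
    have := hull_le 0 (-1) 0 t (fun v hv => by
      have := (ht v hv).2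
      linarith) hpt
    linarith
  have key : ∀ i', i' ≠ i → |p.1 - cc L i'| ≤ 2 * (L : ℝ) ^ 2 → False := by
    intro i' hne hab
    have h4 := cc_far_F9 L i i' hne
    have h5 : |p.1 - cc L i| ≤ 2 * (L : ℝ) ^ 2 := by
      rw [abs_le]
      constructor <;> linarith
    have h6 : |cc L i' - cc L i| ≤ |p.1 - cc L i'| + |p.1 - cc L i| := by
      have h7 : cc L i' - cc L i = -(p.1 - cc L i') + (p.1 - cc L i) := by ring
      rw [h7]
      refine (abs_add_le _ _).trans ?_
      rw [abs_neg]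
    linarith
  rw [mem_V] at hp
  rcases hp with ⟨i', j, hi', him', hj, h⟩ | h | h | h | h
  · by_cases hii : i' = i
    · subst hii
      exact ⟨j, hj, h⟩
    · exfalso
      obtain ⟨q1, q2⟩ := q_F9 L j hj
      apply key i' hii
      rcases h with h | h
      · rw [h]
        simp only [U]
        rw [abs_le]
        constructor <;> linarith
      · rw [h]
        simp only [W]
        rw [abs_le]
        constructor <;> linarith
  · exfalso
    obtain ⟨q1, q2⟩ := q_F9 L 0 (Nat.zero_le _)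
    apply key 0 (by omega)
    rw [h]
    simp only [W]
    rw [abs_le]
    constructor <;> linarith
  · exfalso
    obtain ⟨q1, q2⟩ := q_F9 L 0 (Nat.zero_le _)
    apply key (m + 1) (by omega)
    rw [h]
    simp only [U]
    rw [abs_le]
    constructor <;> linarith
  · exfalso
    rw [h] at h3
    simp only at h3
    linarith
  · exfalso
    rw [h] at h3
    simp only at h3
    linarith

theorem T1_empty (L m : ℕ) (hL : 1 ≤ L) : ∀ t ∈ T1 L m, ∀ p ∈ V L m, p ∈ hull t → p ∈ t := by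
  have hL0 : (1 : ℝ) ≤ L := by exact_mod_cast hL
  have hL2 : 0 < (L : ℝ) ^ 2 := by positivity
  have bU : ∀ i j, j ≤ L → |(U L i j).1 - cc L i| ≤ 2 * (L : ℝ) ^ 2 ∧ 0 ≤ (U L i j).2 := by
    intro i j hj
    obtain ⟨q1, q2⟩ := q_F9 L j hj
    simp only [U]
    refine ⟨?_, Nat.cast_nonneg _⟩
    rw [abs_le]
    constructor <;> linarith
  have bW : ∀ i j, j ≤ L → |(W L i j).1 - cc L i| ≤ 2 * (L : ℝ) ^ 2 ∧ 0 ≤ (W L i j).2 := by
    intro i j hj
    obtain ⟨q1, q2⟩ := q_F9 L j hj
    simp only [W]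
    refine ⟨?_, Nat.cast_nonneg _⟩
    rw [abs_le]
    constructor <;> linarith
  intro t ht p hp hpt
  unfold T1 at ht
  simp only [Finset.mem_union, Finset.mem_image, Finset.mem_product, Finset.mem_Icc, Finset.mem_range,
    Finset.mem_singleton, Prod.exists] at ht
  rcases ht with ((⟨i, j, ⟨⟨hi, him⟩, hj⟩, rfl⟩ | ⟨i, j, ⟨⟨hi, him⟩, hj⟩, rfl⟩) | ⟨k, hk, rfl⟩) | rfl
  · obtain ⟨k, hk, h⟩ := strip_F9 L m i hL hi him _ (by
      intro v hv
      simp only [Finset.mem_insert, Finset.mem_singleton] at hv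
      rcases hv with rfl | rfl | rfl
      · exact bU i j hj.le
      · exact bU i (j + 1) hj
      · exact bW i 0 (Nat.zero_le _)) p hp hpt
    obtain ⟨t1, t2, -, -⟩ := T1_empty_tooth L i j k hL hj hk
    rcases h with rfl | rfl
    · rcases t1 hpt with rfl | rfl <;> simp
    · rw [t2 hpt]; simp
  · obtain ⟨k, hk, h⟩ := strip_F9 L m i hL hi him _ (by
      intro v hv
      simp only [Finset.mem_insert, Finset.mem_singleton] at hv
      rcases hv with rfl | rfl | rfl
      · exact bW i j hj.le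
      · exact bW i (j + 1) hj
      · exact bU i L le_rfl) p hp hpt
    obtain ⟨-, -, t3, t4⟩ := T1_empty_tooth L i j k hL hj hk
    rcases h with rfl | rfl
    · rw [t4 hpt]; simp
    · rcases t3 hpt with rfl | rfl <;> simp
  · rw [mem_hull3] at hpt
    obtain ⟨α, β, γ, hα, hβ, hγ, hs, hpe⟩ := hpt
    have z1 := Z_snd_F9 L k
    have z2 := Z_snd_F9 L (k + 1)
    have hy : p.2 = -α := by
      rw [hpe]
      simp only [Prod.snd_add, Prod.smul_snd, smul_eq_mul, z1, z2]
      ring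
    have hx : p.1 = α * lft L + β * (Z L k).1 + γ * (Z L (k + 1)).1 := by
      rw [hpe]
      simp only [Prod.fst_add, Prod.smul_fst, smul_eq_mul]
    rcases V_cases_F9 L m p hp with h | ⟨n, h⟩ | h | h
    · linarith
    · have hα0 : α = 0 := by
        have := Z_snd_F9 L n
        rw [← h] at this
        linarith
      have hlt := Z_lt_F9 L k (k + 1) hL (Nat.lt_succ_self k)
      have hx' : p.1 = (Z L k).1 + γ * ((Z L (k + 1)).1 - (Z L k).1) := by
        rw [hx, hα0]
        have : β = 1 - γ := by linarith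
        rw [this]
        ring
      have hγ1 : γ ≤ 1 := by linarith
      have b1 : (Z L k).1 ≤ p.1 := by
        rw [hx']
        have := mul_nonneg hγ (by linarith : 0 ≤ (Z L (k + 1)).1 - (Z L k).1)
        linarith
      have b2 : p.1 ≤ (Z L (k + 1)).1 := by
        rw [hx']
        nlinarith
      have c1 : k ≤ n := by
        by_contra hc
        have := Z_lt_F9 L n k hL (by omega)
        rw [← h] at this
        linarith
      have c2 : n ≤ k + 1 := by
        by_contra hc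
        have := Z_lt_F9 L (k + 1) n hL (by omega)
        rw [← h] at this
        linarith
      rcases (by omega : n = k ∨ n = k + 1) with rfl | rfl
      · rw [h]; simp
      · rw [h]; simp
    · rw [h]; simp
    · have hα1 : α = 1 := by
        rw [h] at hy
        simp only at hy
        linarith
      have hβ0 : β = 0 := by linarith
      have hγ0 : γ = 0 := by linarith
      have : p = (lft L, -1) := by
        rw [hpe, hα1, hβ0, hγ0]
        simp
      rw [this]; simp
  · rw [mem_hull3] at hpt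
    obtain ⟨α, β, γ, hα, hβ, hγ, hs, hpe⟩ := hpt
    have z1 := Z_snd_F9 L (2 * m + 1)
    have hy : p.2 = -α - γ := by
      rw [hpe]
      simp only [Prod.snd_add, Prod.smul_snd, smul_eq_mul, z1]
      ring
    rcases V_cases_F9 L m p hp with h | ⟨n, h⟩ | h | h
    · linarith
    · have := Z_snd_F9 L n
      rw [← h] at this
      have hα0 : α = 0 := by linarith
      have hγ0 : γ = 0 := by linarith
      have hβ1 : β = 1 := by linarith
      have : p = Z L (2 * m + 1) := by
        rw [hpe, hα0, hβ1, hγ0]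
        simp
      rw [this]; simp
    · rw [h]; simp
    · rw [h]; simp

end Pool.Agent.H142.FS
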