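import Pool.Agent.H142.FS.Defs
import Pool.Agent.H142.FS.C2
import Pool.Agent.H142.FS.F1
import Pool.Agent.H142.FS.F2
import Pool.Agent.H142.FS.F3
import Pool.Agent.H142.FS.F4
import Pool.Agent.H142.FS.F5
import Pool.Agent.H142.FS.F7
import Pool.Agent.H142.FS.F9

set_option autoImplicit false

open Set Filter Topology

namespace Pool.Agent.H142.FS

theorem cc_sub_F10 (L m i : ℕ) (hi : i ≤ m + 1) : cc L (m + 1) - cc L (m + 1 - i) = cc L i := by
  unfold cc
  rw [Nat.cast_sub hi]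
  push_cast
  ring

theorem tooth_neg_F10 (L : ℕ) (x y : ℝ) (h : (x, y) ∈ Tooth L) : (-x, y) ∈ Tooth L := by
  obtain ⟨h1, h2, h3, h4⟩ := h
  refine ⟨h1, h2, h4, ?_⟩
  obtain ⟨j, hj, h5⟩ := h3
  refine ⟨j, hj, ?_⟩
  show fl L j (-(-x)) y ≤ 0
  rw [neg_neg]
  exact h5

theorem refl_refl_F10 (L m : ℕ) (p : Pt) : refl L m (refl L m p) = p := by
  unfold refl
  ext
  · show cc L (m + 1) - (cc L (m + 1) - p.1) = p.1
    ring
  · rfl

theorem refl_mem_Poly_F10 (L m : ℕ) (p : Pt) (h : p ∈ Poly L m) : refl L m p ∈ Poly L m := by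
  rcases h with ⟨h1, h2, h3, h4⟩ | ⟨i, hi, him, h⟩
  · left
    refine ⟨?_, ?_, h3, h4⟩
    · show lft L ≤ cc L (m + 1) - p.1
      unfold rgt at h2
      unfold lft
      linarith
    · show cc L (m + 1) - p.1 ≤ rgt L m
      unfold lft at h1
      unfold rgt
      linarith
  · right
    refine ⟨m + 1 - i, by omega, by omega, ?_⟩
    have h1 := tooth_neg_F10 L _ _ h
    have h2 : (refl L m p).1 - cc L (m + 1 - i) = -(p.1 - cc L i) := by
      show cc L (m + 1) - p.1 - cc L (m + 1 - i) = -(p.1 - cc L i)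
      have := cc_sub_F10 L m i (by omega)
      linarith
    rw [h2]
    exact h1

theorem refl_U_F10 (L m i j : ℕ) (hi : i ≤ m + 1) :
    refl L m (U L i j) = W L (m + 1 - i) j := by
  have := cc_sub_F10 L m i hi
  ext
  · show cc L (m + 1) - (cc L i - q L j) = cc L (m + 1 - i) + q L j
    linarith
  · rfl

theorem refl_W_F10 (L m i j : ℕ) (hi : i ≤ m + 1) :
    refl L m (W L i j) = U L (m + 1 - i) j := by
  have := cc_sub_F10 L m i hi
  ext
  · show cc L (m + 1) - (cc L i + q L j) = cc L (m + 1 - i) - q L j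
    linarith
  · rfl

theorem refl_mem_V_F10 (L m : ℕ) (p : Pt) (h : p ∈ V L m) : refl L m p ∈ V L m := by
  rw [mem_V] at h ⊢
  rcases h with ⟨i, j, hi, him, hj, rfl | rfl⟩ | rfl | rfl | rfl | rfl
  · left
    exact ⟨m + 1 - i, j, by omega, by omega, hj, Or.inr (refl_U_F10 L m i j (by omega))⟩
  · left
    exact ⟨m + 1 - i, j, by omega, by omega, hj, Or.inl (refl_W_F10 L m i j (by omega))⟩
  · right; right; left
    rw [refl_W_F10 L m 0 0 (by omega)]
    rfl
  · right; left
    rw [refl_U_F10 L m (m + 1) 0 le_rfl, Nat.sub_self]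
  · right; right; right; right
    ext
    · show cc L (m + 1) - lft L = rgt L m
      unfold lft rgt
      ring
    · rfl
  · right; right; right; left
    ext
    · show cc L (m + 1) - rgt L m = lft L
      unfold lft rgt
      ring
    · rfl

theorem T1_triang (L m : ℕ) (hL : 1 ≤ L) : IsTriangulation (Poly L m) (V L m) (T1 L m) := by
  refine ⟨T1_tri L m hL, T1_verts L m, ?_, T1_disj L m hL, T1_empty L m hL⟩
  ext p
  rw [Set.mem_iUnion₂]
  constructor
  · rintro ⟨t, ht, hp⟩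
    exact T1_sub L m hL t ht hp
  · rintro (⟨h1, h2, h3, h4⟩ | ⟨i, hi, him, h⟩)
    · obtain ⟨t, ht, hp⟩ := T1_cover_rect L m hL p h1 h2 h3 h4
      exact ⟨t, ht, hp⟩
    · rcases le_total 0 (orient (W L i 0) (U L i L) p) with ho | ho
      · obtain ⟨t, ht, hp⟩ := T1_cover_tooth_left L m i hL hi him p h ho
        exact ⟨t, ht, hp⟩
      · obtain ⟨t, ht, hp⟩ := T1_cover_tooth_right L m i hL hi him p h ho
        exact ⟨t, ht, hp⟩

theorem refl_Poly (L m : ℕ) : refl L m '' (Poly L m) = Poly L m := by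
  ext p
  constructor
  · rintro ⟨p', hp', rfl⟩
    exact refl_mem_Poly_F10 L m p' hp'
  · intro hp
    exact ⟨refl L m p, refl_mem_Poly_F10 L m p hp, refl_refl_F10 L m p⟩

theorem refl_V (L m : ℕ) : (V L m).image (refl L m) = V L m := by
  ext p
  rw [Finset.mem_image]
  constructor
  · rintro ⟨p', hp', rfl⟩
    exact refl_mem_V_F10 L m p' hp'
  · intro hp
    exact ⟨refl L m p, refl_mem_V_F10 L m p hp, refl_refl_F10 L m p⟩

end Pool.Agent.H142.FS
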