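import Pool.Agent.H142.FS.Defs
import Pool.Agent.H142.FS.F10

set_option autoImplicit false

open Set Filter Topology

namespace Pool.Agent.H142.FS

theorem refl_refl_F11 (L m : ℕ) (p : Pt) : refl L m (refl L m p) = p := by
  unfold refl
  ext <;> simp

/-- the linear part -/
noncomputable def reflLin_F11 : ℝ × ℝ →ₗ[ℝ] ℝ × ℝ :=
  LinearMap.prodMap (-LinearMap.id) LinearMap.id

noncomputable def reflAff_F11 (L m : ℕ) : ℝ × ℝ →ᵃ[ℝ] ℝ × ℝ where
  toFun := refl L m
  linear := reflLin_F11
  map_vadd' := by
    intro p v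
    unfold refl reflLin_F11
    ext <;> simp
    ring

theorem reflAff_coe_F11 (L m : ℕ) : ⇑(reflAff_F11 L m) = refl L m := rfl

noncomputable def reflHomeo_F11 (L m : ℕ) : ℝ × ℝ ≃ₜ ℝ × ℝ where
  toFun := refl L m
  invFun := refl L m
  left_inv := refl_refl_F11 L m
  right_inv := refl_refl_F11 L m
  continuous_toFun := by
    unfold refl
    fun_prop
  continuous_invFun := by
    unfold refl
    fun_prop

theorem hull_image_F11 (L m : ℕ) (t : Finset Pt) :
    hull (t.image (refl L m)) = refl L m '' hull t := by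
  unfold hull
  rw [Finset.coe_image, ← reflAff_coe_F11, AffineMap.image_convexHull]

theorem interior_hull_image_F11 (L m : ℕ) (t : Finset Pt) :
    interior (hull (t.image (refl L m))) = refl L m '' interior (hull t) := by
  rw [hull_image_F11]
  exact ((reflHomeo_F11 L m).image_interior (hull t)).symm

theorem orient_refl_F11 (L m : ℕ) (a b c : Pt) :
    orient (refl L m a) (refl L m b) (refl L m c) = - orient a b c := by
  unfold orient refl
  simp only
  ring

theorem isTri_image_F11 (L m : ℕ) (t : Finset Pt) (h : IsTri t) : IsTri (t.image (refl L m)) := by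
  obtain ⟨a, b, c, h0, rfl⟩ := h
  refine ⟨refl L m a, refl L m b, refl L m c, ?_, ?_⟩
  · rw [orient_refl_F11]
    exact neg_ne_zero.mpr h0
  · simp [Finset.image_insert]

theorem refl_inj_F11 (L m : ℕ) : Function.Injective (refl L m) := by
  intro x y h
  have := congrArg (refl L m) h
  rwa [refl_refl_F11, refl_refl_F11] at this

theorem T2_triang (L m : ℕ) (h : IsTriangulation (Poly L m) (V L m) (T1 L m)) :
    IsTriangulation (Poly L m) (V L m) (T2 L m) := by
  refine ⟨?_, ?_, ?_, ?_, ?_⟩
  · intro t ht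
    obtain ⟨s, hs, rfl⟩ := Finset.mem_image.mp ht
    exact isTri_image_F11 L m s (h.tri s hs)
  · intro t ht
    obtain ⟨s, hs, rfl⟩ := Finset.mem_image.mp ht
    calc s.image (refl L m) ⊆ (V L m).image (refl L m) :=
          Finset.image_subset_image (h.verts s hs)
      _ = V L m := refl_V L m
  · have h1 : (⋃ t ∈ T2 L m, hull t) = refl L m '' (⋃ t ∈ T1 L m, hull t) := by
      ext x
      simp only [T2, Finset.mem_image, mem_iUnion, exists_prop, mem_image]
      constructor
      · rintro ⟨t, ⟨s, hs, rfl⟩, hx⟩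
        rw [hull_image_F11] at hx
        obtain ⟨y, hy, rfl⟩ := hx
        exact ⟨y, ⟨s, hs, hy⟩, rfl⟩
      · rintro ⟨y, ⟨s, hs, hy⟩, rfl⟩
        refine ⟨s.image (refl L m), ⟨s, hs, rfl⟩, ?_⟩
        rw [hull_image_F11]
        exact ⟨y, hy, rfl⟩
    rw [h1, h.cover, refl_Poly]
  · intro t ht t' ht' hne
    obtain ⟨s, hs, rfl⟩ := Finset.mem_image.mp ht
    obtain ⟨s', hs', rfl⟩ := Finset.mem_image.mp ht'
    have hss : s ≠ s' := by
      rintro rfl
      exact hne rfl
    rw [interior_hull_image_F11, interior_hull_image_F11]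
    exact (Set.disjoint_image_iff (refl_inj_F11 L m)).mpr (h.disj s hs s' hs' hss)
  · intro t ht p hp hpt
    obtain ⟨s, hs, rfl⟩ := Finset.mem_image.mp ht
    rw [hull_image_F11] at hpt
    obtain ⟨y, hy, rfl⟩ := hpt
    have hyV : y ∈ V L m := by
      have : refl L m (refl L m y) ∈ (V L m).image (refl L m) := Finset.mem_image_of_mem _ hp
      rwa [refl_refl_F11, refl_V] at this
    exact Finset.mem_image_of_mem _ (h.empty s hs y hyV hy)

end Pool.Agent.H142.FS
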