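import Pool.Agent.H142.FS.Defs
import Pool.Agent.H142.FS.E9
import Pool.Agent.H142.FS.F10
import Pool.Agent.H142.FS.F11
import Pool.Agent.H142.FS.D4

set_option autoImplicit false

open Set Filter Topology

namespace Pool.Agent.H142.FS

theorem inv_of_triang_G {P : Set Pt} {S : Finset Pt} {T : Finset (Finset Pt)}
    (h : IsTriangulation P S T) : Inv P S T := by
  intro t ht
  refine ⟨h.tri t ht, ?_, h.verts t ht⟩
  rw [← h.cover]
  exact Set.subset_biUnion_of_mem (u := fun t => hull t) ht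

theorem result : ¬ Q1 := by
  rintro ⟨k, C, hk, h⟩
  obtain ⟨C', hC1, hC2⟩ : ∃ C' : ℕ, C ≤ C' ∧ 1 ≤ C' := by
    refine ⟨⌈|C|⌉₊ + 1, ?_, by omega⟩
    have h1 := Nat.le_ceil |C|
    have h2 := le_abs_self C
    push_cast
    linarith
  obtain ⟨L, hL⟩ : ∃ L : ℕ, L = 32 * C' + 32 := ⟨_, rfl⟩
  have hL1 : 1 ≤ L := by omega
  have hLR : (L : ℝ) = 32 * C' + 32 := by rw [hL]; push_cast; ring
  have hLpos : (0 : ℝ) < L := by exact_mod_cast hL1
  have hε : (0 : ℝ) < 1 / (2 * (2 * (L : ℝ) + 6)) := by positivity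
  have hev := (hk.eventually (gt_mem_nhds hε))
  rw [Filter.eventually_atTop] at hev
  obtain ⟨N, hN⟩ := hev
  obtain ⟨m, hm1, hmN⟩ : ∃ m : ℕ, 1 ≤ m ∧ N ≤ m := ⟨max N 1, le_max_right _ _, le_max_left _ _⟩
  have hnm : N ≤ nv L m := by
    unfold nv
    nlinarith
  have hmR : (1 : ℝ) ≤ m := by exact_mod_cast hm1
  have hn : ((nv L m : ℕ) : ℝ) ≤ m * (2 * (L : ℝ) + 6) := by
    unfold nv
    push_cast
    nlinarith
  have hnpos : (0 : ℝ) < ((nv L m : ℕ) : ℝ) := by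
    unfold nv
    positivity
  have hkn : k (nv L m) ≤ m / 2 := by
    have h1 := hN (nv L m) hnm
    rw [div_lt_iff₀ hnpos] at h1
    have h2 : 1 / (2 * (2 * (L : ℝ) + 6)) * ((nv L m : ℕ) : ℝ) ≤
        1 / (2 * (2 * (L : ℝ) + 6)) * (m * (2 * (L : ℝ) + 6)) :=
      mul_le_mul_of_nonneg_left hn hε.le
    have h3 : 1 / (2 * (2 * (L : ℝ) + 6)) * (m * (2 * (L : ℝ) + 6)) = m / 2 := by
      have h4 : 2 * (L : ℝ) + 6 ≠ 0 := by positivity
      field_simp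
    linarith
  have t1 := T1_triang L m hL1
  have t2 := T2_triang L m t1
  obtain ⟨j, B, hj, hB, r, hr, hB2⟩ := h (nv L m) (vert L m) (Poly L m) (simple L m hL1)
    (T1 L m) (T2 L m) t1 t2
  have hlow := lower L m hL1 (inv_of_triang_G t1) (inv_of_triang_G t2) j r B hB hB2
  have hlow' : (m : ℝ) * (L * L) ≤ 2 * r + j * (L * L) := by exact_mod_cast hlow
  have h1 : (r : ℝ) ≤ C' * (m * (2 * (L : ℝ) + 6)) := by
    have h2 : C * ((nv L m : ℕ) : ℝ) ≤ C' * ((nv L m : ℕ) : ℝ) :=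
      mul_le_mul_of_nonneg_right hC1 hnpos.le
    have h3 : (C' : ℝ) * ((nv L m : ℕ) : ℝ) ≤ C' * (m * (2 * (L : ℝ) + 6)) :=
      mul_le_mul_of_nonneg_left hn (Nat.cast_nonneg _)
    linarith
  have h2 : (j : ℝ) * (L * L) ≤ m / 2 * (L * L) :=
    mul_le_mul_of_nonneg_right (hj.trans hkn) (by positivity)
  have hC0 : (0 : ℝ) ≤ C' := Nat.cast_nonneg _
  have hL1R : (1 : ℝ) ≤ L := by exact_mod_cast hL1
  have h3 : (C' : ℝ) * (m * (2 * (L : ℝ) + 6)) ≤ C' * (m * (8 * L)) := by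
    refine mul_le_mul_of_nonneg_left ?_ hC0
    refine mul_le_mul_of_nonneg_left ?_ (by linarith)
    linarith
  have h4 : (m : ℝ) * (L * L) ≤ 2 * (C' * (m * (8 * L))) + m / 2 * (L * L) := by linarith
  have h5 : (m : ℝ) * L * (L - 32 * C') ≤ 0 := by nlinarith
  have h6 : (L : ℝ) - 32 * C' = 32 := by rw [hLR]; ring
  rw [h6] at h5
  have h7 : (0 : ℝ) < (m : ℝ) * L * 32 := by positivity
  linarith

end Pool.Agent.H142.FS
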